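import Pool.Agent.Helper38.Shape.Sem

/-!
# Block programs
-/

namespace Pool.Agent.Helper38.Shape

open Relation

set_option linter.unusedSimpArgs false
set_option linter.unusedVariables false
set_option linter.unusedSectionVars false

/-- A sequence of instructions: the instruction number `e` allows a token in state `U e` to move
to state `V e` (if `on e`), and then kills the tokens in state `U e` (if `kl e`). -/
structure Ins where
  n : ℕ
  E : ℕ
  on : ℕ → Prop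
  U : ℕ → ℕ
  V : ℕ → ℕ
  kl : ℕ → Prop
  hUV : ∀ e < E, on e → U e < V e ∧ V e < n
  hn : 0 < n

/-- Possible states before the instruction `e`. -/
def Ins.PR (I : Ins) : ℕ → ℕ → Prop
  | 0 => fun w => w = 0
  | e + 1 => fun w => (I.PR e w ∧ ¬ (I.kl e ∧ w = I.U e)) ∨ (I.on e ∧ I.PR e (I.U e) ∧ w = I.V e)

theorem Ins.PR_lt {I : Ins} {e : ℕ} (he : e ≤ I.E) {w : ℕ} (h : I.PR e w) : w < I.n := by
  induction e generalizing w with
  | zero =>
    have : w = 0 := h
    rw [this]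
    exact I.hn
  | succ e ih =>
    rcases h with h | ⟨h1, h2, rfl⟩
    · exact ih (by omega) h.1
    · exact (I.hUV e (by omega) h1).2

section idx

variable {L1 L2 : ℕ}

theorem idx_div {i m : ℕ} (h : i < L2) : (m * L2 + i) / L2 = m := by
  rw [add_comm, Nat.add_mul_div_right _ _ (by omega), Nat.div_eq_of_lt h, zero_add]

theorem idx_mod {i m : ℕ} (h : i < L2) : (m * L2 + i) % L2 = i := by
  rw [add_comm, Nat.add_mul_mod_self_right, Nat.mod_eq_of_lt h]

theorem idx_eq (k : ℕ) : k = (k / L2 / L1 * L1 + k / L2 % L1) * L2 + k % L2 := by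
  rw [Nat.div_add_mod', Nat.div_add_mod']

end idx

namespace Sys

theorem EvOK.mono {M : Sys} {k : ℕ} {S S' S'' : Set V2} (h : M.EvOK k S S') (h' : S' ⊆ S'') :
    M.EvOK k S S'' := by
  obtain ⟨A, h1, h2, h3, h4⟩ := h
  exact ⟨A, h1, h2, fun p hp hh => h' (h3 p hp hh), h4⟩

end Sys

namespace Prog

variable {P : Prog}

/-- Sequences indexed by three numbers. -/
def seq3 {X : Type*} (L1 L2 : ℕ) (T : ℕ → ℕ → ℕ → X) (k : ℕ) : X :=
  T (k / L2 / L1) (k / L2 % L1) (k % L2)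

theorem seq3_eval {X : Type*} {L1 L2 : ℕ} {T : ℕ → ℕ → ℕ → X} {e s i : ℕ} (hs : s < L1)
    (hi : i < L2) : seq3 L1 L2 T ((e * L1 + s) * L2 + i) = T e s i := by
  unfold seq3
  rw [idx_div hi, idx_mod hi, idx_div hs, idx_mod hs]

/-- Assembly of the effects of the events. -/
theorem run3 {L1 L2 E : ℕ} (h1 : 0 < L1) (h2 : 0 < L2) (T : ℕ → ℕ → ℕ → ℕ → ℕ → Prop)
    (hE : ∀ e < E, ∀ s < L1, ∀ i < L2,
      P.sys.EvOK ((e * L1 + s) * L2 + i) (P.In (T e s i)) (P.In (T e s (i + 1))))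
    (hs : ∀ e < E, ∀ s < L1, P.In (T e s L2) ⊆ P.In (T e (s + 1) 0))
    (he : ∀ e < E, P.In (T e L1 0) ⊆ P.In (T (e + 1) 0 0)) (k : ℕ) (hk : k < E * L1 * L2) :
    P.sys.EvOK k (P.In (seq3 L1 L2 T k)) (P.In (seq3 L1 L2 T (k + 1))) := by
  have hi : k % L2 < L2 := Nat.mod_lt _ h2
  have hs' : k / L2 % L1 < L1 := Nat.mod_lt _ h1
  have he' : k / L2 / L1 < E := by
    rw [Nat.div_lt_iff_lt_mul h1, Nat.div_lt_iff_lt_mul h2]
    exact hk
  have hkeq := idx_eq (L1 := L1) (L2 := L2) k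
  set e := k / L2 / L1
  set s := k / L2 % L1
  set i := k % L2
  rw [hkeq, seq3_eval hs' hi]
  refine (hE e he' s hs' i hi).mono ?_
  rcases Nat.lt_or_ge (i + 1) L2 with h3 | h3
  · rw [show (e * L1 + s) * L2 + i + 1 = (e * L1 + s) * L2 + (i + 1) by ring,
      seq3_eval hs' h3]
  · have h4 : i + 1 = L2 := by omega
    rw [h4]
    refine (hs e he' s hs').trans ?_
    rcases Nat.lt_or_ge (s + 1) L1 with h5 | h5
    · rw [show (e * L1 + s) * L2 + i + 1 = (e * L1 + (s + 1)) * L2 + 0 by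
        rw [← h4]; ring, seq3_eval h5 h2]
    · have h6 : s + 1 = L1 := by omega
      rw [h6]
      refine (he e he').trans ?_
      rw [show (e * L1 + s) * L2 + i + 1 = ((e + 1) * L1 + 0) * L2 + 0 by
        rw [← h4, ← h6]; ring, seq3_eval h1 h2]

theorem in_mono {T T' : ℕ → ℕ → Prop} (h : ∀ x y, T x y → P.Mem T' x y) : P.In T ⊆ P.In T' := by
  rintro p ⟨x, y, h1, h2⟩
  obtain ⟨x', y', h3, h4⟩ := h x y h1
  exact ⟨x', y', h3, Sys.Cg.trans h4 h2⟩

/-- Congruence of classes in terms of integers. -/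
theorem ce_iff {x y x' y' : ℕ} : P.CE x y x' y' ↔ ∃ n : ℤ,
    ((x' : ℤ) - x) * P.r.1 + ((y' : ℤ) - y) * P.t.1 = n * P.g.1 ∧
    ((x' : ℤ) - x) * P.r.2 + ((y' : ℤ) - y) * P.t.2 = n * P.g.2 := by
  unfold CE Sys.Cg
  refine exists_congr fun n => ?_
  simp only [cv, cl, Sys.adv, sys, Prod.mk.injEq]
  push_cast
  constructor
  · rintro ⟨h1, h2⟩
    constructor <;> linarith
  · rintro ⟨h1, h2⟩
    constructor <;> linarith

end Prog

end Pool.Agent.Helper38.Shape
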