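import Pool.Agent.Helper38.Shape.TypeII

/-!
# Sets of shapes
-/

namespace Pool.Agent.Helper38.Shape

set_option linter.unusedSimpArgs false
set_option linter.unusedVariables false
set_option linter.unusedSectionVars false

theorem indep {g1 g2 f1 f2 a b : ℤ} (hD : g1 * f2 - g2 * f1 ≠ 0) (h1 : a * f1 = b * g1)
    (h2 : a * f2 = b * g2) : a = 0 ∧ b = 0 := by
  have ha : a * (g1 * f2 - g2 * f1) = 0 := by
    calc a * (g1 * f2 - g2 * f1) = g1 * (a * f2) - g2 * (a * f1) := by ring
      _ = 0 := by rw [h1, h2]; ring
  have ha0 : a = 0 := (mul_eq_zero.1 ha).resolve_right hD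
  have hb : b * (g1 * f2 - g2 * f1) = 0 := by
    calc b * (g1 * f2 - g2 * f1) = (b * g1) * f2 - (b * g2) * f1 := by ring
      _ = 0 := by rw [← h1, ← h2, ha0]; ring
  exact ⟨ha0, (mul_eq_zero.1 hb).resolve_right hD⟩

/-- Three steps in general position give a system of type I. -/
theorem mkTI {g r t : ℕ × ℕ} (g1 : 0 < g.1) (g2 : 0 < g.2)
    (det : (g.1 : ℤ) * r.2 - g.2 * r.1 ≠ 0)
    (h : ∀ x y : ℤ, (t.1 : ℤ) = x * r.1 + y * g.1 → (t.2 : ℤ) = x * r.2 + y * g.2 → False) :
    ∃ H : TI, H.g = g ∧ H.r = r ∧ H.t = t := by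
  have hex : ∃ m : ℕ, 0 < m ∧ ∃ x y : ℤ, (m : ℤ) * t.1 = x * r.1 + y * g.1 ∧
      (m : ℤ) * t.2 = x * r.2 + y * g.2 := by
    set D : ℤ := (g.1 : ℤ) * r.2 - g.2 * r.1 with hD
    refine ⟨D.natAbs, Int.natAbs_pos.2 det, D.sign * ((g.1 : ℤ) * t.2 - g.2 * t.1),
      D.sign * ((t.1 : ℤ) * r.2 - t.2 * r.1), ?_, ?_⟩
    · rw [← Int.sign_mul_self_eq_natAbs, mul_assoc, mul_assoc D.sign, mul_assoc D.sign,
        ← mul_add]
      congr 1
      rw [hD]
      ring
    · rw [← Int.sign_mul_self_eq_natAbs, mul_assoc, mul_assoc D.sign, mul_assoc D.sign,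
        ← mul_add]
      congr 1
      rw [hD]
      ring
  classical
  obtain ⟨h1, x, y, h2, h3⟩ := Nat.find_spec hex
  have hmin : ∀ j < Nat.find hex, ¬ (0 < j ∧ ∃ x y : ℤ, (j : ℤ) * t.1 = x * r.1 + y * g.1 ∧
      (j : ℤ) * t.2 = x * r.2 + y * g.2) := fun j hj => Nat.find_min hex hj
  set m := Nat.find hex
  have hm : m ≠ 1 := by
    intro hm
    rw [hm, Nat.cast_one, one_mul] at h2 h3
    exact h x y h2 h3
  have hx : (x : ℤ) = (x.toNat : ℤ) - ((-x).toNat : ℤ) := by omega
  refine ⟨⟨g, r, t, m, x.toNat, (-x).toNat, y, g1, g2, det, by omega, ?_, ?_, ?_⟩,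
    rfl, rfl, rfl⟩
  · rw [← hx]; exact h2
  · rw [← hx]; exact h3
  · intro j hj0 hj x' y' e1 e2
    exact hmin j hj ⟨hj0, x', y', e1, e2⟩

/-- The set `F` contains steps in general position. -/
def General (F : Set (ℕ × ℕ)) : Prop :=
  (∃ H : TI, H.g ∈ F ∧ H.r ∈ F ∧ H.t ∈ F) ∨
    ∃ H : TW, H.g ∈ F ∧ (H.α * H.g.1, 0) ∈ F ∧ (0, H.α * H.g.2) ∈ F

theorem general_of {F : Set (ℕ × ℕ)} (h0 : (0, 0) ∉ F) {g f : ℕ × ℕ} (hgF : g ∈ F) (hfF : f ∈ F)
    (g1 : 0 < g.1) (g2 : 0 < g.2) (hD : (g.1 : ℤ) * f.2 - g.2 * f.1 ≠ 0)
    (hPl : ¬ ∃ s t : ℕ × ℕ, ∀ p ∈ F, p = s ∨ p = t ∨ p = s + t) : General F := by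
  by_contra hG
  have hno : ∀ g ∈ F, ∀ r ∈ F, ∀ t ∈ F, 0 < g.1 → 0 < g.2 → (g.1 : ℤ) * r.2 - g.2 * r.1 ≠ 0 →
      ∃ x y : ℤ, (t.1 : ℤ) = x * r.1 + y * g.1 ∧ (t.2 : ℤ) = x * r.2 + y * g.2 := by
    intro g hg r hr t ht g1 g2 det
    by_contra hcon
    push Not at hcon
    obtain ⟨H, rfl, rfl, rfl⟩ := mkTI g1 g2 det (t := t) hcon
    exact hG (Or.inl ⟨H, hg, hr, ht⟩)
  have hnoW : ∀ x : ℕ, 2 ≤ x → (x * g.1, 0) ∈ F → (0, x * g.2) ∈ F → False := by
    intro x hx h1 h2
    exact hG (Or.inr ⟨⟨g, x, g1, g2, hx⟩, hgF, h1, h2⟩)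
  have z1 : (0 : ℤ) < g.1 := by omega
  have z2 : (0 : ℤ) < g.2 := by omega
  have hne : ∀ k ∈ F, k.1 ≠ 0 ∨ k.2 ≠ 0 := by
    intro k hk
    by_contra h
    push Not at h
    exact h0 (by rwa [show k = (0, 0) from Prod.ext h.1 h.2] at hk)
  have key : ∀ k ∈ F, k ≠ g → k ≠ f → k = g + f ∨ f = g + k ∨ g = f + k := by
    intro k hk hkg hkf
    obtain ⟨y, x, e1, e2⟩ := hno g hgF f hfF k hk g1 g2 hD
    by_cases hy : y = 0
    · -- `k` is a multiple of `g`
      subst hy
      exfalso
      have e1' : (k.1 : ℤ) = x * g.1 := by linarith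
      have e2' : (k.2 : ℤ) = x * g.2 := by linarith
      have hx0 : 0 ≤ x := by
        by_contra h
        push Not at h
        have : x * (g.1 : ℤ) < 0 := mul_neg_of_neg_of_pos h z1
        omega
      have hx1 : x ≠ 0 := by
        rintro rfl
        rcases hne k hk with h | h
        · apply h; have : (k.1 : ℤ) = 0 := by linarith
          exact_mod_cast this
        · apply h; have : (k.2 : ℤ) = 0 := by linarith
          exact_mod_cast this
      have hx2 : x ≠ 1 := by
        rintro rfl
        exact hkg (Prod.ext (by omega) (by omega))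
      have hx3 : 2 ≤ x := by omega
      have k1 : 0 < k.1 := by
        have : (0 : ℤ) < k.1 := by rw [e1']; positivity
        exact_mod_cast this
      have k2 : 0 < k.2 := by
        have : (0 : ℤ) < k.2 := by rw [e2']; positivity
        exact_mod_cast this
      obtain ⟨a, b, a1, a2⟩ := hno k hk f hfF g hgF k1 k2 (by
        rw [e1', e2']
        have : x * ↑g.1 * ↑f.2 - x * ↑g.2 * ↑f.1 = x * ((g.1 : ℤ) * f.2 - g.2 * f.1) := by ring
        rw [this]
        exact mul_ne_zero hx1 hD)
      rw [e1'] at a1
      rw [e2'] at a2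
      obtain ⟨_, h2⟩ := indep hD (a := a) (b := 1 - b * x) (by linarith) (by linarith)
      exact no_unit hx3 (x := b) (by linarith)
    · have hDk : (g.1 : ℤ) * k.2 - g.2 * k.1 ≠ 0 := by
        rw [e1, e2]
        have : (g.1 : ℤ) * (y * f.2 + x * g.2) - g.2 * (y * f.1 + x * g.1) =
          y * ((g.1 : ℤ) * f.2 - g.2 * f.1) := by ring
        rw [this]
        exact mul_ne_zero hy hD
      obtain ⟨y', x', a1, a2⟩ := hno g hgF k hk f hfF g1 g2 hDk
      rw [e1] at a1
      rw [e2] at a2
      obtain ⟨h1, _⟩ := indep hD (a := 1 - y' * y) (b := y' * x + x') (by linarith)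
        (by linarith)
      have hyy : y = 1 ∨ y = -1 := by
        have : y * y' = 1 := by linarith
        exact Int.eq_one_or_neg_one_of_mul_eq_one this
      rcases hyy with rfl | rfl
      · -- `k = f + x g`
        rcases lt_trichotomy x 0 with hx | hx | hx
        · rcases lt_trichotomy x (-1) with hx' | hx' | hx'
          · exfalso
            have f1 : 0 < f.1 := by
              have h3 : 0 < (-x) * (g.1 : ℤ) := mul_pos (by omega) z1
              have : (0 : ℤ) < f.1 := by linarith [Int.natCast_nonneg k.1]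
              exact_mod_cast this
            have f2 : 0 < f.2 := by
              have h3 : 0 < (-x) * (g.2 : ℤ) := mul_pos (by omega) z2
              have : (0 : ℤ) < f.2 := by linarith [Int.natCast_nonneg k.2]
              exact_mod_cast this
            obtain ⟨a, b, b1, b2⟩ := hno f hfF k hk g hgF f1 f2 (by
              rw [e1, e2]
              have : (f.1 : ℤ) * (1 * f.2 + x * g.2) - f.2 * (1 * f.1 + x * g.1) =
                (-x) * ((g.1 : ℤ) * f.2 - g.2 * f.1) := by ring
              rw [this]
              exact mul_ne_zero (by omega) hD)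
            rw [e1] at b1
            rw [e2] at b2
            obtain ⟨_, h3⟩ := indep hD (a := a + b) (b := 1 - a * x) (by linarith)
              (by linarith)
            exact no_unit (α := -x) (by omega) (x := -a) (by linarith)
          · subst hx'
            right; left
            refine Prod.ext ?_ ?_
            · show f.1 = g.1 + k.1
              have : (f.1 : ℤ) = g.1 + k.1 := by linarith
              exact_mod_cast this
            · show f.2 = g.2 + k.2
              have : (f.2 : ℤ) = g.2 + k.2 := by linarith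
              exact_mod_cast this
          · omega
        · subst hx
          exact absurd (Prod.ext (by omega) (by omega)) hkf
        · rcases lt_trichotomy x 1 with hx' | hx' | hx'
          · omega
          · subst hx'
            left
            refine Prod.ext ?_ ?_
            · show k.1 = g.1 + f.1
              have : (k.1 : ℤ) = g.1 + f.1 := by linarith
              exact_mod_cast this
            · show k.2 = g.2 + f.2
              have : (k.2 : ℤ) = g.2 + f.2 := by linarith
              exact_mod_cast this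
          · exfalso
            have k1 : 0 < k.1 := by
              have h3 : 0 < x * (g.1 : ℤ) := mul_pos (by omega) z1
              have : (0 : ℤ) < k.1 := by linarith [Int.natCast_nonneg f.1]
              exact_mod_cast this
            have k2 : 0 < k.2 := by
              have h3 : 0 < x * (g.2 : ℤ) := mul_pos (by omega) z2
              have : (0 : ℤ) < k.2 := by linarith [Int.natCast_nonneg f.2]
              exact_mod_cast this
            obtain ⟨a, b, b1, b2⟩ := hno k hk f hfF g hgF k1 k2 (by
              rw [e1, e2]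
              have : (1 * (f.1 : ℤ) + x * g.1) * f.2 - (1 * f.2 + x * g.2) * f.1 =
                x * ((g.1 : ℤ) * f.2 - g.2 * f.1) := by ring
              rw [this]
              exact mul_ne_zero (by omega) hD)
            rw [e1] at b1
            rw [e2] at b2
            obtain ⟨_, h3⟩ := indep hD (a := a + b) (b := 1 - b * x) (by linarith)
              (by linarith)
            exact no_unit (α := x) (by omega) (x := b) (by linarith)
      · -- `k = x g - f`
        have s1 : (k.1 : ℤ) + f.1 = x * g.1 := by linarith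
        have s2 : (k.2 : ℤ) + f.2 = x * g.2 := by linarith
        have hx : 0 < x := by
          by_contra h
          push Not at h
          have h3 : x * (g.1 : ℤ) ≤ 0 := mul_nonpos_of_nonpos_of_nonneg h z1.le
          have h4 : x * (g.2 : ℤ) ≤ 0 := mul_nonpos_of_nonpos_of_nonneg h z2.le
          rcases hne k hk with h | h <;> omega
        rcases lt_trichotomy x 1 with hx' | hx' | hx'
        · omega
        · subst hx'
          right; right
          refine Prod.ext ?_ ?_
          · show g.1 = f.1 + k.1
            have : (g.1 : ℤ) = f.1 + k.1 := by linarith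
            exact_mod_cast this
          · show g.2 = f.2 + k.2
            have : (g.2 : ℤ) = f.2 + k.2 := by linarith
            exact_mod_cast this
        · exfalso
          have hx2 : 2 ≤ x := by omega
          by_cases hf : 0 < f.1 ∧ 0 < f.2
          · obtain ⟨a, b, b1, b2⟩ := hno f hfF k hk g hgF hf.1 hf.2 (by
              rw [e1, e2]
              have : (f.1 : ℤ) * (-1 * f.2 + x * g.2) - f.2 * (-1 * f.1 + x * g.1) =
                (-x) * ((g.1 : ℤ) * f.2 - g.2 * f.1) := by ring
              rw [this]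
              exact mul_ne_zero (by omega) hD)
            rw [e1] at b1
            rw [e2] at b2
            obtain ⟨_, h3⟩ := indep hD (a := b - a) (b := 1 - a * x) (by linarith)
              (by linarith)
            exact no_unit (α := x) hx2 (x := a) (by linarith)
          by_cases hk' : 0 < k.1 ∧ 0 < k.2
          · obtain ⟨a, b, b1, b2⟩ := hno k hk f hfF g hgF hk'.1 hk'.2 (by
              rw [e1, e2]
              have : (-1 * (f.1 : ℤ) + x * g.1) * f.2 - (-1 * f.2 + x * g.2) * f.1 =
                x * ((g.1 : ℤ) * f.2 - g.2 * f.1) := by ring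
              rw [this]
              exact mul_ne_zero (by omega) hD)
            rw [e1] at b1
            rw [e2] at b2
            obtain ⟨_, h3⟩ := indep hD (a := a - b) (b := 1 - b * x) (by linarith)
              (by linarith)
            exact no_unit (α := x) hx2 (x := b) (by linarith)
          have p1 : 0 < x * (g.1 : ℤ) := by positivity
          have p2 : 0 < x * (g.2 : ℤ) := by positivity
          obtain ⟨n, rfl⟩ := Int.eq_ofNat_of_zero_le hx.le
          have s1' : k.1 + f.1 = n * g.1 := by exact_mod_cast s1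
          have s2' : k.2 + f.2 = n * g.2 := by exact_mod_cast s2
          have p1' : 0 < n * g.1 := by exact_mod_cast p1
          have p2' : 0 < n * g.2 := by exact_mod_cast p2
          have hcase : (f.2 = 0 ∧ k.1 = 0) ∨ (f.1 = 0 ∧ k.2 = 0) := by omega
          rcases hcase with ⟨c1, c2⟩ | ⟨c1, c2⟩
          · refine hnoW n (by omega) ?_ ?_
            · rwa [show (n * g.1, 0) = f from Prod.ext (by simp only; omega) c1.symm]
            · rwa [show (0, n * g.2) = k from Prod.ext c2.symm (by simp only; omega)]
          · refine hnoW n (by omega) ?_ ?_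
            · rwa [show (n * g.1, 0) = k from Prod.ext (by simp only; omega) c2.symm]
            · rwa [show (0, n * g.2) = f from Prod.ext c1.symm (by simp only; omega)]
  push Not at hPl
  obtain ⟨k, hk, k1, k2, k3⟩ := hPl g f
  rcases key k hk k1 k2 with h | h | h
  · exact k3 h
  · -- `f = g + k`
    obtain ⟨k', hk', c1, c2, c3⟩ := hPl g k
    have hf1 : f.1 = g.1 + k.1 := congrArg Prod.fst h
    have hf2 : f.2 = g.2 + k.2 := congrArg Prod.snd h
    rcases key k' hk' c1 (by rw [h]; exact c3) with h' | h' | h'
    · have e1 : (k'.1 : ℤ) = g.1 + f.1 := by exact_mod_cast congrArg Prod.fst h'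
      have e2 : (k'.2 : ℤ) = g.2 + f.2 := by exact_mod_cast congrArg Prod.snd h'
      have e3 : (k.1 : ℤ) = f.1 - g.1 := by omega
      have e4 : (k.2 : ℤ) = f.2 - g.2 := by omega
      obtain ⟨a, b, b1, b2⟩ := hno k' hk' k hk g hgF (by omega) (by omega) (by
        rw [e1, e2, e3, e4]
        have : ((g.1 : ℤ) + f.1) * (f.2 - g.2) - (g.2 + f.2) * (f.1 - g.1) =
          2 * ((g.1 : ℤ) * f.2 - g.2 * f.1) := by ring
        rw [this]
        exact mul_ne_zero (by omega) hD)
      rw [e1, e3] at b1
      rw [e2, e4] at b2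
      obtain ⟨h3, h4⟩ := indep hD (a := a + b) (b := 1 - (b - a)) (by linarith)
        (by linarith)
      omega
    · refine c2 (Prod.ext ?_ ?_)
      · have := congrArg Prod.fst h'
        simp only [Prod.fst_add] at this
        omega
      · have := congrArg Prod.snd h'
        simp only [Prod.snd_add] at this
        omega
    · have e1 := congrArg Prod.fst h'
      have e2 := congrArg Prod.snd h'
      simp only [Prod.fst_add, Prod.snd_add] at e1 e2
      rcases hne k hk with h5 | h5 <;> omega
  · -- `g = f + k`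
    obtain ⟨k', hk', c1, c2, c3⟩ := hPl f k
    have hf1 : g.1 = f.1 + k.1 := congrArg Prod.fst h
    have hf2 : g.2 = f.2 + k.2 := congrArg Prod.snd h
    rcases key k' hk' (by rw [h]; exact c3) c1 with h' | h' | h'
    · have e1 : (k'.1 : ℤ) = g.1 + f.1 := by exact_mod_cast congrArg Prod.fst h'
      have e2 : (k'.2 : ℤ) = g.2 + f.2 := by exact_mod_cast congrArg Prod.snd h'
      have e3 : (k.1 : ℤ) = g.1 - f.1 := by omega
      have e4 : (k.2 : ℤ) = g.2 - f.2 := by omega
      obtain ⟨a, b, b1, b2⟩ := hno k' hk' k hk f hfF (by omega) (by omega) (by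
        rw [e1, e2, e3, e4]
        have : ((g.1 : ℤ) + f.1) * (g.2 - f.2) - (g.2 + f.2) * (g.1 - f.1) =
          (-2) * ((g.1 : ℤ) * f.2 - g.2 * f.1) := by ring
        rw [this]
        exact mul_ne_zero (by omega) hD)
      rw [e1, e3] at b1
      rw [e2, e4] at b2
      obtain ⟨h3, h4⟩ := indep hD (a := 1 - (b - a)) (b := a + b) (by linarith)
        (by linarith)
      omega
    · have e1 := congrArg Prod.fst h'
      have e2 := congrArg Prod.snd h'
      simp only [Prod.fst_add, Prod.snd_add] at e1 e2
      rcases hne k hk with h5 | h5 <;> omega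
    · refine c2 (Prod.ext ?_ ?_)
      · have := congrArg Prod.fst h'
        simp only [Prod.fst_add] at this
        omega
      · have := congrArg Prod.snd h'
        simp only [Prod.snd_add] at this
        omega

end Pool.Agent.Helper38.Shape
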