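import Pool.Agent.Helper38.Shape.Gram

/-!
# Programs given by logarithmic space functions
-/

namespace Pool.Agent.Helper38.Shape

open Classical Relation Pool.Agent.Helper38.LinL Pool.Agent.Helper38.LinL.LinearGrammar

set_option linter.unusedSimpArgs false
set_option linter.unusedVariables false
set_option linter.unusedSectionVars false

/-- Marks of columns in terms of natural numbers. -/
def NX (α a kd : ℕ) (φ : Fl) (x c : ℕ) : Prop :=
  (x = c ∧ Fs kd φ) ∨ (kd = 6 ∧ ((φ = Fl.jr ∧ x = c) ∨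
    (φ = Fl.k1 ∧ (x = c ∨ x + a = c + α * a)) ∨ (φ = Fl.k2 ∧ (x = c + α * a ∨ x + a = c))))

/-- Marks of rows in terms of natural numbers. -/
def NY (α b kd : ℕ) (φ : Fl) (y c : ℕ) : Prop :=
  (y = c ∧ Fs kd φ) ∨ (kd = 6 ∧ ((φ = Fl.jt ∧ y + b = c) ∨
    (φ = Fl.k1 ∧ (y = c ∨ y + b = c)) ∨ (φ = Fl.k2 ∧ (y + α * b = c ∨ y + b = c + α * b))))

theorem NX_iff {α a kd : ℕ} {φ : Fl} {x c : ℕ} :
    FX (α : ℤ) (a : ℤ) kd φ ((x : ℤ) - c) ↔ NX α a kd φ x c := by
  unfold FX NX
  have e1 : ((x : ℤ) - c = 0) ↔ x = c := by omega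
  have e2 : ((x : ℤ) - c = (α - 1) * a) ↔ x + a = c + α * a := by
    constructor
    · intro h
      have : (x : ℤ) + a = c + α * a := by linarith
      exact_mod_cast this
    · intro h
      have : (x : ℤ) + a = c + α * a := by exact_mod_cast h
      linarith
  have e3 : ((x : ℤ) - c = α * a) ↔ x = c + α * a := by
    constructor
    · intro h
      have : (x : ℤ) = c + α * a := by linarith
      exact_mod_cast this
    · intro h
      have : (x : ℤ) = c + α * a := by exact_mod_cast h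
      linarith
  have e4 : ((x : ℤ) - c = -a) ↔ x + a = c := by omega
  rw [e1, e2, e3, e4]

theorem NY_iff {α a kd : ℕ} {φ : Fl} {x c : ℕ} :
    FY (α : ℤ) (a : ℤ) kd φ ((x : ℤ) - c) ↔ NY α a kd φ x c := by
  unfold FY NY
  have e1 : ((x : ℤ) - c = 0) ↔ x = c := by omega
  have e2 : ((x : ℤ) - c = (α - 1) * a) ↔ x + a = c + α * a := by
    constructor
    · intro h
      have : (x : ℤ) + a = c + α * a := by linarith
      exact_mod_cast this
    · intro h
      have : (x : ℤ) + a = c + α * a := by exact_mod_cast h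
      linarith
  have e3 : ((x : ℤ) - c = -(α * a)) ↔ x + α * a = c := by
    constructor
    · intro h
      have : (x : ℤ) + α * a = c := by linarith
      exact_mod_cast this
    · intro h
      have : (x : ℤ) + α * a = c := by exact_mod_cast h
      linarith
  have e4 : ((x : ℤ) - c = -a) ↔ x + a = c := by omega
  rw [e1, e2, e3, e4]

theorem Prog.AX_iff {P : Prog} {φ : Fl} {x : ℕ} : P.AX φ x ↔
    ∃ k < P.K, NX P.α P.g.1 (P.ev k).kd φ x (P.ctr k).1 := by
  unfold Prog.AX Sys.X
  refine exists_congr fun k => and_congr Iff.rfl ?_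
  exact NX_iff

theorem Prog.AY_iff {P : Prog} {φ : Fl} {x : ℕ} : P.AY φ x ↔
    ∃ k < P.K, NY P.α P.g.2 (P.ev k).kd φ x (P.ctr k).2 := by
  unfold Prog.AY Sys.Y
  refine exists_congr fun k => and_congr Iff.rfl ?_
  exact NY_iff

section FP

variable {σ : Type} {Y : Type} [Cod Y]

theorem FP.fs {kd : List σ → Y → ℕ} (h : Fn kd) (φ : Fl) : FP fun w y => Fs (kd w y) φ := by
  have e : ∀ m, FP fun w y => kd w y = m := fun m => FP.eq h (Fn.const m)
  cases φ with
  | jr => exact (e 2).or (e 3)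
  | jt => exact (e 4).or (e 5)
  | k1 => exact (e 1).or ((e 3).or (e 5))
  | k2 => exact FP.false

theorem FP.nx (α a : ℕ) {kd x c : List σ → Y → ℕ} (hk : Fn kd) (hx : Fn x) (hc : Fn c)
    (φ : Fl) : FP fun w y => NX α a (kd w y) φ (x w y) (c w y) := by
  have e := FP.eq hx hc
  have k := fun m : ℕ => Fn.const (α := σ) (X := Y) m
  exact (e.and (FP.fs hk φ)).or ((FP.eq hk (k 6)).and
    (((FP.constP _).and e).or (((FP.constP _).and (e.or (FP.eq (hx.add (k a))
      (hc.add (k (α * a)))))).or ((FP.constP _).and ((FP.eq hx (hc.add (k (α * a)))).or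
      (FP.eq (hx.add (k a)) hc))))))

theorem FP.ny (α a : ℕ) {kd x c : List σ → Y → ℕ} (hk : Fn kd) (hx : Fn x) (hc : Fn c)
    (φ : Fl) : FP fun w y => NY α a (kd w y) φ (x w y) (c w y) := by
  have e := FP.eq hx hc
  have k := fun m : ℕ => Fn.const (α := σ) (X := Y) m
  exact (e.and (FP.fs hk φ)).or ((FP.eq hk (k 6)).and
    (((FP.constP _).and (FP.eq (hx.add (k a)) hc)).or (((FP.constP _).and (e.or (FP.eq
      (hx.add (k a)) hc))).or ((FP.constP _).and ((FP.eq (hx.add (k (α * a))) hc).or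
      (FP.eq (hx.add (k a)) (hc.add (k (α * a)))))))))

theorem Fn.dnF (g r t : ℕ × ℕ) (α : ℕ) {n0 : List σ → Y → ℕ} (h : Fn n0) :
    Fn fun w y => dn g r t α (n0 w y) := by
  unfold dn qn
  have k := fun m : ℕ => Fn.const (α := σ) (X := Y) m
  exact (((k 2).mul ((((((k 3).mul h).add (k 4)).mul (k _)).add (k _)).add (k 1))).add
    (k _)).add (k 1)

theorem Fn.tmF (g r t : ℕ × ℕ) (α : ℕ) {n0 k : List σ → Y → ℕ} (h : Fn n0) (hk : Fn k) :
    Fn fun w y => tm g r t α (n0 w y) (k w y) := by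
  unfold tm
  exact hk.succ.mul (Fn.dnF g r t α h)

theorem Fn.pos1 (g r t : ℕ × ℕ) {x y T : List σ → Y → ℕ} (hx : Fn x) (hy : Fn y) (hT : Fn T) :
    Fn fun w z => (pos g r t (x w z) (y w z) (T w z)).1 := by
  unfold pos
  exact ((hx.mul (Fn.const _)).add (hy.mul (Fn.const _))).add (hT.mul (Fn.const _))

theorem Fn.pos2 (g r t : ℕ × ℕ) {x y T : List σ → Y → ℕ} (hx : Fn x) (hy : Fn y) (hT : Fn T) :
    Fn fun w z => (pos g r t (x w z) (y w z) (T w z)).2 := by
  unfold pos
  exact ((hx.mul (Fn.const _)).add (hy.mul (Fn.const _))).add (hT.mul (Fn.const _))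

theorem FP.iff_const {P : List σ → Y → Prop} (h : FP P) (q : Prop) :
    FP fun w y => (P w y ↔ q) := by
  by_cases hq : q
  · exact h.congr fun w y => by simp [hq]
  · exact h.not.congr fun w y => by simp [hq]

/-- Reachability in the walk of a program. -/
theorem FP.reach {g r t : ℕ × ℕ} {a : ℕ} (h : InL (GG g r t).language)
    (P : List σ → Y → Prog)
    (hP : ∀ w y, (P w y).g = g ∧ (P w y).r = r ∧ (P w y).t = t ∧ (P w y).α = a)
    (hK : Fn fun w y => (P w y).K) (hn : Fn fun w y => (P w y).n0)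
    (hx : Fn fun w (z : Y × ℕ) => ((P w z.1).ev z.2).x)
    (hy : Fn fun w (z : Y × ℕ) => ((P w z.1).ev z.2).y)
    (hk : Fn fun w (z : Y × ℕ) => ((P w z.1).ev z.2).kd)
    {xf yf : List σ → Y → ℕ} (hxf : Fn xf) (hyf : Fn yf) :
    FP fun w y => ReflTransGen (P w y).sys.Step (0, 0)
      (cv ((P w y).fin (xf w y) (yf w y))) := by
  have hfin : ∀ w y, (P w y).fin (xf w y) (yf w y) =
      pos g r t (xf w y) (yf w y) (tm g r t a (P w y).n0 (P w y).K) := by
    intro w y
    obtain ⟨h1, h2, h3, h4⟩ := hP w y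
    unfold Prog.fin
    rw [h1, h2, h3, h4]
  have hctr : ∀ w y k, (P w y).ctr k =
      pos g r t ((P w y).ev k).x ((P w y).ev k).y (tm g r t a (P w y).n0 k) := by
    intro w y k
    obtain ⟨h1, h2, h3, h4⟩ := hP w y
    unfold Prog.ctr
    rw [h1, h2, h3, h4]
  refine FP.congr (P := fun w y => (P w y).word ((P w y).fin (xf w y) (yf w y)) ∈
    (GG g r t).language) ?_ fun w y => ?_
  swap
  · obtain ⟨h1, h2, h3, h4⟩ := hP w y
    rw [← Prog.word_mem, h1, h2, h3]
    have := (P w y).g1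
    have h5 : 0 < dn (P w y).g (P w y).r (P w y).t (P w y).α (P w y).n0 := by
      unfold dn
      omega
    simp only [Prog.fin, pos, tm]
    positivity
  · have hT : Fn fun w y => tm g r t a (P w y).n0 (P w y).K := Fn.tmF g r t a hn hK
    have hz1 : Fn fun w y => ((P w y).fin (xf w y) (yf w y)).1 := by
      simp only [hfin]
      exact Fn.pos1 g r t hxf hyf hT
    have hz2 : Fn fun w y => ((P w y).fin (xf w y) (yf w y)).2 := by
      simp only [hfin]
      exact Fn.pos2 g r t hxf hyf hT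
    have hAX : ∀ φ, FP fun w (z : Y × ℕ) => (P w z.1).AX φ z.2 := by
      intro φ
      refine FP.congr (P := fun w (z : Y × ℕ) => ∃ k < (P w z.1).K,
        NX a g.1 ((P w z.1).ev k).kd φ z.2
          (pos g r t ((P w z.1).ev k).x ((P w z.1).ev k).y (tm g r t a (P w z.1).n0 k)).1) ?_ ?_
      · refine FP.bex (b := fun w (z : Y × ℕ) => (P w z.1).K) (hK.comp Fn.id.fst)
          (P := fun w (u : (Y × ℕ) × ℕ) => NX a g.1 ((P w u.1.1).ev u.2).kd φ u.1.2
          (pos g r t ((P w u.1.1).ev u.2).x ((P w u.1.1).ev u.2).y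
            (tm g r t a (P w u.1.1).n0 u.2)).1) ?_
        have e : Fn fun (w : List σ) (u : (Y × ℕ) × ℕ) => (u.1.1, u.2) :=
          Fn.id.fst.fst.pair Fn.id.snd
        exact FP.nx a g.1 (hk.comp e) Fn.id.fst.snd (Fn.pos1 g r t (hx.comp e) (hy.comp e)
          (Fn.tmF g r t a (hn.comp Fn.id.fst.fst) Fn.id.snd)) φ
      · intro w z
        obtain ⟨h1, h2, h3, h4⟩ := hP w z.1
        rw [Prog.AX_iff, h4, h1]
        simp only [hctr]
    have hAY : ∀ φ, FP fun w (z : Y × ℕ) => (P w z.1).AY φ z.2 := by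
      intro φ
      refine FP.congr (P := fun w (z : Y × ℕ) => ∃ k < (P w z.1).K,
        NY a g.2 ((P w z.1).ev k).kd φ z.2
          (pos g r t ((P w z.1).ev k).x ((P w z.1).ev k).y (tm g r t a (P w z.1).n0 k)).2) ?_ ?_
      · refine FP.bex (b := fun w (z : Y × ℕ) => (P w z.1).K) (hK.comp Fn.id.fst)
          (P := fun w (u : (Y × ℕ) × ℕ) => NY a g.2 ((P w u.1.1).ev u.2).kd φ u.1.2
          (pos g r t ((P w u.1.1).ev u.2).x ((P w u.1.1).ev u.2).y
            (tm g r t a (P w u.1.1).n0 u.2)).2) ?_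
        have e : Fn fun (w : List σ) (u : (Y × ℕ) × ℕ) => (u.1.1, u.2) :=
          Fn.id.fst.fst.pair Fn.id.snd
        exact FP.ny a g.2 (hk.comp e) Fn.id.fst.snd (Fn.pos2 g r t (hx.comp e) (hy.comp e)
          (Fn.tmF g r t a (hn.comp Fn.id.fst.fst) Fn.id.snd)) φ
      · intro w z
        obtain ⟨h1, h2, h3, h4⟩ := hP w z.1
        rw [Prog.AY_iff, h4, h1]
        simp only [hctr]
    refine FP.inL_comp h (V := fun w y => (P w y).word ((P w y).fin (xf w y) (yf w y))) ?_ ?_
    · simp only [Prog.word, wd_length]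
      exact hz1.add hz2
    · intro β
      have hm : Fn fun (w : List σ) (z : Y × ℕ) => z.2 := Fn.id.snd
      have i1 : Fn fun w (z : Y × ℕ) => ((P w z.1).fin (xf w z.1) (yf w z.1)).1 :=
        hz1.comp Fn.id.fst
      have i2 : Fn fun w (z : Y × ℕ) => ((P w z.1).fin (xf w z.1) (yf w z.1)).2 :=
        hz2.comp Fn.id.fst
      have hside := FP.lt hm i1
      have hB : ∀ φ, FP fun w (z : Y × ℕ) => (P w z.1).AY φ
          (((P w z.1).fin (xf w z.1) (yf w z.1)).1 + ((P w z.1).fin (xf w z.1) (yf w z.1)).2 -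
            1 - z.2) := fun φ => (hAY φ).comp (g := fun w (z : Y × ℕ) => (z.1,
          (((P w z.1).fin (xf w z.1) (yf w z.1)).1 + ((P w z.1).fin (xf w z.1) (yf w z.1)).2 -
            1 - z.2))) (Fn.id.fst.pair (((i1.add i2).sub (Fn.const 1)).sub hm))
      refine ((FP.lt hm (i1.add i2)).and ((hside.and ((FP.constP (β.1 = true)).and
        (FP.allFin (β := Fl) fun φ => FP.iff_const (hAX φ) (β.2 φ = true)))).or
        (hside.not.and ((FP.constP (β.1 = false)).and (FP.allFin (β := Fl) fun φ =>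
          FP.iff_const (hB φ) (β.2 φ = true)))))).congr fun w z => ?_
      simp only [Prog.word, wd_get]
      obtain ⟨s, f⟩ := β
      split_ifs with h1 h2
      · simp only [Option.some.injEq, Prod.mk.injEq, h1, true_and, h2, not_true, false_and,
          or_false]
        constructor
        · rintro ⟨rfl, rfl⟩
          exact ⟨rfl, fun φ => by simp⟩
        · rintro ⟨h3, h4⟩
          refine ⟨h3.symm, funext fun φ => ?_⟩
          have := h4 φ
          by_cases hA : (P w z.1).AX φ z.2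
          · simp [hA, this.1 hA]
          · have h5 : f φ ≠ true := fun h => hA (this.2 h)
            simp [hA, h5]
      · simp only [Option.some.injEq, Prod.mk.injEq, h1, true_and, h2, not_false_iff, false_and,
          false_or]
        constructor
        · rintro ⟨rfl, rfl⟩
          exact ⟨rfl, fun φ => by simp⟩
        · rintro ⟨h3, h4⟩
          refine ⟨h3.symm, funext fun φ => ?_⟩
          have := h4 φ
          by_cases hA : (P w z.1).AY φ
            (((P w z.1).fin (xf w z.1) (yf w z.1)).1 + ((P w z.1).fin (xf w z.1) (yf w z.1)).2 -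
            1 - z.2)
          · simp [hA, this.1 hA]
          · have h5 : f φ ≠ true := fun h => hA (this.2 h)
            simp [hA, h5]
      · simp [h1]

end FP

end Pool.Agent.Helper38.Shape
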