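import Pool.Agent.Helper38.LinL.Grammar

/-!
# Grammars with one nonterminal and given shapes
-/

namespace Pool.Agent.Helper38.Shape

open Pool.Agent.Helper38.LinL

/-- The grammar has a single nonterminal `S`, and each of its rules `S → u S v` has a shape
`(|u|, |v|)` in the set `F`. (There is no condition on the rules `S → u`.) -/
def OneShape (F : Set (ℕ × ℕ)) {α : Type} (G : LinearGrammar α) : Prop :=
  (∀ A B : G.N, A = B) ∧ ∀ A u B v, (A, u, B, v) ∈ G.rules → (u.length, v.length) ∈ F

/-- All elements of `F` are on one line through the origin, or all elements of `F` are on the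
coordinate axes. -/
def Degenerate (F : Set (ℕ × ℕ)) : Prop :=
  (∀ p ∈ F, ∀ q ∈ F, p.1 * q.2 = p.2 * q.1) ∨ ∀ p ∈ F, p.1 = 0 ∨ p.2 = 0

/-- The set `F` is contained in a set of the form `{s, t, s + t}`. -/
def PlanarSet (F : Set (ℕ × ℕ)) : Prop :=
  ∃ s t : ℕ × ℕ, ∀ p ∈ F, p = s ∨ p = t ∨ p = s + t

end Pool.Agent.Helper38.Shape
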