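import Pool.Agent.Helper38.Shape.Walk

/-!
# Events
-/

namespace Pool.Agent.Helper38.Shape

open Relation

set_option linter.unusedSimpArgs false
set_option linter.unusedVariables false
set_option linter.unusedSectionVars false

namespace Sys

variable {M : Sys}

/-- The positions `p` and `q` differ by a multiple of `g`. -/
def Cg (M : Sys) (p q : V2) : Prop := ∃ n : ℤ, q = M.adv p n

theorem Cg.refl (p : V2) : M.Cg p p := ⟨0, (adv_zero p).symm⟩

theorem Cg.symm {p q : V2} (h : M.Cg p q) : M.Cg q p := by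
  obtain ⟨n, rfl⟩ := h
  exact ⟨-n, by rw [adv_adv]; simp [adv_zero]⟩

theorem Cg.trans {p q s : V2} (h : M.Cg p q) (h' : M.Cg q s) : M.Cg p s := by
  obtain ⟨n, rfl⟩ := h
  obtain ⟨m, rfl⟩ := h'
  exact ⟨n + m, adv_adv _ _ _⟩

theorem cg_adv (p : V2) (n : ℤ) : M.Cg p (M.adv p n) := ⟨n, rfl⟩

theorem adv_add (p q : V2) (n : ℤ) : M.adv p n + q = M.adv (p + q) n := by
  simp only [adv, Prod.ext_iff, Prod.fst_add, Prod.snd_add]; constructor <;> ring

theorem Cg.add {p q : V2} (h : M.Cg p q) (s : V2) : M.Cg (p + s) (q + s) := by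
  obtain ⟨n, rfl⟩ := h
  exact ⟨n, adv_add _ _ _⟩

theorem Cg.kk {p q : V2} (h : M.Cg p q) : M.kk q = M.kk p := by
  obtain ⟨n, rfl⟩ := h
  exact kk_adv _ _

theorem add_g (p : V2) : p + M.g = M.adv p 1 := by
  simp [adv, Prod.ext_iff]

/-- A set closed under adding multiples of `g`. -/
def Inv (M : Sys) (S : Set V2) : Prop := ∀ p q, M.Cg p q → p ∈ S → q ∈ S

/-- The event `k` transforms `S` to `S'`. -/
def EvOK (M : Sys) (k : ℕ) (S S' : Set V2) : Prop :=
  ∃ A : Set V2, (∀ p ∈ S, M.hh p ≤ (k + 1) * M.Γ - M.Q → p ∈ A) ∧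
    (∀ p ∈ A, ∀ p', M.LStep k p p' → p' ∈ A) ∧
    (∀ p ∈ A, (k + 1) * M.Γ + M.Q < M.hh p → p ∈ S') ∧ (∀ p ∈ A, |M.kk p| ≤ M.W)

theorem sound' (S : ℕ → Set V2) (h0 : (0, 0) ∈ S 0) (hE : ∀ k < M.K, M.EvOK k (S k) (S (k + 1)))
    (hI : M.Inv (S M.K)) (hb : ∀ p ∈ S M.K, |M.kk p| ≤ M.W)
    {p : V2} (hp : ReflTransGen M.Step (0, 0) p) (hK : (M.K : ℤ) * M.Γ + M.Q < M.hh p) :
    p ∈ S M.K := by
  classical
  have h : ∀ k, ∃ A : Set V2, k < M.K → ((∀ p ∈ S k, M.hh p ≤ (k + 1) * M.Γ - M.Q → p ∈ A) ∧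
    (∀ p ∈ A, ∀ p', M.LStep k p p' → p' ∈ A) ∧
    (∀ p ∈ A, (k + 1) * M.Γ + M.Q < M.hh p → p ∈ S (k + 1)) ∧ (∀ p ∈ A, |M.kk p| ≤ M.W)) := by
    intro k
    by_cases hk : k < M.K
    · obtain ⟨A, hA⟩ := hE k hk
      exact ⟨A, fun _ => hA⟩
    · exact ⟨∅, fun h => absurd h hk⟩
  choose A hA using h
  refine sound S A h0 (fun k hk => (hA k hk).1) (fun k hk => (hA k hk).2.1)
    (fun k hk => (hA k hk).2.2.1) (fun k hk => (hA k hk).2.2.2) (fun p hp => ⟨hb p hp, ?_⟩) hp hK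
  exact hI p _ ⟨1, add_g p⟩ hp

theorem height_le_iff (p : V2) (n m : ℤ) : M.hh (M.adv p n) ≤ M.hh (M.adv p m) ↔ n ≤ m := by
  rw [hh_adv, hh_adv]
  have := hh_g_pos (M := M)
  constructor
  · intro h
    by_contra h'
    push Not at h'
    nlinarith
  · intro h
    nlinarith

section simple

variable {k : ℕ} (hk : k < M.K) {F : Fl → Prop}
  (hX : ∀ φ δ, M.PX k φ δ ↔ δ = 0 ∧ F φ) (hY : ∀ φ δ, M.PY k φ δ ↔ δ = 0 ∧ F φ)
  (h2 : ¬ F Fl.k2) (h12 : ¬ (F Fl.jr ∧ F Fl.jt))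

include hk hX hY h2 h12

/-- Effect of a simple event. -/
theorem evOK_simple {S S' : Set V2} (hI : M.Inv S)
    (hb : ∀ p ∈ S, |M.kk p| ≤ M.W) (hbr : F Fl.jr → ∀ p ∈ S, |M.kk (p + M.r)| ≤ M.W)
    (hbt : F Fl.jt → ∀ p ∈ S, |M.kk (p + M.t)| ≤ M.W)
    (h1 : ∀ p ∈ S, ¬ (F Fl.k1 ∧ M.Cg (M.c k) p) → p ∈ S')
    (hr : F Fl.jr → ∀ p ∈ S, p + M.r ∈ S') (ht : F Fl.jt → ∀ p ∈ S, p + M.t ∈ S') :
    M.EvOK k S S' := by
  obtain ⟨hc1, hc2⟩ := M.hc k hk
  change _ < M.hh (M.c k) at hc1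
  change M.hh (M.c k) ≤ _ at hc2
  have hg1 := M.g1
  have hg2 := M.g2
  have hr1 := M.r1
  have hr2 := M.r2
  have ht1 := M.t1
  have ht2 := M.t2
  refine ⟨{p | (p ∈ S ∧ (F Fl.k1 → M.Cg (M.c k) p → M.hh p ≤ M.hh (M.c k))) ∨
    (∃ s ∈ S, F Fl.jr ∧ p = s + M.r ∧ (M.r.1 ≠ 0 → (M.c k).1 < p.1) ∧
      (M.r.1 = 0 → (M.c k).2 < p.2)) ∨
    (∃ s ∈ S, F Fl.jt ∧ p = s + M.t ∧ (M.t.1 ≠ 0 → (M.c k).1 < p.1) ∧
      (M.t.1 = 0 → (M.c k).2 < p.2))}, ?_, ?_, ?_, ?_⟩
  · intro p hp h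
    exact Or.inl ⟨hp, fun _ _ => by linarith⟩
  · rintro p hp p' ⟨q, hq, rfl⟩
    simp only [En, hX, hY] at hq
    rcases hq with ⟨rfl, hq1, hq2⟩ | ⟨rfl, hq1, hq2⟩ | ⟨rfl, hq1, hq2⟩
    · -- default step
      rcases hp with ⟨hp, hp'⟩ | ⟨s, hs, hF, rfl, h3, h4⟩ | ⟨s, hs, hF, rfl, h3, h4⟩
      · left
        refine ⟨hI _ _ ⟨1, add_g p⟩ hp, fun hk1 hcg => ?_⟩
        have hcg' : M.Cg (M.c k) p := hcg.trans (Cg.symm ⟨1, add_g p⟩)
        obtain ⟨n, rfl⟩ := hcg'
        have h5 := hp' hk1 ⟨n, rfl⟩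
        have h6 : n ≤ 0 := by
          have := (height_le_iff (M := M) (M.c k) n 0).1 (by rwa [adv_zero])
          exact this
        have h7 : n ≠ 0 := by
          rintro rfl
          apply hq1
          simp [adv, hk1]
        rw [add_g, adv_adv]
        have := (height_le_iff (M := M) (M.c k) (n + 1) 0).2 (by omega)
        rwa [adv_zero] at this
      · right; left
        refine ⟨s + M.g, hI _ _ ⟨1, add_g s⟩ hs, hF, by abel, fun h => ?_, fun h => ?_⟩
        · have := h3 h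
          simp only [Prod.fst_add] at this ⊢; linarith
        · have := h4 h
          simp only [Prod.snd_add] at this ⊢; linarith
      · right; right
        refine ⟨s + M.g, hI _ _ ⟨1, add_g s⟩ hs, hF, by abel, fun h => ?_, fun h => ?_⟩
        · have := h3 h
          simp only [Prod.fst_add] at this ⊢; linarith
        · have := h4 h
          simp only [Prod.snd_add] at this ⊢; linarith
    · -- jump `r`
      have hF : F Fl.jr := by
        rcases M.r0 with h | h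
        · exact (hq1 h).2
        · exact (hq2 h).2
      rcases hp with ⟨hp, hp'⟩ | ⟨s, hs, _, rfl, h3, h4⟩ | ⟨s, hs, hF', _, _⟩
      · right; left
        refine ⟨p, hp, hF, rfl, fun h => ?_, fun h => ?_⟩
        · have h5 := (hq1 h).1
          simp only [Prod.fst_add]
          have : 0 < M.r.1 := lt_of_le_of_ne hr1 (Ne.symm h)
          linarith
        · have h6 : M.r.2 ≠ 0 := by
            rcases M.r0 with h' | h'
            · exact absurd h h'
            · exact h'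
          have h5 := (hq2 h6).1
          simp only [Prod.snd_add]
          have : 0 < M.r.2 := lt_of_le_of_ne hr2 (Ne.symm h6)
          linarith
      · exfalso
        by_cases h : M.r.1 = 0
        · have h6 : M.r.2 ≠ 0 := by
            rcases M.r0 with h' | h'
            · exact absurd h h'
            · exact h'
          have h5 := (hq2 h6).1
          have := h4 h
          linarith
        · have h5 := (hq1 h).1
          have := h3 h
          linarith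
      · exact absurd ⟨hF, hF'⟩ h12
    · -- jump `t`
      have hF : F Fl.jt := by
        rcases M.t0 with h | h
        · exact (hq1 h).2
        · exact (hq2 h).2
      rcases hp with ⟨hp, hp'⟩ | ⟨s, hs, hF', _, _⟩ | ⟨s, hs, _, rfl, h3, h4⟩
      · right; right
        refine ⟨p, hp, hF, rfl, fun h => ?_, fun h => ?_⟩
        · have h5 := (hq1 h).1
          simp only [Prod.fst_add]
          have : 0 < M.t.1 := lt_of_le_of_ne ht1 (Ne.symm h)
          linarith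
        · have h6 : M.t.2 ≠ 0 := by
            rcases M.t0 with h' | h'
            · exact absurd h h'
            · exact h'
          have h5 := (hq2 h6).1
          simp only [Prod.snd_add]
          have : 0 < M.t.2 := lt_of_le_of_ne ht2 (Ne.symm h6)
          linarith
      · exact absurd ⟨hF', hF⟩ h12
      · exfalso
        by_cases h : M.t.1 = 0
        · have h6 : M.t.2 ≠ 0 := by
            rcases M.t0 with h' | h'
            · exact absurd h h'
            · exact h'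
          have h5 := (hq2 h6).1
          have := h4 h
          linarith
        · have h5 := (hq1 h).1
          have := h3 h
          linarith
  · rintro p (⟨hp, hp'⟩ | ⟨s, hs, hF, rfl, _⟩ | ⟨s, hs, hF, rfl, _⟩) hh
    · refine h1 p hp fun h => ?_
      have := hp' h.1 h.2
      linarith
    · exact hr hF s hs
    · exact ht hF s hs
  · rintro p (⟨hp, _⟩ | ⟨s, hs, hF, rfl, _⟩ | ⟨s, hs, hF, rfl, _⟩)
    · exact hb p hp
    · exact hbr hF s hs
    · exact hbt hF s hs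

theorem kl_simple {p : V2} : M.Kl k p ↔ p = M.c k ∧ F Fl.k1 := by
  unfold Kl
  simp only [hX, hY]
  constructor
  · rintro (⟨⟨h3, h4⟩, h5, _⟩ | ⟨⟨_, h4⟩, _⟩)
    · exact ⟨Prod.ext (by linarith) (by linarith), h4⟩
    · exact absurd h4 h2
  · rintro ⟨rfl, h⟩
    left
    simp [h]

theorem simple_pass {p : V2} (hp : M.At k p) (hn : ¬ (F Fl.k1 ∧ M.Cg p (M.c k))) :
    ∃ n : ℕ, M.At (k + 1) (M.adv p n) := by
  obtain ⟨h3, h4, h5, h6⟩ := hp
  refine pass hk h3 h4 h5 ?_ fun i hi => ?_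
  · have := M.Q0
    have := st_pos (M := M)
    linarith
  · rw [kl_simple hk hX hY h2 h12] at hi
    exact hn ⟨hi.2, i, hi.1.symm⟩

theorem simple_jump {p : V2} (hp : M.At k p) (hc : M.Cg p (M.c k)) {j : V2}
    (hj : (F Fl.jr ∧ j = M.r) ∨ (F Fl.jt ∧ j = M.t)) (hb : |M.kk (M.c k + j)| ≤ M.W) :
    ∃ n : ℕ, M.At (k + 1) (M.adv (M.c k + j) n) := by
  obtain ⟨h3, h4, h5, h6⟩ := hp
  obtain ⟨hc1, hc2⟩ := M.hc k hk
  change _ < M.hh (M.c k) at hc1
  change M.hh (M.c k) ≤ _ at hc2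
  have hQ0 := M.Q0
  have hst := st_pos (M := M)
  have hgap := M.gap
  have hgp := hh_g_pos (M := M)
  obtain ⟨n, hn⟩ := hc
  have hn0 : 0 ≤ n := by
    have h7 : M.hh (M.adv p 0) ≤ M.hh (M.adv p n) := by rw [adv_zero, ← hn]; linarith
    exact (height_le_iff _ _ _).1 h7
  obtain ⟨n, rfl⟩ := Int.eq_ofNat_of_zero_le hn0
  have hck : ReflTransGen M.Step (0, 0) (M.c k) := by
    rw [hn]
    refine walk hk h3 h4 h5 n fun i hi => ?_
    have h7 : M.hh (M.adv p i) ≤ M.hh (M.c k) := by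
      rw [hn]
      exact (height_le_iff _ _ _).2 (by exact_mod_cast hi.le)
    refine ⟨fun hK => ?_, by linarith⟩
    rw [kl_simple hk hX hY h2 h12, hn] at hK
    have h8 := (height_le_iff (M := M) p n i).1 (by rw [hK.1])
    have : n ≤ i := by exact_mod_cast h8
    omega
  have hbc : |M.kk (M.c k)| ≤ M.W := by
    rw [hn, kk_adv]; exact h4
  have hlow : k = 0 ∨ (k : ℤ) * M.Γ + M.Q < M.hh (M.c k) := by
    rcases h5 with h5 | h5
    · exact Or.inl h5
    · right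
      rw [succΓ'] at hc1
      linarith
  have hjpos : 0 ≤ M.hh j ∧ M.hh j ≤ M.st := by
    rcases hj with ⟨_, rfl⟩ | ⟨_, rfl⟩
    · exact ⟨hh_r_nonneg, M.sr⟩
    · exact ⟨hh_t_nonneg, M.stt⟩
  have hjne : 0 ≤ j.1 ∧ 0 ≤ j.2 ∧ (j.1 ≠ 0 ∨ j.2 ≠ 0) := by
    rcases hj with ⟨_, rfl⟩ | ⟨_, rfl⟩
    · exact ⟨M.r1, M.r2, M.r0⟩
    · exact ⟨M.t1, M.t2, M.t0⟩
  have hjump : ReflTransGen M.Step (0, 0) (M.c k + j) := by
    refine hck.tail ?_
    rw [step_iff hk hbc hlow (by linarith)]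
    refine ⟨j, ?_, rfl⟩
    rcases hj with ⟨hF, rfl⟩ | ⟨hF, rfl⟩
    · right; left
      simp [hX, hY, hF]
    · right; right
      simp [hX, hY, hF]
  refine pass hk hjump hb ?_ ?_ fun i hi => ?_
  · rw [hh_add]
    exact hlow.imp_right fun h => by linarith [hjpos.1]
  · rw [hh_add]
    linarith [hjpos.2]
  · rw [kl_simple hk hX hY h2 h12] at hi
    obtain ⟨hi, _⟩ := hi
    have hg1 := M.g1
    have hg2 := M.g2
    have e1 := congrArg Prod.fst hi
    have e2 := congrArg Prod.snd hi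
    simp only [adv, Prod.fst_add, Prod.snd_add] at e1 e2
    have p1 : 0 ≤ (i : ℤ) * M.g.1 := by positivity
    have p2 : 0 ≤ (i : ℤ) * M.g.2 := by positivity
    rcases hjne.2.2 with h | h
    · have : 0 < j.1 := lt_of_le_of_ne hjne.1 (Ne.symm h)
      linarith
    · have : 0 < j.2 := lt_of_le_of_ne hjne.2.1 (Ne.symm h)
      linarith

end simple

end Sys

end Pool.Agent.Helper38.Shape
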