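import Pool.Agent.Helper38.Shape.TypeI

/-!
# Two steps
-/

namespace Pool.Agent.Helper38.Shape

open Relation Classical

set_option linter.unusedSimpArgs false
set_option linter.unusedVariables false
set_option linter.unusedSectionVars false

/-- A default step `g` and a step `r` independent of `g`. -/
structure PL where
  g : ℕ × ℕ
  r : ℕ × ℕ
  g1 : 0 < g.1
  g2 : 0 < g.2
  det : (g.1 : ℤ) * r.2 - g.2 * r.1 ≠ 0

namespace PL

variable (H : PL) (I : Ins)

/-- The events. -/
noncomputable def ev (e s i : ℕ) : Ev :=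
  if s = 2 then (if i = 0 ∧ I.kl e then ⟨2 * I.U e, 0, 1⟩ else ⟨0, 0, 0⟩)
  else if ¬ I.on e then ⟨0, 0, 0⟩
  else if i = 0 then (if s = 0 then ⟨2 * I.U e, 0, 2⟩ else ⟨2 * I.U e + 1, 0, 3⟩)
  else (if s = 0 ∧ i - 1 = I.U e then ⟨0, 0, 0⟩ else ⟨2 * (i - 1) + 1, 0, 1⟩)

/-- The program. -/
noncomputable def prog (hkl : ∀ e < I.E, I.kl e → I.U e < I.n) : Prog where
  g := H.g
  r := H.r
  t := H.r
  α := 0
  n0 := 2 * I.n + 2
  K := I.E * 3 * (I.n + 1)
  ev := Prog.seq3 3 (I.n + 1) (ev I)
  g1 := H.g1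
  g2 := H.g2
  r0 := by
    have := H.det
    by_contra h
    push Not at h
    apply this
    rw [h.1, h.2]
    simp
  t0 := by
    have := H.det
    by_contra h
    push Not at h
    apply this
    rw [h.1, h.2]
    simp
  hev := by
    intro k hk
    unfold Prog.seq3
    have h2 : k % (I.n + 1) < I.n + 1 := Nat.mod_lt _ (by omega)
    have he' : k / (I.n + 1) / 3 < I.E := by
      rw [Nat.div_lt_iff_lt_mul (by omega), Nat.div_lt_iff_lt_mul (by omega)]
      exact hk
    generalize k / (I.n + 1) / 3 = e at he' ⊢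
    generalize k / (I.n + 1) % 3 = s
    generalize k % (I.n + 1) = i at h2 ⊢
    unfold ev
    split_ifs with h3 h4 h5 h6 h7 h8
    · have := hkl e he' h4.2
      simp only
      omega
    all_goals first
      | (simp only; omega)
      | (have := I.hUV e he' h5
         simp only
         omega)

variable {H I} {hkl : ∀ e < I.E, I.kl e → I.U e < I.n}

/-- Classes with the same number of steps `t`. -/
theorem ce_r {x y x' : ℕ} (h : (H.prog I hkl).CE x y x' y) : x = x' := by
  obtain ⟨n, e1, e2⟩ := Prog.ce_iff.1 h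
  change ((x' : ℤ) - x) * H.r.1 + ((y : ℤ) - y) * H.r.1 = n * H.g.1 at e1
  change ((x' : ℤ) - x) * H.r.2 + ((y : ℤ) - y) * H.r.2 = n * H.g.2 at e2
  have h3 : ((x' : ℤ) - x) * ((H.g.1 : ℤ) * H.r.2 - H.g.2 * H.r.1) = 0 := by
    have e3 : ((x' : ℤ) - x) * H.r.1 = n * H.g.1 := by linarith
    have e4 : ((x' : ℤ) - x) * H.r.2 = n * H.g.2 := by linarith
    calc ((x' : ℤ) - x) * ((H.g.1 : ℤ) * H.r.2 - H.g.2 * H.r.1)
        = H.g.1 * (((x' : ℤ) - x) * H.r.2) - H.g.2 * (((x' : ℤ) - x) * H.r.1) := by ring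
      _ = 0 := by rw [e3, e4]; ring
  rcases mul_eq_zero.1 h3 with h | h
  · omega
  · exact absurd h H.det

variable (I)

/-- Classes of resting tokens. -/
def R0 (e x y : ℕ) : Prop := y = 0 ∧ ∃ w, I.PR e w ∧ x = 2 * w

/-- Class of the moving token. -/
def Mv (e s x y : ℕ) : Prop :=
  I.on e ∧ I.PR e (I.U e) ∧ 0 < s ∧ x = 2 * I.U e + min s 2 ∧ y = 0

/-- Classes of tokens that went astray. -/
def Dv (e s i x y : ℕ) : Prop :=
  I.on e ∧ ∃ w < I.n, i ≤ w + 1 ∧ (s = 0 → w ≠ I.U e) ∧ x = 2 * w + 1 ∧ y = 0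

/-- Possible classes. -/
def T (e s i x y : ℕ) : Prop :=
  ((2 < s ∨ (s = 2 ∧ 0 < i)) ∧ R0 I (e + 1) x y) ∨
    (¬ (2 < s ∨ (s = 2 ∧ 0 < i)) ∧
      (R0 I e x y ∨ Mv I e (if i = 0 then s else s + 1) x y ∨ (0 < i ∧ Dv I e s i x y)))

variable {I}

theorem T_bound {e s i x y : ℕ} (he : e < I.E) (h : T I e s i x y) :
    x + y ≤ (H.prog I hkl).n0 + 1 := by
  change x + y ≤ 2 * I.n + 2 + 1
  have hR : ∀ e ≤ I.E, R0 I e x y → x + y ≤ 2 * I.n + 2 + 1 := by
    rintro e he ⟨rfl, w, h1, rfl⟩
    have := I.PR_lt he h1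
    omega
  rcases h with ⟨_, h⟩ | ⟨_, h | h | ⟨_, h⟩⟩
  · exact hR _ (by omega) h
  · exact hR _ he.le h
  · obtain ⟨h1, h2, h3, rfl, rfl⟩ := h
    have := I.hUV e he h1
    omega
  · obtain ⟨h1, w, h3, h4, h5, rfl, rfl⟩ := h
    omega

theorem prog_ev {e s i : ℕ} (hs : s < 3) (hi : i < I.n + 1) :
    (H.prog I hkl).ev ((e * 3 + s) * (I.n + 1) + i) = ev I e s i :=
  Prog.seq3_eval (T := ev I) (e := e) hs hi

theorem T_resting {e s i w : ℕ} (hs : s < 2) (h : I.PR e w) : T I e s i (2 * w) 0 :=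
  Or.inr ⟨by omega, Or.inl ⟨rfl, w, h, rfl⟩⟩

/-- Effects of the events. -/
theorem ev_ok (hV : ∀ e < I.E, I.on e → I.V e = I.U e + 1) {e s i : ℕ} (he : e < I.E)
    (hs : s < 3) (hi : i < I.n + 1) :
    (H.prog I hkl).sys.EvOK ((e * 3 + s) * (I.n + 1) + i)
      ((H.prog I hkl).In (T I e s i)) ((H.prog I hkl).In (T I e s (i + 1))) := by
  have hk : (e * 3 + s) * (I.n + 1) + i < (H.prog I hkl).K := TI.idx_lt he hs hi
  have hev := prog_ev (H := H) (I := I) (hkl := hkl) (e := e) hs hi
  have hb : ∀ x y, T I e s i x y → x + y ≤ (H.prog I hkl).n0 + 1 := fun x y h => T_bound he h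
  rcases Nat.lt_or_ge s 2 with hsM | hsM
  swap
  · -- the last round
    have hsM' : s = 2 := by omega
    by_cases h0 : i = 0 ∧ I.kl e
    · have hev' : ev I e s i = ⟨2 * I.U e, 0, 1⟩ := by
        unfold ev
        rw [if_pos hsM', if_pos h0]
      rw [hev'] at hev
      refine Prog.ev_kill hk hev hb fun x y h hne => ?_
      rcases h with ⟨h1, _⟩ | ⟨_, h | h | ⟨h1, _⟩⟩
      · omega
      · obtain ⟨rfl, w, h1, rfl⟩ := h
        refine Prog.Mem.of (Or.inl ⟨Or.inr ⟨hsM', by omega⟩, rfl, w, Or.inl ⟨h1, ?_⟩, rfl⟩)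
        rintro ⟨_, rfl⟩
        exact hne (Prog.CE.refl _ _)
      · rw [if_pos h0.1] at h
        obtain ⟨h1, h2, h3, rfl, rfl⟩ := h
        refine Prog.Mem.of (Or.inl ⟨Or.inr ⟨hsM', by omega⟩, rfl, I.V e,
          Or.inr ⟨h1, h2, rfl⟩, ?_⟩)
        have := hV e he h1
        omega
      · omega
    · have hev' : ev I e s i = ⟨0, 0, 0⟩ := by
        unfold ev
        rw [if_pos hsM', if_neg h0]
      refine Prog.ev_noop hk (by rw [hev, hev']) hb fun x y h => ?_
      rcases h with ⟨h1, h2⟩ | ⟨h0', h | h | ⟨h1, _⟩⟩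
      · refine Prog.Mem.of (Or.inl ⟨Or.inr ⟨hsM', by omega⟩, h2⟩)
      · obtain ⟨rfl, w, h1, rfl⟩ := h
        refine Prog.Mem.of (Or.inl ⟨Or.inr ⟨hsM', by omega⟩, rfl, w, Or.inl ⟨h1, ?_⟩, rfl⟩)
        rintro ⟨h2, _⟩
        exact h0 ⟨by omega, h2⟩
      · rw [if_pos (by omega)] at h
        obtain ⟨h1, h2, h3, rfl, rfl⟩ := h
        refine Prog.Mem.of (Or.inl ⟨Or.inr ⟨hsM', by omega⟩, rfl, I.V e,
          Or.inr ⟨h1, h2, rfl⟩, ?_⟩)
        have := hV e he h1
        omega
      · omega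
  -- other rounds
  have hrest : ∀ x y, R0 I e x y → (H.prog I hkl).Mem (T I e s (i + 1)) x y := by
    rintro x y ⟨rfl, w, h1, rfl⟩
    exact Prog.Mem.of (T_resting hsM h1)
  have hTc : ∀ {x y}, T I e s i x y → (R0 I e x y ∨
      Mv I e (if i = 0 then s else s + 1) x y ∨ (0 < i ∧ Dv I e s i x y)) := by
    rintro x y (⟨h1, _⟩ | ⟨_, h⟩)
    · omega
    · exact h
  have hT' : ∀ {x y}, (Mv I e (s + 1) x y ∨ Dv I e s (i + 1) x y) →
      (H.prog I hkl).Mem (T I e s (i + 1)) x y := by
    intro x y h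
    refine Prog.Mem.of (Or.inr ⟨by omega, Or.inr ?_⟩)
    rcases h with h | h
    · left
      rw [if_neg (by omega)]
      exact h
    · exact Or.inr ⟨by omega, h⟩
  by_cases hon : I.on e
  swap
  · have hev' : ev I e s i = ⟨0, 0, 0⟩ := by
      unfold ev
      rw [if_neg (by omega), if_pos hon]
    refine Prog.ev_noop hk (by rw [hev, hev']) hb fun x y h => ?_
    rcases hTc h with h | h | h
    · exact hrest _ _ h
    · exact absurd h.1 hon
    · exact absurd h.2.1 hon
  by_cases hi0 : i = 0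
  · subst hi0
    by_cases hs0 : s = 0
    · subst hs0
      have hev' : ev I e 0 0 = ⟨2 * I.U e, 0, 2⟩ := by
        unfold ev
        rw [if_neg (by omega), if_neg (by simpa using hon), if_pos rfl, if_pos rfl]
      rw [hev'] at hev
      refine Prog.ev_ra hk hev hb fun x y h => ?_
      rcases hTc h with h | h | ⟨h, _⟩
      · refine ⟨hrest _ _ h, ?_⟩
        obtain ⟨rfl, w, h1, rfl⟩ := h
        apply hT'
        by_cases hw : w = I.U e
        · subst hw
          left
          exact ⟨hon, h1, by omega, rfl, rfl⟩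
        · right
          exact ⟨hon, w, I.PR_lt he.le h1, by omega, fun _ => hw, rfl, rfl⟩
      · exact absurd h.2.2.1 (by simp)
      · omega
    · have hs1 : s = 1 := by omega
      subst hs1
      have hev' : ev I e 1 0 = ⟨2 * I.U e + 1, 0, 3⟩ := by
        unfold ev
        rw [if_neg (by omega), if_neg (by simpa using hon), if_pos rfl, if_neg hs0]
      rw [hev'] at hev
      refine Prog.ev_rf hk hev hb fun x y h => ?_
      rcases hTc h with h | h | ⟨h, _⟩
      · refine ⟨fun _ => hrest _ _ h, ?_⟩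
        obtain ⟨rfl, w, h1, rfl⟩ := h
        apply hT'
        right
        exact ⟨hon, w, I.PR_lt he.le h1, by omega, by omega, rfl, rfl⟩
      · rw [if_pos rfl] at h
        obtain ⟨h1, h2, h3, rfl, rfl⟩ := h
        refine ⟨fun h => absurd (Prog.CE.refl _ _) h, ?_⟩
        apply hT'
        left
        exact ⟨hon, h2, by omega, by omega, rfl⟩
      · omega
  · -- the kills
    have hpass : ∀ x y, Mv I e (if i = 0 then s else s + 1) x y →
        (H.prog I hkl).Mem (T I e s (i + 1)) x y := by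
      intro x y h
      rw [if_neg hi0] at h
      exact hT' (Or.inl h)
    by_cases hiU : s = 0 ∧ i - 1 = I.U e
    · have hev' : ev I e s i = ⟨0, 0, 0⟩ := by
        unfold ev
        rw [if_neg (by omega), if_neg (by simpa using hon), if_neg hi0, if_pos hiU]
      refine Prog.ev_noop hk (by rw [hev, hev']) hb fun x y h => ?_
      rcases hTc h with h | h | ⟨_, h⟩
      · exact hrest _ _ h
      · exact hpass _ _ h
      · obtain ⟨h1, w, h3, h4, h5, h6⟩ := h
        have := h5 hiU.1
        exact hT' (Or.inr ⟨h1, w, h3, by omega, h5, h6⟩)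
    · have hev' : ev I e s i = ⟨2 * (i - 1) + 1, 0, 1⟩ := by
        unfold ev
        rw [if_neg (by omega), if_neg (by simpa using hon), if_neg hi0, if_neg hiU]
      rw [hev'] at hev
      refine Prog.ev_kill hk hev hb fun x y h hne => ?_
      rcases hTc h with h | h | ⟨_, h⟩
      · exact hrest _ _ h
      · exact hpass _ _ h
      · obtain ⟨h1, w, h3, h4, h5, rfl, rfl⟩ := h
        have : w ≠ i - 1 := by
          rintro rfl
          exact hne (Prog.CE.refl _ _)
        exact hT' (Or.inr ⟨h1, w, h3, by omega, h5, rfl, rfl⟩)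

theorem T_last : Prog.seq3 3 (I.n + 1) (T I) (H.prog I hkl).K = T I I.E 0 0 := by
  have := Prog.seq3_eval (T := T I) (e := I.E) (show 0 < 3 by omega) (show 0 < I.n + 1 by omega)
  simpa [prog] using this

/-- Soundness. -/
theorem sound (hV : ∀ e < I.E, I.on e → I.V e = I.U e + 1) {w : ℕ}
    (h : ReflTransGen (H.prog I hkl).sys.Step (0, 0)
    (cv ((H.prog I hkl).fin (2 * w) 0))) : I.PR I.E w := by
  have h1 := Prog.soundP (P := H.prog I hkl)
    (fun k => Prog.seq3 3 (I.n + 1) (T I) k) ?_ ?_ ?_ h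
  · obtain ⟨x, y, h2, h3⟩ := h1
    simp only [T_last] at h2
    rcases h2 with ⟨h4, _⟩ | ⟨_, h4 | h4 | ⟨h4, _⟩⟩
    · omega
    · obtain ⟨rfl, w', h5, rfl⟩ := h4
      have := ce_r h3
      have : w' = w := by omega
      rwa [← this]
    · exact absurd h4.2.2.1 (by simp)
    · omega
  · have := Prog.seq3_eval (T := T I) (e := 0) (show 0 < 3 by omega)
      (show 0 < I.n + 1 by omega)
    simp only [zero_mul, add_zero] at this
    show Prog.seq3 3 (I.n + 1) (T I) 0 0 0
    rw [this]
    exact Or.inr ⟨by omega, Or.inl ⟨rfl, 0, rfl, by simp⟩⟩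
  · intro k hk
    refine Prog.run3 (E := I.E) (by omega) (by omega) (T I)
      (fun e he s hs i hi => ev_ok hV he hs hi) (fun e he s hs => ?_) (fun e he => ?_) k hk
    · refine Prog.in_mono fun x y h => Prog.Mem.of ?_
      rcases h with ⟨h1, h2⟩ | ⟨h1, h2⟩
      · exact Or.inl ⟨by omega, h2⟩
      · refine Or.inr ⟨by omega, ?_⟩
        rcases h2 with h2 | h2 | ⟨_, h2⟩
        · exact Or.inl h2
        · rw [if_neg (by omega)] at h2
          right; left
          rw [if_pos rfl]
          exact h2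
        · obtain ⟨_, w', h3, h4, _⟩ := h2
          omega
    · refine Prog.in_mono fun x y h => Prog.Mem.of ?_
      rcases h with ⟨h1, h2⟩ | ⟨h1, h2⟩
      · exact Or.inr ⟨by omega, Or.inl h2⟩
      · omega
  · intro x y h2
    simp only [T_last] at h2
    change x + y ≤ 2 * I.n + 2 + 1
    rcases h2 with ⟨h4, _⟩ | ⟨_, h4 | h4 | ⟨h4, _⟩⟩
    · omega
    · obtain ⟨rfl, w', h5, rfl⟩ := h4
      have := I.PR_lt le_rfl h5
      omega
    · exact absurd h4.2.2.1 (by simp)
    · omega

/-- The index of an event. -/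
def ix (I : Ins) (e s i : ℕ) : ℕ := (e * 3 + s) * (I.n + 1) + i

theorem ix_next (e s : ℕ) : ix I e s (I.n + 1) = ix I e (s + 1) 0 := by
  unfold ix; ring

theorem ix_end (e : ℕ) : ix I e 3 0 = ix I (e + 1) 0 0 := by
  unfold ix; ring

/-- A token that is not hit by the kills passes. -/
theorem rc_event {e s i x y : ℕ} (he : e < I.E) (hs : s < 3) (hi : i < I.n + 1)
    (h : (H.prog I hkl).RC (ix I e s i) x y)
    (hn : Fs (ev I e s i).kd Fl.k1 →
      ¬ (H.prog I hkl).CE x y (ev I e s i).x (ev I e s i).y) :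
    (H.prog I hkl).RC (ix I e s (i + 1)) x y := by
  have hk : ix I e s i < (H.prog I hkl).K := TI.idx_lt he hs hi
  have hev := prog_ev (H := H) (I := I) (hkl := hkl) (e := e) hs hi
  refine Prog.rc_pass hk ?_ h ?_
  · change ((H.prog I hkl).ev ((e * 3 + s) * (I.n + 1) + i)).kd ≠ 6
    rw [hev]
    unfold ev
    split_ifs <;> simp
  · change ¬ (Fs ((H.prog I hkl).ev ((e * 3 + s) * (I.n + 1) + i)).kd Fl.k1 ∧
      (H.prog I hkl).CE x y ((H.prog I hkl).ev ((e * 3 + s) * (I.n + 1) + i)).x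
      ((H.prog I hkl).ev ((e * 3 + s) * (I.n + 1) + i)).y)
    rw [hev]
    exact fun h => hn h.1 h.2

/-- Resting tokens pass all events of a block. -/
theorem rest_pass {e w : ℕ} (he : e < I.E) (hw : ¬ (I.kl e ∧ w = I.U e))
    (h : (H.prog I hkl).RC (ix I e 0 0) (2 * w) 0) :
    (H.prog I hkl).RC (ix I (e + 1) 0 0) (2 * w) 0 := by
  have key : ∀ s, s ≤ 3 → (H.prog I hkl).RC (ix I e s 0) (2 * w) 0 := by
    intro s
    induction s with
    | zero => exact fun _ => h
    | succ s ih =>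
      intro hs
      have h1 := ih (by omega)
      have h2 : ∀ i, i ≤ I.n + 1 → (H.prog I hkl).RC (ix I e s i) (2 * w) 0 := by
        intro i
        induction i with
        | zero => exact fun _ => h1
        | succ i ih2 =>
          intro hi
          refine rc_event he (by omega) (by omega) (ih2 (by omega)) ?_
          unfold ev
          split_ifs with a1 a2 a3 a4 a5 a6
          · intro _ h3
            have h4 : 2 * w = 2 * I.U e := ce_r h3
            exact hw ⟨a2.2, by omega⟩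
          · simp [Fs]
          · simp [Fs]
          · intro _ h3
            have h4 : 2 * w = 2 * I.U e + 1 := ce_r h3
            omega
          · simp [Fs]
          · intro _ h3
            have h4 : 2 * w = 2 * (i - 1) + 1 := ce_r h3
            omega
          · simp [Fs]
      rw [← ix_next]
      exact h2 _ le_rfl
  rw [← ix_end]
  exact key _ le_rfl

/-- The moving token. -/
theorem move_pass (hV : ∀ e < I.E, I.on e → I.V e = I.U e + 1) {e : ℕ} (he : e < I.E)
    (hon : I.on e) (h : (H.prog I hkl).RC (ix I e 0 0) (2 * I.U e) 0) :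
    (H.prog I hkl).RC (ix I (e + 1) 0 0) (2 * I.V e) 0 := by
  have hUV := I.hUV e he hon
  rw [hV e he hon]
  -- a round
  have round : ∀ s, s < 2 → (H.prog I hkl).RC (ix I e s 1) (2 * I.U e + (s + 1)) 0 →
      (H.prog I hkl).RC (ix I e (s + 1) 0) (2 * I.U e + (s + 1)) 0 := by
    intro s hs h1
    have h2 : ∀ i, 1 ≤ i → i ≤ I.n + 1 → (H.prog I hkl).RC (ix I e s i)
        (2 * I.U e + (s + 1)) 0 := by
      intro i
      induction i with
      | zero => intro h; omega
      | succ i ih2 =>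
        intro hi1 hi
        rcases Nat.eq_zero_or_pos i with h0 | h0
        · subst h0
          exact h1
        refine rc_event he (by omega) (by omega) (ih2 h0 (by omega)) ?_
        unfold ev
        rw [if_neg (by omega), if_neg (by simpa using hon), if_neg (by omega)]
        split_ifs with a1
        · simp [Fs]
        · intro _ h3
          have h4 : 2 * I.U e + (s + 1) = 2 * (i - 1) + 1 := ce_r h3
          omega
    rw [← ix_next]
    exact h2 _ (by omega) le_rfl
  have hk0 : ix I e 0 0 < (H.prog I hkl).K := TI.idx_lt he (by omega) (by omega)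
  have hev0 := prog_ev (H := H) (I := I) (hkl := hkl) (e := e)
    (show 0 < 3 by omega) (show 0 < I.n + 1 by omega)
  have hev0' : ev I e 0 0 = ⟨2 * I.U e, 0, 2⟩ := by
    unfold ev
    rw [if_neg (by omega), if_neg (by simpa using hon), if_pos rfl, if_pos rfl]
  rw [hev0'] at hev0
  have h1 := Prog.rc_r hk0 h (by
    change (H.prog I hkl).CE _ _ ((H.prog I hkl).ev
      ((e * 3 + 0) * (I.n + 1) + 0)).x ((H.prog I hkl).ev ((e * 3 + 0) * (I.n + 1) + 0)).y
    rw [hev0]
    exact Prog.CE.refl _ _) (by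
    change ((H.prog I hkl).ev ((e * 3 + 0) * (I.n + 1) + 0)).kd = 2 ∨
      ((H.prog I hkl).ev ((e * 3 + 0) * (I.n + 1) + 0)).kd = 3
    rw [hev0]
    exact Or.inl rfl)
  have h2 := round 0 (by omega) h1
  have hk1 : ix I e 1 0 < (H.prog I hkl).K := TI.idx_lt he (by omega) (by omega)
  have hev1 := prog_ev (H := H) (I := I) (hkl := hkl) (e := e)
    (show 1 < 3 by omega) (show 0 < I.n + 1 by omega)
  have hev1' : ev I e 1 0 = ⟨2 * I.U e + 1, 0, 3⟩ := by
    unfold ev
    rw [if_neg (by omega), if_neg (by simpa using hon), if_pos rfl, if_neg (by omega)]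
  rw [hev1'] at hev1
  have h3 := Prog.rc_r hk1 h2 (by
    change (H.prog I hkl).CE _ _ ((H.prog I hkl).ev
      ((e * 3 + 1) * (I.n + 1) + 0)).x ((H.prog I hkl).ev ((e * 3 + 1) * (I.n + 1) + 0)).y
    rw [hev1]
    exact Prog.CE.refl _ _) (by
    change ((H.prog I hkl).ev ((e * 3 + 1) * (I.n + 1) + 0)).kd = 2 ∨
      ((H.prog I hkl).ev ((e * 3 + 1) * (I.n + 1) + 0)).kd = 3
    rw [hev1]
    exact Or.inr rfl)
  have h4 := round 1 (by omega) h3
  -- the last round
  have h5 : ∀ i, i ≤ I.n + 1 → (H.prog I hkl).RC (ix I e 2 i) (2 * (I.U e + 1)) 0 := by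
    intro i
    induction i with
    | zero => exact fun _ => by simpa [mul_add] using h4
    | succ i ih2 =>
      intro hi
      refine rc_event he (by omega) (by omega) (ih2 (by omega)) ?_
      unfold ev
      rw [if_pos rfl]
      split_ifs
      · intro _ h3
        have h4 : 2 * (I.U e + 1) = 2 * I.U e := ce_r h3
        omega
      · simp [Fs]
  have h6 := h5 _ le_rfl
  rw [ix_next, ix_end] at h6
  exact h6

/-- Completeness. -/
theorem complete (hV : ∀ e < I.E, I.on e → I.V e = I.U e + 1) {w : ℕ} (h : I.PR I.E w) :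
    ReflTransGen (H.prog I hkl).sys.Step (0, 0) (cv ((H.prog I hkl).fin (2 * w) 0)) := by
  have key : ∀ e, e ≤ I.E → ∀ w, I.PR e w →
      (H.prog I hkl).RC (ix I e 0 0) (2 * w) 0 := by
    intro e
    induction e with
    | zero =>
      intro _ w hw
      have : w = 0 := hw
      subst this
      have := Prog.rc_zero (P := H.prog I hkl)
      simpa [ix] using this
    | succ e ih =>
      intro he w hw
      rcases hw with ⟨h1, h2⟩ | ⟨h1, h2, rfl⟩
      · exact rest_pass (by omega) h2 (ih (by omega) w h1)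
      · exact move_pass hV (by omega) h1 (ih (by omega) _ h2)
  have h1 := key I.E le_rfl w h
  refine Prog.rc_end ?_
  have : ix I I.E 0 0 = (H.prog I hkl).K := by
    simp [ix, prog]
  rwa [this] at h1

theorem reach_iff (hV : ∀ e < I.E, I.on e → I.V e = I.U e + 1) {w : ℕ} :
    ReflTransGen (H.prog I hkl).sys.Step (0, 0) (cv ((H.prog I hkl).fin (2 * w) 0)) ↔
      I.PR I.E w := ⟨sound hV, complete hV⟩

end PL

end Pool.Agent.Helper38.Shape
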