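import Pool.Agent.Helper38.Shape.TypeI

/-!
# The three steps `(a, b)`, `(α a, 0)`, `(0, α b)`
-/

namespace Pool.Agent.Helper38.Shape

open Relation Classical

set_option linter.unusedSimpArgs false
set_option linter.unusedVariables false
set_option linter.unusedSectionVars false

/-- The steps. -/
structure TW where
  g : ℕ × ℕ
  α : ℕ
  g1 : 0 < g.1
  g2 : 0 < g.2
  α2 : 2 ≤ α

namespace TW

variable (H : TW) (I : Ins)

/-- The classes of the tracks; the track number `τ` contains `(τ - 1) r`. -/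
def rx (τ : ℕ) : ℕ := τ - 1

/-- The classes of the tracks. -/
def ry (τ : ℕ) : ℕ := if τ = 0 then 1 else 0

/-- Position of the moving token. -/
def xs (e s : ℕ) : ℕ := 3 * I.U e + s / 2

/-- The moving token passes a resting token. -/
def sw (e x : ℕ) : Prop := I.on e ∧ x % 3 = 0 ∧ 3 * I.U e < x ∧ x < 3 * I.V e

/-- A resting token is displaced. -/
def dsp (e s : ℕ) : Prop := sw I e (xs I e s) ∨ (s % 2 = 1 ∧ sw I e (xs I e s + 1))

/-- The track of the displaced token. -/
noncomputable def dc (e s : ℕ) : ℕ := if sw I e (xs I e s) then xs I e s else xs I e s + 1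

/-- The track of the moving token. -/
def bb (e s : ℕ) : ℕ := min (xs I e s + s % 2) (3 * I.V e)

/-- Tracks that are in use. -/
def Leg (e s τ : ℕ) : Prop :=
  (τ % 3 = 1 ∧ ¬ (dsp I e s ∧ τ = dc I e s + 1)) ∨ (I.on e ∧ τ = bb I e s + 1) ∨
    (dsp I e s ∧ τ = dc I e s)

/-- Rounds. -/
def M1 : ℕ := 6 * I.n

/-- Main events. -/
noncomputable def evm (e s : ℕ) : Ev :=
  if ¬ I.on e ∨ 3 * I.V e ≤ xs I e s then ⟨0, 0, 0⟩
  else if s % 2 = 0 then
    (if s = 0 then ⟨xs I e s, 0, 2⟩
    else if ¬ sw I e (xs I e s) ∧ sw I e (xs I e s + 1) then ⟨xs I e s, 0, 6⟩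
    else ⟨xs I e s, 0, 3⟩)
  else if sw I e (xs I e s) then ⟨xs I e s - 1, 0, 3⟩ else ⟨0, 0, 0⟩

/-- The events. -/
noncomputable def ev (e s i : ℕ) : Ev :=
  if s = M1 I then (if i = 0 ∧ I.kl e then ⟨3 * I.U e, 0, 1⟩ else ⟨0, 0, 0⟩)
  else if i = 0 then evm I e s
  else if ¬ I.on e ∨ Leg I e (s + 1) (i - 1) then ⟨0, 0, 0⟩ else ⟨rx (i - 1), ry (i - 1), 1⟩

/-- The program. -/
noncomputable def prog (hkl : ∀ e < I.E, I.kl e → I.U e < I.n) : Prog where
  g := H.g
  r := (H.α * H.g.1, 0)
  t := (0, H.α * H.g.2)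
  α := H.α
  n0 := 3 * I.n + 4
  K := I.E * (M1 I + 1) * (3 * I.n + 5)
  ev := Prog.seq3 (M1 I + 1) (3 * I.n + 5) (ev I)
  g1 := H.g1
  g2 := H.g2
  r0 := Or.inl (Nat.mul_pos (by have := H.α2; omega) H.g1).ne'
  t0 := Or.inr (Nat.mul_pos (by have := H.α2; omega) H.g2).ne'
  hev := by
    intro k hk
    unfold Prog.seq3
    have h2 : k % (3 * I.n + 5) < 3 * I.n + 5 := Nat.mod_lt _ (by omega)
    have he' : k / (3 * I.n + 5) / (M1 I + 1) < I.E := by
      rw [Nat.div_lt_iff_lt_mul (by omega), Nat.div_lt_iff_lt_mul (by omega)]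
      exact hk
    generalize k / (3 * I.n + 5) / (M1 I + 1) = e at he' ⊢
    generalize k / (3 * I.n + 5) % (M1 I + 1) = s
    generalize k % (3 * I.n + 5) = i at h2 ⊢
    have hm : (evm I e s).x + (evm I e s).y ≤ 3 * I.n + 4 := by
      unfold evm
      split_ifs with h3
      · simp
      all_goals
        push Not at h3
        have := I.hUV e he' h3.1
        have := h3.2
        simp only
        omega
    unfold ev
    split_ifs with h3 h4 h5 h6
    · have := hkl e he' h4.2
      simp only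
      omega
    · simp
    · exact hm
    · simp
    · simp only [rx, ry]
      split_ifs <;> omega

variable {H I} {hkl : ∀ e < I.E, I.kl e → I.U e < I.n}

theorem hα : 2 ≤ (H.prog I hkl).α := H.α2

/-- Congruence of classes. -/
theorem ce_iff {x y x' y' : ℕ} : (H.prog I hkl).CE x y x' y' ↔ (x : ℤ) - y = x' - y' := by
  have h2 := H.α2
  have h3 := H.g1
  have h4 := H.g2
  rw [Prog.ce_iff]
  change (∃ n : ℤ, ((x' : ℤ) - x) * (H.α * H.g.1 : ℕ) + ((y' : ℤ) - y) * (0 : ℕ) = n * H.g.1 ∧
    ((x' : ℤ) - x) * (0 : ℕ) + ((y' : ℤ) - y) * (H.α * H.g.2 : ℕ) = n * H.g.2) ↔ _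
  push_cast
  constructor
  · rintro ⟨n, e1, e2⟩
    have g1 : (0 : ℤ) < H.g.1 := by omega
    have g2 : (0 : ℤ) < H.g.2 := by omega
    have e3 : ((x' : ℤ) - x) * H.α = n := cancel_pos g1 (by linarith)
    have e4 : ((y' : ℤ) - y) * H.α = n := cancel_pos g2 (by linarith)
    have e5 := cancel_pos (a := (H.α : ℤ)) (by omega) (e3.trans e4.symm)
    linarith
  · intro h
    refine ⟨((x' : ℤ) - x) * H.α, by ring, ?_⟩
    have : (y' : ℤ) - y = x' - x := by linarith
    rw [this]
    ring

/-- Classes given by a set of tracks. -/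
def TQ (Q : ℕ → Prop) (x y : ℕ) : Prop := ∃ τ, Q τ ∧ x = rx τ ∧ y = ry τ

theorem trk (τ : ℕ) : (rx τ : ℤ) - ry τ = τ - 1 := by
  unfold rx ry
  split_ifs <;> omega

theorem memQ {Q : ℕ → Prop} {τ x y : ℕ} (h : Q τ) (h' : (x : ℤ) - y = τ - 1) :
    (H.prog I hkl).Mem (TQ Q) x y :=
  ⟨rx τ, ry τ, ⟨τ, h, rfl, rfl⟩, ce_iff.2 ((trk τ).trans h'.symm)⟩

theorem TQ_bound {Q : ℕ → Prop} (hQ : ∀ τ, Q τ → τ ≤ 3 * I.n + 3) (x y : ℕ) (h : TQ Q x y) :
    x + y ≤ (H.prog I hkl).n0 + 1 := by
  change x + y ≤ 3 * I.n + 4 + 1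
  obtain ⟨τ, h1, rfl, rfl⟩ := h
  have := hQ τ h1
  unfold rx ry
  split_ifs <;> omega

section tracks

variable {k : ℕ} (hk : k < (H.prog I hkl).K) {Q Q' : ℕ → Prop}
  (hQ : ∀ τ, Q τ → τ ≤ 3 * I.n + 3)

include hk hQ

theorem tr_noop (he : ((H.prog I hkl).ev k).kd = 0) (h : ∀ τ, Q τ → Q' τ) :
    (H.prog I hkl).sys.EvOK k ((H.prog I hkl).In (TQ Q)) ((H.prog I hkl).In (TQ Q')) := by
  refine Prog.ev_noop hk he (TQ_bound hQ) ?_
  rintro x y ⟨τ, h1, rfl, rfl⟩
  exact memQ (h τ h1) (trk τ)

theorem tr_kill {X Y τ0 : ℕ} (he : (H.prog I hkl).ev k = ⟨X, Y, 1⟩)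
    (hXY : (X : ℤ) - Y = τ0 - 1) (h : ∀ τ, Q τ → τ ≠ τ0 → Q' τ) :
    (H.prog I hkl).sys.EvOK k ((H.prog I hkl).In (TQ Q)) ((H.prog I hkl).In (TQ Q')) := by
  refine Prog.ev_kill hk he (TQ_bound hQ) ?_
  rintro x y ⟨τ, h1, rfl, rfl⟩ h2
  refine memQ (h τ h1 ?_) (trk τ)
  rintro rfl
  exact h2 (ce_iff.2 (hXY.trans (trk _).symm))

theorem tr_ra {X : ℕ} (he : (H.prog I hkl).ev k = ⟨X, 0, 2⟩)
    (h : ∀ τ, Q τ → Q' τ ∧ Q' (τ + 1)) :
    (H.prog I hkl).sys.EvOK k ((H.prog I hkl).In (TQ Q)) ((H.prog I hkl).In (TQ Q')) := by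
  refine Prog.ev_ra hk he (TQ_bound hQ) ?_
  rintro x y ⟨τ, h1, rfl, rfl⟩
  refine ⟨memQ (h τ h1).1 (trk τ), memQ (h τ h1).2 ?_⟩
  have := trk τ
  push_cast
  linarith

theorem tr_rf {X : ℕ} (he : (H.prog I hkl).ev k = ⟨X, 0, 3⟩)
    (h : ∀ τ, Q τ → (τ ≠ X + 1 → Q' τ) ∧ Q' (τ + 1)) :
    (H.prog I hkl).sys.EvOK k ((H.prog I hkl).In (TQ Q)) ((H.prog I hkl).In (TQ Q')) := by
  refine Prog.ev_rf hk he (TQ_bound hQ) ?_
  rintro x y ⟨τ, h1, rfl, rfl⟩
  refine ⟨fun h2 => memQ ((h τ h1).1 ?_) (trk τ), memQ (h τ h1).2 ?_⟩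
  · rintro rfl
    refine h2 (ce_iff.2 ?_)
    rw [trk]
    push_cast
    ring
  · have := trk τ
    push_cast
    linarith

theorem tr_swap {X : ℕ} (he : (H.prog I hkl).ev k = ⟨X, 0, 6⟩)
    (h1 : Q (X + 1) → Q' (X + 2)) (h2 : Q (X + 2) → Q' (X + 1))
    (h3 : ∀ τ, Q τ → τ ≠ X + 1 → τ ≠ X + 2 → 0 < τ ∧ Q' τ ∧ Q' (τ + 1) ∧ Q' (τ - 1)) :
    (H.prog I hkl).sys.EvOK k ((H.prog I hkl).In (TQ Q)) ((H.prog I hkl).In (TQ Q')) := by
  refine Prog.evW (P := H.prog I hkl) H.α2 rfl rfl rfl rfl hk (by rw [he]) (TQ_bound hQ) ?_ ?_ ?_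
  · rw [he]
    rintro ⟨x, y, ⟨τ, h4, rfl, rfl⟩, h5⟩
    rw [ce_iff, trk] at h5
    simp only at h5
    have : τ = X + 1 := by push_cast at h5; omega
    subst this
    refine memQ (h1 h4) ?_
    simp only
    push_cast
    ring
  · rw [he]
    rintro ⟨x, y, ⟨τ, h4, rfl, rfl⟩, h5⟩
    rw [ce_iff, trk] at h5
    simp only at h5
    have : τ = X + 2 := by push_cast at h5; omega
    subst this
    refine memQ (h2 h4) ?_
    simp only
    push_cast
    ring
  · rw [he]
    rintro x y ⟨τ, h4, rfl, rfl⟩ h5 h6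
    rw [ce_iff, trk] at h5 h6
    simp only at h5 h6
    obtain ⟨h7, h8, h9, h10⟩ := h3 τ h4 (by rintro rfl; apply h5; push_cast; ring)
      (by rintro rfl; apply h6; push_cast; ring)
    have ht := trk τ
    refine ⟨memQ h8 ht, memQ h9 ?_, memQ h10 ?_⟩
    · push_cast
      linarith
    · rw [Nat.cast_sub h7]
      push_cast
      linarith

end tracks

variable (I)

/-- Tracks of resting tokens. -/
def QR (e τ : ℕ) : Prop := ∃ w, I.PR e w ∧ τ = 3 * w + 1

/-- Possible tracks before round `s`. -/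
def Qs (e s τ : ℕ) : Prop :=
  (∃ w, I.PR e w ∧ τ = 3 * w + 1 ∧ ¬ (dsp I e s ∧ 3 * w = dc I e s)) ∨
    (I.on e ∧ I.PR e (I.U e) ∧ τ = bb I e s + 1) ∨
    (dsp I e s ∧ I.PR e (dc I e s / 3) ∧ τ = dc I e s)

/-- Possible tracks. -/
def Q (e s i τ : ℕ) : Prop :=
  ((M1 I < s ∨ (s = M1 I ∧ 0 < i)) ∧ QR I (e + 1) τ) ∨
  (¬ (M1 I < s ∨ (s = M1 I ∧ 0 < i)) ∧ ((i = 0 ∧ ((s = 0 ∧ QR I e τ) ∨ (0 < s ∧ Qs I e s τ))) ∨
    (0 < i ∧ (Qs I e (s + 1) τ ∨ (I.on e ∧ ¬ Leg I e (s + 1) τ ∧ τ ≤ 3 * I.n + 3 ∧ i ≤ τ + 1)))))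

variable {I}

theorem bb_le {e s : ℕ} : bb I e s ≤ 3 * I.V e := min_le_right _ _

theorem dc_lt {e s : ℕ} (h : dsp I e s) : dc I e s < 3 * I.V e ∧ dc I e s % 3 = 0 ∧
    3 * I.U e < dc I e s ∧ I.on e := by
  unfold dc
  split_ifs with h1
  · exact ⟨h1.2.2.2, h1.2.1, h1.2.2.1, h1.1⟩
  · rcases h with h | ⟨_, h⟩
    · exact absurd h h1
    · exact ⟨h.2.2.2, h.2.1, h.2.2.1, h.1⟩

theorem Qs_bound {e s τ : ℕ} (he : e < I.E) (h : Qs I e s τ) : 0 < τ ∧ τ ≤ 3 * I.n := by
  rcases h with ⟨w, h1, rfl, _⟩ | ⟨h1, h2, rfl⟩ | ⟨h1, h2, rfl⟩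
  · have := I.PR_lt he.le h1
    omega
  · have := I.hUV e he h1
    have := bb_le (I := I) (e := e) (s := s)
    omega
  · have := dc_lt h1
    have := I.hUV e he this.2.2.2
    omega

theorem nd0 {e : ℕ} : ¬ dsp I e 0 := by
  rintro (h | ⟨h, _⟩)
  · have := h.2.2.1
    unfold xs at this
    omega
  · omega

theorem Qs_start {e τ : ℕ} (h : QR I e τ) : Qs I e 0 τ := by
  obtain ⟨w, h1, rfl⟩ := h
  exact Or.inl ⟨w, h1, rfl, fun h => nd0 h.1⟩

theorem Q_bound {e s i : ℕ} (he : e < I.E) (τ : ℕ) (h : Q I e s i τ) : τ ≤ 3 * I.n + 3 := by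
  rcases h with ⟨_, w, h1, rfl⟩ | ⟨_, ⟨_, ⟨_, h⟩ | ⟨_, h⟩⟩ | ⟨_, h | h⟩⟩
  · have := I.PR_lt (show e + 1 ≤ I.E by omega) h1
    omega
  · have := Qs_bound he (Qs_start h)
    omega
  · have := Qs_bound he h
    omega
  · have := Qs_bound he h
    omega
  · exact h.2.2.1

theorem prog_ev {e s i : ℕ} (hs : s < M1 I + 1) (hi : i < 3 * I.n + 5) :
    (H.prog I hkl).ev ((e * (M1 I + 1) + s) * (3 * I.n + 5) + i) = ev I e s i :=
  Prog.seq3_eval (T := ev I) (e := e) hs hi

theorem Qs_last {e : ℕ} (he : e < I.E) {τ : ℕ} (h : Qs I e (M1 I) τ) :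
    QR I e τ ∨ (I.on e ∧ I.PR e (I.U e) ∧ τ = 3 * I.V e + 1) := by
  have hx : xs I e (M1 I) = 3 * I.U e + 3 * I.n := by
    unfold xs M1
    omega
  have hnd : ¬ dsp I e (M1 I) := by
    rintro (h | ⟨h, _⟩)
    · have := I.hUV e he h.1
      have := h.2.2.2
      omega
    · unfold M1 at h
      omega
  rcases h with ⟨w, h1, rfl, _⟩ | ⟨h1, h2, rfl⟩ | ⟨h1, h2, rfl⟩
  · exact Or.inl ⟨w, h1, rfl⟩
  · right
    refine ⟨h1, h2, ?_⟩
    have := I.hUV e he h1
    unfold bb
    rw [hx]
    omega
  · exact absurd h1 hnd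

theorem M1_pos : 0 < M1 I := by
  have := I.hn
  unfold M1
  omega

/-- Main events. -/
theorem main_ok {e s : ℕ} (he : e < I.E) (hs : s < M1 I) :
    (H.prog I hkl).sys.EvOK ((e * (M1 I + 1) + s) * (3 * I.n + 5) + 0)
      ((H.prog I hkl).In (TQ (Q I e s 0))) ((H.prog I hkl).In (TQ (Q I e s 1))) := by
  have hk : (e * (M1 I + 1) + s) * (3 * I.n + 5) + 0 < (H.prog I hkl).K :=
    TI.idx_lt he (by omega) (by omega)
  have hev := prog_ev (H := H) (I := I) (hkl := hkl) (e := e) (show s < M1 I + 1 by omega)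
    (show 0 < 3 * I.n + 5 by omega)
  have hev' : ev I e s 0 = evm I e s := by
    unfold ev
    rw [if_neg (by omega), if_pos rfl]
  rw [hev'] at hev
  have hQ : ∀ τ, Q I e s 0 τ → τ ≤ 3 * I.n + 3 := Q_bound he
  have hin : ∀ {τ}, Q I e s 0 τ → Qs I e s τ := by
    rintro τ (⟨h, _⟩ | ⟨_, ⟨_, ⟨h', h⟩ | ⟨_, h⟩⟩ | ⟨h, _⟩⟩)
    · omega
    · subst h'
      exact Qs_start h
    · exact h
    · omega
  have hout : ∀ {τ}, Qs I e (s + 1) τ → Q I e s 1 τ := fun h =>
    Or.inr ⟨by omega, Or.inr ⟨by omega, Or.inl h⟩⟩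
  have hbad : ∀ {τ}, I.on e → ¬ Leg I e (s + 1) τ → τ ≤ 3 * I.n + 3 → Q I e s 1 τ :=
    fun h1 h2 h3 => Or.inr ⟨by omega, Or.inr ⟨by omega, Or.inr ⟨h1, h2, h3, by omega⟩⟩⟩
  by_cases h1 : ¬ I.on e ∨ 3 * I.V e ≤ xs I e s
  · -- nothing happens
    have hev2 : evm I e s = ⟨0, 0, 0⟩ := by
      unfold evm
      rw [if_pos h1]
    rw [hev2] at hev
    refine tr_noop hk hQ (by rw [hev]) fun τ h => hout ?_
    have hnd : ∀ s', s ≤ s' → ¬ dsp I e s' := by
      intro s' hs' h
      have := dc_lt h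
      rcases h1 with h1 | h1
      · exact h1 this.2.2.2
      · unfold dc xs at this
        unfold xs at h1
        split_ifs at this <;> omega
    rcases hin h with ⟨w, h2, rfl, h3⟩ | ⟨h2, h3, rfl⟩ | ⟨h2, h3, rfl⟩
    · exact Or.inl ⟨w, h2, rfl, fun h => hnd _ (by omega) h.1⟩
    · refine Or.inr (Or.inl ⟨h2, h3, ?_⟩)
      rcases h1 with h1 | h1
      · exact absurd h2 h1
      · unfold bb xs
        unfold xs at h1
        omega
    · exact absurd h2 (hnd _ le_rfl)
  push Not at h1
  obtain ⟨hon, hxV⟩ := h1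
  have hUV := I.hUV e he hon
  rcases Nat.mod_two_eq_zero_or_one s with hs2 | hs2
  · -- even rounds
    have hx1 : xs I e (s + 1) = xs I e s := by unfold xs; omega
    have hb0 : bb I e s = xs I e s := by unfold bb; omega
    have hb1 : bb I e (s + 1) = xs I e s + 1 := by unfold bb; rw [hx1]; omega
    by_cases hs0 : s = 0
    · subst hs0
      have hx : xs I e 0 = 3 * I.U e := by unfold xs; omega
      have hev2 : evm I e 0 = ⟨xs I e 0, 0, 2⟩ := by
        unfold evm
        rw [if_neg (by rw [not_or, not_not]; exact ⟨hon, by omega⟩), if_pos rfl, if_pos rfl]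
      rw [hev2] at hev
      have hnd0 : ¬ dsp I e 0 := by
        rintro (h | ⟨h, _⟩)
        · have := h.2.2.1
          omega
        · omega
      have hnd1 : ¬ dsp I e (0 + 1) := by
        rintro (h | ⟨_, h⟩)
        · rw [hx1, hx] at h
          have := h.2.2.1
          omega
        · rw [hx1, hx] at h
          have := h.2.1
          omega
      refine tr_ra hk hQ hev fun τ h => ?_
      rcases hin h with ⟨w, h2, rfl, h3⟩ | ⟨h2, h3, rfl⟩ | ⟨h2, h3, rfl⟩
      · refine ⟨hout (Or.inl ⟨w, h2, rfl, fun h => hnd1 h.1⟩), ?_⟩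
        by_cases hw : w = I.U e
        · subst hw
          refine hout (Or.inr (Or.inl ⟨hon, h2, ?_⟩))
          omega
        · refine hbad hon ?_ ?_
          · rintro (⟨h4, _⟩ | ⟨_, h4⟩ | ⟨h4, _⟩)
            · omega
            · omega
            · exact hnd1 h4
          · have := I.PR_lt he.le h2
            omega
      · rw [hb0, hx]
        refine ⟨hout (Or.inl ⟨I.U e, h3, rfl, fun h => hnd1 h.1⟩), ?_⟩
        refine hout (Or.inr (Or.inl ⟨hon, h3, ?_⟩))
        omega
      · exact absurd h2 hnd0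
    · by_cases hsw : sw I e (xs I e s)
      · -- passing the track of a displaced token
        have hev2 : evm I e s = ⟨xs I e s, 0, 3⟩ := by
          unfold evm
          rw [if_neg (by rw [not_or, not_not]; exact ⟨hon, by omega⟩), if_pos hs2, if_neg hs0,
            if_neg (fun h => h.1 hsw)]
        rw [hev2] at hev
        have hd0 : dc I e s = xs I e s := by unfold dc; rw [if_pos hsw]
        have hd1 : dc I e (s + 1) = xs I e s := by unfold dc; rw [hx1, if_pos hsw]
        have hds0 : dsp I e s := Or.inl hsw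
        have hds1 : dsp I e (s + 1) := Or.inl (by rw [hx1]; exact hsw)
        obtain ⟨a1, a2, a3, a4⟩ := hsw
        refine tr_rf hk hQ hev fun τ h => ?_
        rcases hin h with ⟨w, h2, rfl, h3⟩ | ⟨h2, h3, rfl⟩ | ⟨h2, h3, rfl⟩
        · have hw : 3 * w ≠ xs I e s := fun h => h3 ⟨hds0, by omega⟩
          refine ⟨fun _ => hout (Or.inl ⟨w, h2, rfl, fun h => hw (by omega)⟩), ?_⟩
          refine hbad hon ?_ ?_
          · rintro (⟨h4, _⟩ | ⟨_, h4⟩ | ⟨_, h4⟩)
            · omega
            · omega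
            · omega
          · have := I.PR_lt he.le h2
            omega
        · refine ⟨fun h => absurd rfl (by rw [hb0] at h; exact h), ?_⟩
          refine hout (Or.inr (Or.inl ⟨hon, h3, ?_⟩))
          omega
        · refine ⟨fun _ => hout (Or.inr (Or.inr ⟨hds1, ?_, ?_⟩)), ?_⟩
          · rw [hd1]
            rwa [hd0] at h3
          · omega
          · refine hbad hon ?_ ?_
            · rintro (⟨h4, h5⟩ | ⟨_, h4⟩ | ⟨_, h4⟩)
              · exact h5 ⟨hds1, by omega⟩
              · omega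
              · omega
            · omega
      · have hnd0 : ¬ dsp I e s := by
          rintro (h | ⟨h, _⟩)
          · exact hsw h
          · omega
        have hx3 : xs I e s % 3 ≠ 0 := by
          intro h
          refine hsw ⟨hon, h, ?_, hxV⟩
          unfold xs
          omega
        by_cases hsw1 : sw I e (xs I e s + 1)
        · -- the swap
          have hev2 : evm I e s = ⟨xs I e s, 0, 6⟩ := by
            unfold evm
            rw [if_neg (by rw [not_or, not_not]; exact ⟨hon, by omega⟩), if_pos hs2,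
              if_neg hs0, if_pos ⟨hsw, hsw1⟩]
          rw [hev2] at hev
          have hds1 : dsp I e (s + 1) := Or.inr ⟨by omega, by rw [hx1]; exact hsw1⟩
          have hd1 : dc I e (s + 1) = xs I e s + 1 := by
            unfold dc
            rw [hx1, if_neg hsw]
          obtain ⟨a1, a2, a3, a4⟩ := hsw1
          refine tr_swap hk hQ hev (fun h => ?_) (fun h => ?_) fun τ h ht1 ht2 => ?_
          · rcases hin h with ⟨w, h2, h4, h3⟩ | ⟨h2, h3, _⟩ | ⟨h2, h3, _⟩
            · omega
            · refine hout (Or.inr (Or.inl ⟨hon, h3, ?_⟩))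
              omega
            · exact absurd h2 hnd0
          · rcases hin h with ⟨w, h2, h4, h3⟩ | ⟨h2, h3, h4⟩ | ⟨h2, h3, _⟩
            · refine hout (Or.inr (Or.inr ⟨hds1, ?_, ?_⟩))
              · rw [hd1]
                have : (xs I e s + 1) / 3 = w := by omega
                rwa [this]
              · omega
            · omega
            · exact absurd h2 hnd0
          · rcases hin h with ⟨w, h2, rfl, h3⟩ | ⟨h2, h3, rfl⟩ | ⟨h2, h3, _⟩
            · have hwn := I.PR_lt he.le h2
              refine ⟨by omega, hout (Or.inl ⟨w, h2, rfl, fun h => ht2 (by omega)⟩), ?_, ?_⟩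
              · refine hbad hon ?_ (by omega)
                rintro (⟨h4, _⟩ | ⟨_, h4⟩ | ⟨_, h4⟩)
                · omega
                · omega
                · omega
              · refine hbad hon ?_ (by omega)
                rintro (⟨h4, _⟩ | ⟨_, h4⟩ | ⟨_, h4⟩)
                · omega
                · omega
                · omega
            · omega
            · exact absurd h2 hnd0
        · -- an ordinary step
          have hev2 : evm I e s = ⟨xs I e s, 0, 3⟩ := by
            unfold evm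
            rw [if_neg (by rw [not_or, not_not]; exact ⟨hon, by omega⟩), if_pos hs2,
              if_neg hs0, if_neg (fun h => hsw1 h.2)]
          rw [hev2] at hev
          have hnd1 : ¬ dsp I e (s + 1) := by
            rintro (h | ⟨_, h⟩)
            · rw [hx1] at h
              exact hsw h
            · rw [hx1] at h
              exact hsw1 h
          refine tr_rf hk hQ hev fun τ h => ?_
          rcases hin h with ⟨w, h2, rfl, h3⟩ | ⟨h2, h3, rfl⟩ | ⟨h2, h3, rfl⟩
          · refine ⟨fun _ => hout (Or.inl ⟨w, h2, rfl, fun h => hnd1 h.1⟩), ?_⟩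
            refine hbad hon ?_ ?_
            · rintro (⟨h4, _⟩ | ⟨_, h4⟩ | ⟨h4, _⟩)
              · omega
              · omega
              · exact hnd1 h4
            · have := I.PR_lt he.le h2
              omega
          · refine ⟨fun h => absurd rfl (by rw [hb0] at h; exact h), ?_⟩
            refine hout (Or.inr (Or.inl ⟨hon, h3, ?_⟩))
            omega
          · exact absurd h2 hnd0
  · -- odd rounds
    have hx1 : xs I e (s + 1) = xs I e s + 1 := by unfold xs; omega
    have hb0 : bb I e s = xs I e s + 1 := by unfold bb; omega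
    have hb1 : bb I e (s + 1) = xs I e s + 1 := by unfold bb; rw [hx1]; omega
    by_cases hsw : sw I e (xs I e s)
    · have hev2 : evm I e s = ⟨xs I e s - 1, 0, 3⟩ := by
        unfold evm
        rw [if_neg (by rw [not_or, not_not]; exact ⟨hon, by omega⟩), if_neg (by omega),
          if_pos hsw]
      rw [hev2] at hev
      have hd0 : dc I e s = xs I e s := by unfold dc; rw [if_pos hsw]
      have hds0 : dsp I e s := Or.inl hsw
      obtain ⟨a1, a2, a3, a4⟩ := hsw
      have hnd1 : ¬ dsp I e (s + 1) := by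
        rintro (h | ⟨h, _⟩)
        · rw [hx1] at h
          have := h.2.1
          omega
        · omega
      refine tr_rf hk hQ hev fun τ h => ?_
      rcases hin h with ⟨w, h2, rfl, h3⟩ | ⟨h2, h3, rfl⟩ | ⟨h2, h3, rfl⟩
      · have hw : 3 * w ≠ xs I e s := fun h => h3 ⟨hds0, by omega⟩
        refine ⟨fun _ => hout (Or.inl ⟨w, h2, rfl, fun h => hnd1 h.1⟩), ?_⟩
        refine hbad hon ?_ ?_
        · rintro (⟨h4, _⟩ | ⟨_, h4⟩ | ⟨h4, _⟩)
          · omega
          · omega
          · exact hnd1 h4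
        · have := I.PR_lt he.le h2
          omega
      · refine ⟨fun _ => hout (Or.inr (Or.inl ⟨hon, h3, ?_⟩)), ?_⟩
        · omega
        · refine hbad hon ?_ ?_
          · rintro (⟨h4, _⟩ | ⟨_, h4⟩ | ⟨h4, _⟩)
            · omega
            · omega
            · exact hnd1 h4
          · omega
      · refine ⟨fun h => absurd (show dc I e s = xs I e s - 1 + 1 by omega) h, ?_⟩
        refine hout (Or.inl ⟨dc I e s / 3, h3, ?_, fun h => hnd1 h.1⟩)
        omega
    · have hev2 : evm I e s = ⟨0, 0, 0⟩ := by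
        unfold evm
        rw [if_neg (by rw [not_or, not_not]; exact ⟨hon, by omega⟩), if_neg (by omega),
          if_neg hsw]
      rw [hev2] at hev
      have hds : dsp I e (s + 1) ↔ dsp I e s := by
        unfold dsp
        rw [hx1]
        constructor
        · rintro (h | ⟨h, _⟩)
          · exact Or.inr ⟨hs2, h⟩
          · omega
        · rintro (h | ⟨_, h⟩)
          · exact absurd h hsw
          · exact Or.inl h
      have hdc : dsp I e s → dc I e (s + 1) = dc I e s := by
        intro h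
        have h' := hds.2 h
        unfold dc
        rw [if_neg hsw, hx1]
        rcases h' with h' | ⟨h', _⟩
        · rw [hx1] at h'
          rw [if_pos h']
        · omega
      refine tr_noop hk hQ (by rw [hev]) fun τ h => hout ?_
      rcases hin h with ⟨w, h2, rfl, h3⟩ | ⟨h2, h3, rfl⟩ | ⟨h2, h3, rfl⟩
      · refine Or.inl ⟨w, h2, rfl, fun h => h3 ?_⟩
        have h4 := hds.1 h.1
        exact ⟨h4, by rw [← hdc h4]; exact h.2⟩
      · exact Or.inr (Or.inl ⟨h2, h3, by omega⟩)
      · refine Or.inr (Or.inr ⟨hds.2 h2, ?_, ?_⟩)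
        · rw [hdc h2]
          exact h3
        · rw [hdc h2]

/-- Effects of the events. -/
theorem ev_ok {e s i : ℕ} (he : e < I.E) (hs : s < M1 I + 1) (hi : i < 3 * I.n + 5) :
    (H.prog I hkl).sys.EvOK ((e * (M1 I + 1) + s) * (3 * I.n + 5) + i)
      ((H.prog I hkl).In (TQ (Q I e s i))) ((H.prog I hkl).In (TQ (Q I e s (i + 1)))) := by
  have hk : (e * (M1 I + 1) + s) * (3 * I.n + 5) + i < (H.prog I hkl).K := TI.idx_lt he hs hi
  have hev := prog_ev (H := H) (I := I) (hkl := hkl) (e := e) hs hi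
  have hQ : ∀ τ, Q I e s i τ → τ ≤ 3 * I.n + 3 := Q_bound he
  rcases Nat.lt_or_ge s (M1 I) with hsM | hsM
  swap
  · -- the last round
    have hsM' : s = M1 I := by omega
    have hcase : ∀ {τ}, Q I e s i τ → QR I (e + 1) τ ∨ (i = 0 ∧
        (QR I e τ ∨ (I.on e ∧ I.PR e (I.U e) ∧ τ = 3 * I.V e + 1))) := by
      have hM := M1_pos (I := I)
      rintro τ (⟨_, h⟩ | ⟨h1, ⟨h2, ⟨h3, _⟩ | ⟨_, h3⟩⟩ | ⟨h2, _⟩⟩)
      · exact Or.inl h
      · omega
      · right
        rw [hsM'] at h3
        exact ⟨h2, Qs_last he h3⟩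
      · omega
    have hout : ∀ {τ}, QR I (e + 1) τ → Q I e s (i + 1) τ := fun h =>
      Or.inl ⟨Or.inr ⟨hsM', by omega⟩, h⟩
    by_cases h0 : i = 0 ∧ I.kl e
    · have hev' : ev I e s i = ⟨3 * I.U e, 0, 1⟩ := by
        unfold ev
        rw [if_pos hsM', if_pos h0]
      rw [hev'] at hev
      refine tr_kill hk hQ hev (τ0 := 3 * I.U e + 1) (by push_cast; ring) fun τ h hne => hout ?_
      rcases hcase h with h | ⟨_, ⟨w, h1, rfl⟩ | ⟨h1, h2, rfl⟩⟩
      · exact h
      · exact ⟨w, Or.inl ⟨h1, fun h => hne (by omega)⟩, rfl⟩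
      · exact ⟨I.V e, Or.inr ⟨h1, h2, rfl⟩, rfl⟩
    · have hev' : ev I e s i = ⟨0, 0, 0⟩ := by
        unfold ev
        rw [if_pos hsM', if_neg h0]
      refine tr_noop hk hQ (by rw [hev, hev']) fun τ h => hout ?_
      rcases hcase h with h | ⟨h0', ⟨w, h1, rfl⟩ | ⟨h1, h2, rfl⟩⟩
      · exact h
      · exact ⟨w, Or.inl ⟨h1, fun h => h0 ⟨h0', h.1⟩⟩, rfl⟩
      · exact ⟨I.V e, Or.inr ⟨h1, h2, rfl⟩, rfl⟩
  rcases Nat.eq_zero_or_pos i with hi0 | hi0
  · subst hi0
    exact main_ok he hsM
  · have hcase : ∀ {τ}, Q I e s i τ → Qs I e (s + 1) τ ∨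
        (I.on e ∧ ¬ Leg I e (s + 1) τ ∧ τ ≤ 3 * I.n + 3 ∧ i ≤ τ + 1) := by
      rintro τ (⟨h, _⟩ | ⟨_, ⟨h, _⟩ | ⟨_, h⟩⟩)
      · omega
      · omega
      · exact h
    have hout : ∀ {τ}, (Qs I e (s + 1) τ ∨
        (I.on e ∧ ¬ Leg I e (s + 1) τ ∧ τ ≤ 3 * I.n + 3 ∧ i + 1 ≤ τ + 1)) →
        Q I e s (i + 1) τ := fun h => Or.inr ⟨by omega, Or.inr ⟨by omega, h⟩⟩
    by_cases h1 : ¬ I.on e ∨ Leg I e (s + 1) (i - 1)
    · have hev' : ev I e s i = ⟨0, 0, 0⟩ := by
        unfold ev
        rw [if_neg (by omega), if_neg (by omega), if_pos h1]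
      refine tr_noop hk hQ (by rw [hev, hev']) fun τ h => hout ?_
      rcases hcase h with h | ⟨h2, h3, h4, h5⟩
      · exact Or.inl h
      · right
        refine ⟨h2, h3, h4, ?_⟩
        rcases h1 with h1 | h1
        · exact absurd h2 h1
        · have : τ ≠ i - 1 := by
            rintro rfl
            exact h3 h1
          omega
    · have hev' : ev I e s i = ⟨rx (i - 1), ry (i - 1), 1⟩ := by
        unfold ev
        rw [if_neg (by omega), if_neg (by omega), if_neg h1]
      rw [hev'] at hev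
      refine tr_kill hk hQ hev (trk _) fun τ h hne => hout ?_
      rcases hcase h with h | ⟨h2, h3, h4, h5⟩
      · exact Or.inl h
      · exact Or.inr ⟨h2, h3, h4, by omega⟩

theorem T_last : Prog.seq3 (M1 I + 1) (3 * I.n + 5) (fun e s i => TQ (Q I e s i))
    (H.prog I hkl).K = TQ (Q I I.E 0 0) := by
  have := Prog.seq3_eval (T := fun e s i => TQ (Q I e s i)) (e := I.E)
    (show 0 < M1 I + 1 by omega) (show 0 < 3 * I.n + 5 by omega)
  simpa [prog] using this

theorem Q_start {e τ : ℕ} : Q I e 0 0 τ ↔ QR I e τ := by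
  have hM := M1_pos (I := I)
  constructor
  · rintro (⟨h, _⟩ | ⟨_, ⟨_, ⟨_, h⟩ | ⟨h, _⟩⟩ | ⟨h, _⟩⟩)
    · omega
    · exact h
    · omega
    · omega
  · exact fun h => Or.inr ⟨by omega, Or.inl ⟨rfl, Or.inl ⟨rfl, h⟩⟩⟩

/-- Soundness. -/
theorem sound {w : ℕ} (h : ReflTransGen (H.prog I hkl).sys.Step (0, 0)
    (cv ((H.prog I hkl).fin (3 * w) 0))) : I.PR I.E w := by
  have hM := M1_pos (I := I)
  have h1 := Prog.soundP (P := H.prog I hkl)
    (fun k => Prog.seq3 (M1 I + 1) (3 * I.n + 5) (fun e s i => TQ (Q I e s i)) k) ?_ ?_ ?_ h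
  · obtain ⟨x, y, h2, h3⟩ := h1
    simp only [T_last] at h2
    obtain ⟨τ, h4, rfl, rfl⟩ := h2
    obtain ⟨w', h5, rfl⟩ := Q_start.1 h4
    rw [ce_iff, trk] at h3
    have : w' = w := by push_cast at h3; omega
    rwa [← this]
  · have := Prog.seq3_eval (T := fun e s i => TQ (Q I e s i)) (e := 0)
      (show 0 < M1 I + 1 by omega) (show 0 < 3 * I.n + 5 by omega)
    simp only [zero_mul, add_zero] at this
    show Prog.seq3 (M1 I + 1) (3 * I.n + 5) (fun e s i => TQ (Q I e s i)) 0 0 0
    rw [this]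
    exact ⟨1, Q_start.2 ⟨0, rfl, rfl⟩, rfl, rfl⟩
  · intro k hk
    refine Prog.run3 (E := I.E) (by omega) (by omega) (fun e s i => TQ (Q I e s i))
      (fun e he s hs i hi => ev_ok he hs hi) (fun e he s hs => ?_) (fun e he => ?_) k hk
    · refine Prog.in_mono ?_
      rintro x y ⟨τ, h, rfl, rfl⟩
      refine Prog.Mem.of ⟨τ, ?_, rfl, rfl⟩
      rcases h with ⟨h1, h2⟩ | ⟨h1, ⟨h2, _⟩ | ⟨_, h2 | ⟨_, _, h2, h3⟩⟩⟩
      · exact Or.inl ⟨by omega, h2⟩
      · omega
      · exact Or.inr ⟨by omega, Or.inl ⟨rfl, Or.inr ⟨by omega, h2⟩⟩⟩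
      · omega
    · refine Prog.in_mono ?_
      rintro x y ⟨τ, h, rfl, rfl⟩
      refine Prog.Mem.of ⟨τ, ?_, rfl, rfl⟩
      rcases h with ⟨h1, h2⟩ | ⟨h1, h2⟩
      · exact Q_start.2 h2
      · omega
  · intro x y h2
    simp only [T_last] at h2
    obtain ⟨τ, h4, rfl, rfl⟩ := h2
    obtain ⟨w', h5, rfl⟩ := Q_start.1 h4
    have := I.PR_lt le_rfl h5
    change rx (3 * w' + 1) + ry (3 * w' + 1) ≤ 3 * I.n + 4 + 1
    simp only [rx, ry]
    split_ifs <;> omega

/-- The index of an event. -/
def ix (I : Ins) (e s i : ℕ) : ℕ := (e * (M1 I + 1) + s) * (3 * I.n + 5) + i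

theorem ix_next (e s : ℕ) : ix I e s (3 * I.n + 5) = ix I e (s + 1) 0 := by
  unfold ix; ring

theorem ix_end (e : ℕ) : ix I e (M1 I + 1) 0 = ix I (e + 1) 0 0 := by
  unfold ix; ring

theorem ix_lt {e s i : ℕ} (he : e < I.E) (hs : s < M1 I + 1) (hi : i < 3 * I.n + 5) :
    ix I e s i < (H.prog I hkl).K := TI.idx_lt he hs hi

theorem ix_ev {e s i : ℕ} (hs : s < M1 I + 1) (hi : i < 3 * I.n + 5) :
    (H.prog I hkl).ev (ix I e s i) = ev I e s i := prog_ev hs hi

/-- A token that is not hit by the kills passes. -/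
theorem rc_event {e s i x y : ℕ} (he : e < I.E) (hs : s < M1 I + 1) (hi : i < 3 * I.n + 5)
    (h : (H.prog I hkl).RC (ix I e s i) x y) (h6 : (ev I e s i).kd ≠ 6)
    (hn : Fs (ev I e s i).kd Fl.k1 → (x : ℤ) - y ≠ (ev I e s i).x - (ev I e s i).y) :
    (H.prog I hkl).RC (ix I e s (i + 1)) x y := by
  have hev := ix_ev (H := H) (I := I) (hkl := hkl) (e := e) hs hi
  refine Prog.rc_pass (ix_lt he hs hi) (by rw [hev]; exact h6) h ?_
  rw [hev, ce_iff]
  exact fun h => hn h.1 h.2

theorem kills_pass {e s x : ℕ} (he : e < I.E) (hs : s < M1 I)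
    (hleg : I.on e → Leg I e (s + 1) (x + 1)) (h : (H.prog I hkl).RC (ix I e s 1) x 0) :
    (H.prog I hkl).RC (ix I e (s + 1) 0) x 0 := by
  have key : ∀ i, 1 ≤ i → i ≤ 3 * I.n + 5 → (H.prog I hkl).RC (ix I e s i) x 0 := by
    intro i
    induction i with
    | zero => intro h; omega
    | succ i ih =>
      intro _ hi
      rcases Nat.eq_zero_or_pos i with h0 | h0
      · subst h0
        exact h
      have hev' : ev I e s i = if ¬ I.on e ∨ Leg I e (s + 1) (i - 1) then ⟨0, 0, 0⟩ else
          ⟨rx (i - 1), ry (i - 1), 1⟩ := by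
        unfold ev
        rw [if_neg (by omega), if_neg (by omega)]
      refine rc_event he (by omega) (by omega) (ih h0 (by omega)) ?_ ?_
      · rw [hev']
        split_ifs <;> simp
      · rw [hev']
        split_ifs with h1
        · simp [Fs]
        · intro _ h2
          simp only at h2
          rw [trk] at h2
          push Not at h1
          have : x + 1 = i - 1 := by push_cast at h2; omega
          exact h1.2 (this ▸ hleg h1.1)
  rw [← ix_next]
  exact key _ (by omega) le_rfl

theorem last_pass {e x : ℕ} (he : e < I.E) (hx : ¬ (I.kl e ∧ x = 3 * I.U e))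
    (h : (H.prog I hkl).RC (ix I e (M1 I) 0) x 0) :
    (H.prog I hkl).RC (ix I (e + 1) 0 0) x 0 := by
  have key : ∀ i, i ≤ 3 * I.n + 5 → (H.prog I hkl).RC (ix I e (M1 I) i) x 0 := by
    intro i
    induction i with
    | zero => exact fun _ => h
    | succ i ih =>
      intro hi
      have hev' : ev I e (M1 I) i = if i = 0 ∧ I.kl e then ⟨3 * I.U e, 0, 1⟩ else
          ⟨0, 0, 0⟩ := by
        unfold ev
        rw [if_pos rfl]
      refine rc_event he (by omega) (by omega) (ih (by omega)) ?_ ?_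
      · rw [hev']
        split_ifs <;> simp
      · rw [hev']
        split_ifs with h1
        · intro _ h2
          simp only at h2
          exact hx ⟨h1.2, by push_cast at h2; omega⟩
        · simp [Fs]
  rw [← ix_end, ← ix_next]
  exact key _ le_rfl

variable (I)

/-- The track of the token resting at `w`. -/
noncomputable def ps (e s w : ℕ) : ℕ := if dsp I e s ∧ 3 * w = dc I e s then 3 * w - 1 else 3 * w

variable {I}

theorem ps_leg {e s w : ℕ} : Leg I e s (ps I e s w + 1) := by
  unfold ps Leg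
  split_ifs with h
  · have := dc_lt h.1
    right; right
    exact ⟨h.1, by omega⟩
  · left
    refine ⟨by omega, fun h' => h ⟨h'.1, by omega⟩⟩

theorem rc_swap_pass' {k : ℕ} (hk : k < (H.prog I hkl).K) {X x : ℕ}
    (hev : (H.prog I hkl).ev k = ⟨X, 0, 6⟩) (h : (H.prog I hkl).RC k x 0)
    (hx : x + 1 < X ∨ X + 2 < x) : (H.prog I hkl).RC (k + 1) x 0 := by
  refine Prog.rc_swap_pass H.α2 rfl rfl rfl rfl hk (by rw [hev]) h (j := (x : ℤ) - X)
    (by omega) ?_
  have h1 := (Prog.ctr_eq (P := H.prog I hkl) k).add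
    ((((x : ℤ) - X) * (H.prog I hkl).sys.r.1, 0) : V2)
  have h2 : cv (cl (H.prog I hkl).r (H.prog I hkl).t ((H.prog I hkl).ev k).x
      ((H.prog I hkl).ev k).y) + ((((x : ℤ) - X) * (H.prog I hkl).sys.r.1, 0) : V2) =
      cv (cl (H.prog I hkl).r (H.prog I hkl).t x 0) := by
    rw [hev]
    simp only [cv, cl, Prog.sys, Prod.ext_iff, Prod.fst_add, Prod.snd_add, prog]
    push_cast
    constructor <;> ring
  rw [h2] at h1
  exact h1

theorem rest_main {e s w : ℕ} (he : e < I.E) (hs : s < M1 I)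
    (h : (H.prog I hkl).RC (ix I e s 0) (ps I e s w) 0) :
    (H.prog I hkl).RC (ix I e s 1) (ps I e (s + 1) w) 0 := by
  have hev' : ev I e s 0 = evm I e s := by
    unfold ev
    rw [if_neg (by omega), if_pos rfl]
  have hev := ix_ev (H := H) (I := I) (hkl := hkl) (e := e) (show s < M1 I + 1 by omega)
    (show 0 < 3 * I.n + 5 by omega)
  rw [hev'] at hev
  have hk : ix I e s 0 < (H.prog I hkl).K := ix_lt he (by omega) (by omega)
  by_cases h1 : ¬ I.on e ∨ 3 * I.V e ≤ xs I e s
  · have hev2 : evm I e s = ⟨0, 0, 0⟩ := by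
      unfold evm
      rw [if_pos h1]
    have hnd : ∀ s', s ≤ s' → ¬ dsp I e s' := by
      intro s' hs' h
      have := dc_lt h
      rcases h1 with h1 | h1
      · exact h1 this.2.2.2
      · unfold dc xs at this
        unfold xs at h1
        split_ifs at this <;> omega
    have e1 : ∀ s', s ≤ s' → ps I e s' w = 3 * w := fun s' hs' => by
      unfold ps
      rw [if_neg fun h => hnd s' hs' h.1]
    rw [e1 s le_rfl] at h
    rw [e1 (s + 1) (by omega)]
    refine rc_event he (by omega) (by omega) h ?_ ?_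
    · rw [hev', hev2]; simp
    · rw [hev', hev2]; simp [Fs]
  push Not at h1
  obtain ⟨hon, hxV⟩ := h1
  have hUV := I.hUV e he hon
  rcases Nat.mod_two_eq_zero_or_one s with hs2 | hs2
  · have hx1 : xs I e (s + 1) = xs I e s := by unfold xs; omega
    by_cases hs0 : s = 0
    · subst hs0
      have hx : xs I e 0 = 3 * I.U e := by unfold xs; omega
      have hev2 : evm I e 0 = ⟨xs I e 0, 0, 2⟩ := by
        unfold evm
        rw [if_neg (by rw [not_or, not_not]; exact ⟨hon, by omega⟩), if_pos rfl, if_pos rfl]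
      have hnd1 : ¬ dsp I e (0 + 1) := by
        rintro (h | ⟨_, h⟩)
        · rw [hx1, hx] at h
          have := h.2.2.1
          omega
        · rw [hx1, hx] at h
          have := h.2.1
          omega
      have e0 : ps I e 0 w = 3 * w := by
        unfold ps
        rw [if_neg fun h => nd0 h.1]
      have e1 : ps I e (0 + 1) w = 3 * w := by
        unfold ps
        rw [if_neg fun h => hnd1 h.1]
      rw [e0] at h
      rw [e1]
      refine rc_event he (by omega) (by omega) h ?_ ?_
      · rw [hev', hev2]; simp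
      · rw [hev', hev2]; simp [Fs]
    · by_cases hsw : sw I e (xs I e s)
      · have hev2 : evm I e s = ⟨xs I e s, 0, 3⟩ := by
          unfold evm
          rw [if_neg (by rw [not_or, not_not]; exact ⟨hon, by omega⟩), if_pos hs2, if_neg hs0,
            if_neg (fun h => h.1 hsw)]
        have hd0 : dc I e s = xs I e s := by unfold dc; rw [if_pos hsw]
        have hd1 : dc I e (s + 1) = xs I e s := by unfold dc; rw [hx1, if_pos hsw]
        have hds0 : dsp I e s := Or.inl hsw
        have hds1 : dsp I e (s + 1) := Or.inl (by rw [hx1]; exact hsw)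
        obtain ⟨a1, a2, a3, a4⟩ := hsw
        have e1 : ps I e (s + 1) w = ps I e s w := by
          unfold ps
          rw [hd0, hd1]
          simp only [hds0, hds1]
        rw [e1]
        refine rc_event he (by omega) (by omega) h ?_ ?_
        · rw [hev', hev2]; simp
        · rw [hev', hev2]
          intro _ h2
          simp only at h2
          have h3 : ps I e s w = xs I e s := by push_cast at h2; omega
          unfold ps at h3
          rw [hd0] at h3
          split_ifs at h3 with h4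
          · omega
          · exact h4 ⟨hds0, h3⟩
      · have hnd0 : ¬ dsp I e s := by
          rintro (h | ⟨h, _⟩)
          · exact hsw h
          · omega
        have hx3 : xs I e s % 3 ≠ 0 := by
          intro h
          refine hsw ⟨hon, h, ?_, hxV⟩
          unfold xs
          omega
        have e0 : ps I e s w = 3 * w := by
          unfold ps
          rw [if_neg fun h => hnd0 h.1]
        rw [e0] at h
        by_cases hsw1 : sw I e (xs I e s + 1)
        · have hev2 : evm I e s = ⟨xs I e s, 0, 6⟩ := by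
            unfold evm
            rw [if_neg (by rw [not_or, not_not]; exact ⟨hon, by omega⟩), if_pos hs2,
              if_neg hs0, if_pos ⟨hsw, hsw1⟩]
          rw [hev2] at hev
          have hds1 : dsp I e (s + 1) := Or.inr ⟨by omega, by rw [hx1]; exact hsw1⟩
          have hd1 : dc I e (s + 1) = xs I e s + 1 := by
            unfold dc
            rw [hx1, if_neg hsw]
          obtain ⟨a1, a2, a3, a4⟩ := hsw1
          by_cases hw : 3 * w = xs I e s + 1
          · have e1 : ps I e (s + 1) w = xs I e s := by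
              unfold ps
              rw [if_pos ⟨hds1, by omega⟩]
              omega
            rw [e1]
            rw [hw] at h
            exact Prog.rc_down H.α2 rfl rfl rfl rfl hk (by rw [hev]) h (by
              rw [hev]; exact Prog.CE.refl _ _)
          · have e1 : ps I e (s + 1) w = 3 * w := by
              unfold ps
              rw [if_neg fun h => hw (by omega)]
            rw [e1]
            exact rc_swap_pass' hk hev h (by omega)
        · have hev2 : evm I e s = ⟨xs I e s, 0, 3⟩ := by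
            unfold evm
            rw [if_neg (by rw [not_or, not_not]; exact ⟨hon, by omega⟩), if_pos hs2,
              if_neg hs0, if_neg (fun h => hsw1 h.2)]
          have hnd1 : ¬ dsp I e (s + 1) := by
            rintro (h | ⟨_, h⟩)
            · rw [hx1] at h
              exact hsw h
            · rw [hx1] at h
              exact hsw1 h
          have e1 : ps I e (s + 1) w = 3 * w := by
            unfold ps
            rw [if_neg fun h => hnd1 h.1]
          rw [e1]
          refine rc_event he (by omega) (by omega) h ?_ ?_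
          · rw [hev', hev2]; simp
          · rw [hev', hev2]
            intro _ h2
            simp only at h2
            push_cast at h2
            omega
  · have hx1 : xs I e (s + 1) = xs I e s + 1 := by unfold xs; omega
    by_cases hsw : sw I e (xs I e s)
    · have hev2 : evm I e s = ⟨xs I e s - 1, 0, 3⟩ := by
        unfold evm
        rw [if_neg (by rw [not_or, not_not]; exact ⟨hon, by omega⟩), if_neg (by omega),
          if_pos hsw]
      rw [hev2] at hev
      have hd0 : dc I e s = xs I e s := by unfold dc; rw [if_pos hsw]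
      have hds0 : dsp I e s := Or.inl hsw
      obtain ⟨a1, a2, a3, a4⟩ := hsw
      have hnd1 : ¬ dsp I e (s + 1) := by
        rintro (h | ⟨h, _⟩)
        · rw [hx1] at h
          have := h.2.1
          omega
        · omega
      have e1 : ps I e (s + 1) w = 3 * w := by
        unfold ps
        rw [if_neg fun h => hnd1 h.1]
      rw [e1]
      by_cases hw : 3 * w = xs I e s
      · have e0 : ps I e s w = xs I e s - 1 := by
          unfold ps
          rw [if_pos ⟨hds0, by omega⟩]
          omega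
        rw [e0] at h
        have h2 := Prog.rc_r hk h (by rw [hev]; exact Prog.CE.refl _ _) (by rw [hev]; simp)
        have : xs I e s - 1 + 1 = 3 * w := by omega
        rw [this] at h2
        exact h2
      · have e0 : ps I e s w = 3 * w := by
          unfold ps
          rw [if_neg fun h => hw (by omega)]
        rw [e0] at h
        refine rc_event he (by omega) (by omega) h ?_ ?_
        · rw [hev', hev2]; simp
        · rw [hev', hev2]
          intro _ h2
          simp only at h2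
          push_cast at h2
          omega
    · have hev2 : evm I e s = ⟨0, 0, 0⟩ := by
        unfold evm
        rw [if_neg (by rw [not_or, not_not]; exact ⟨hon, by omega⟩), if_neg (by omega),
          if_neg hsw]
      have hds : dsp I e (s + 1) ↔ dsp I e s := by
        unfold dsp
        rw [hx1]
        constructor
        · rintro (h | ⟨h, _⟩)
          · exact Or.inr ⟨hs2, h⟩
          · omega
        · rintro (h | ⟨_, h⟩)
          · exact absurd h hsw
          · exact Or.inl h
      have hdc : dsp I e s → dc I e (s + 1) = dc I e s := by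
        intro h
        have h' := hds.2 h
        unfold dc
        rw [if_neg hsw, hx1]
        rcases h' with h' | ⟨h', _⟩
        · rw [hx1] at h'
          rw [if_pos h']
        · omega
      have e1 : ps I e (s + 1) w = ps I e s w := by
        unfold ps
        by_cases hd : dsp I e s
        · simp only [hds, hd, hdc hd]
        · rw [if_neg fun h => hd (hds.1 h.1), if_neg fun h => hd h.1]
      rw [e1]
      refine rc_event he (by omega) (by omega) h ?_ ?_
      · rw [hev', hev2]; simp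
      · rw [hev', hev2]; simp [Fs]

theorem rest_pass {e w : ℕ} (he : e < I.E) (hw : ¬ (I.kl e ∧ w = I.U e))
    (h : (H.prog I hkl).RC (ix I e 0 0) (3 * w) 0) :
    (H.prog I hkl).RC (ix I (e + 1) 0 0) (3 * w) 0 := by
  have key : ∀ s, s ≤ M1 I → (H.prog I hkl).RC (ix I e s 0) (ps I e s w) 0 := by
    intro s
    induction s with
    | zero =>
      intro _
      have e0 : ps I e 0 w = 3 * w := by
        unfold ps
        rw [if_neg fun h => nd0 h.1]
      rwa [e0]
    | succ s ih =>
      intro hs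
      exact kills_pass he (by omega) (fun _ => ps_leg) (rest_main he (by omega) (ih (by omega)))
  have h1 := key (M1 I) le_rfl
  have hnd : ¬ dsp I e (M1 I) := by
    have hx : xs I e (M1 I) = 3 * I.U e + 3 * I.n := by
      unfold xs M1
      omega
    rintro (h | ⟨h, _⟩)
    · have := I.hUV e he h.1
      have := h.2.2.2
      omega
    · unfold M1 at h
      omega
  have e1 : ps I e (M1 I) w = 3 * w := by
    unfold ps
    rw [if_neg fun h => hnd h.1]
  rw [e1] at h1
  exact last_pass he (fun h => hw ⟨h.1, by omega⟩) h1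

theorem move_main {e s : ℕ} (he : e < I.E) (hon : I.on e) (hs : s < M1 I)
    (h : (H.prog I hkl).RC (ix I e s 0) (bb I e s) 0) :
    (H.prog I hkl).RC (ix I e s 1) (bb I e (s + 1)) 0 := by
  have hev' : ev I e s 0 = evm I e s := by
    unfold ev
    rw [if_neg (by omega), if_pos rfl]
  have hev := ix_ev (H := H) (I := I) (hkl := hkl) (e := e) (show s < M1 I + 1 by omega)
    (show 0 < 3 * I.n + 5 by omega)
  rw [hev'] at hev
  have hk : ix I e s 0 < (H.prog I hkl).K := ix_lt he (by omega) (by omega)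
  have hUV := I.hUV e he hon
  by_cases h1 : 3 * I.V e ≤ xs I e s
  · have hev2 : evm I e s = ⟨0, 0, 0⟩ := by
      unfold evm
      rw [if_pos (Or.inr h1)]
    have e1 : bb I e (s + 1) = bb I e s := by
      unfold bb xs
      unfold xs at h1
      omega
    rw [e1]
    refine rc_event he (by omega) (by omega) h ?_ ?_
    · rw [hev', hev2]; simp
    · rw [hev', hev2]; simp [Fs]
  rcases Nat.mod_two_eq_zero_or_one s with hs2 | hs2
  · have hx1 : xs I e (s + 1) = xs I e s := by unfold xs; omega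
    have hb0 : bb I e s = xs I e s := by unfold bb; omega
    have hb1 : bb I e (s + 1) = xs I e s + 1 := by unfold bb; rw [hx1]; omega
    rw [hb0] at h
    rw [hb1]
    have hcase : evm I e s = ⟨xs I e s, 0, 2⟩ ∨ evm I e s = ⟨xs I e s, 0, 3⟩ ∨
        evm I e s = ⟨xs I e s, 0, 6⟩ := by
      unfold evm
      rw [if_neg (by rw [not_or, not_not]; exact ⟨hon, h1⟩), if_pos hs2]
      split_ifs <;> simp
    rcases hcase with h2 | h2 | h2
    · rw [h2] at hev
      exact Prog.rc_r hk h (by rw [hev]; exact Prog.CE.refl _ _) (by rw [hev]; simp)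
    · rw [h2] at hev
      exact Prog.rc_r hk h (by rw [hev]; exact Prog.CE.refl _ _) (by rw [hev]; simp)
    · rw [h2] at hev
      exact Prog.rc_up H.α2 rfl rfl rfl rfl hk (by rw [hev]) h
        (by rw [hev]; exact Prog.CE.refl _ _)
  · have hx1 : xs I e (s + 1) = xs I e s + 1 := by unfold xs; omega
    have hb0 : bb I e s = xs I e s + 1 := by unfold bb; omega
    have hb1 : bb I e (s + 1) = xs I e s + 1 := by unfold bb; rw [hx1]; omega
    rw [hb1]
    rw [hb0] at h
    by_cases hsw : sw I e (xs I e s)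
    · have hev2 : evm I e s = ⟨xs I e s - 1, 0, 3⟩ := by
        unfold evm
        rw [if_neg (by rw [not_or, not_not]; exact ⟨hon, h1⟩), if_neg (by omega), if_pos hsw]
      refine rc_event he (by omega) (by omega) h ?_ ?_
      · rw [hev', hev2]; simp
      · rw [hev', hev2]
        intro _ h2
        simp only at h2
        push_cast at h2
        omega
    · have hev2 : evm I e s = ⟨0, 0, 0⟩ := by
        unfold evm
        rw [if_neg (by rw [not_or, not_not]; exact ⟨hon, h1⟩), if_neg (by omega), if_neg hsw]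
      refine rc_event he (by omega) (by omega) h ?_ ?_
      · rw [hev', hev2]; simp
      · rw [hev', hev2]; simp [Fs]

theorem move_pass {e : ℕ} (he : e < I.E) (hon : I.on e)
    (h : (H.prog I hkl).RC (ix I e 0 0) (3 * I.U e) 0) :
    (H.prog I hkl).RC (ix I (e + 1) 0 0) (3 * I.V e) 0 := by
  have hUV := I.hUV e he hon
  have key : ∀ s, s ≤ M1 I → (H.prog I hkl).RC (ix I e s 0) (bb I e s) 0 := by
    intro s
    induction s with
    | zero =>
      intro _
      have e0 : bb I e 0 = 3 * I.U e := by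
        unfold bb xs
        omega
      rwa [e0]
    | succ s ih =>
      intro hs
      exact kills_pass he (by omega) (fun _ => Or.inr (Or.inl ⟨hon, rfl⟩))
        (move_main he hon (by omega) (ih (by omega)))
  have h1 := key (M1 I) le_rfl
  have e1 : bb I e (M1 I) = 3 * I.V e := by
    unfold bb xs M1
    omega
  rw [e1] at h1
  exact last_pass he (by omega) h1

/-- Completeness. -/
theorem complete {w : ℕ} (h : I.PR I.E w) : ReflTransGen (H.prog I hkl).sys.Step (0, 0)
    (cv ((H.prog I hkl).fin (3 * w) 0)) := by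
  have key : ∀ e, e ≤ I.E → ∀ w, I.PR e w →
      (H.prog I hkl).RC (ix I e 0 0) (3 * w) 0 := by
    intro e
    induction e with
    | zero =>
      intro _ w hw
      have : w = 0 := hw
      subst this
      have := Prog.rc_zero (P := H.prog I hkl)
      simpa [ix] using this
    | succ e ih =>
      intro he w hw
      rcases hw with ⟨h1, h2⟩ | ⟨h1, h2, rfl⟩
      · exact rest_pass (by omega) h2 (ih (by omega) w h1)
      · exact move_pass (by omega) h1 (ih (by omega) _ h2)
  have h1 := key I.E le_rfl w h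
  refine Prog.rc_end ?_
  have : ix I I.E 0 0 = (H.prog I hkl).K := by
    simp [ix, prog]
  rwa [this] at h1

theorem reach_iff {w : ℕ} : ReflTransGen (H.prog I hkl).sys.Step (0, 0)
    (cv ((H.prog I hkl).fin (3 * w) 0)) ↔ I.PR I.E w := ⟨sound, complete⟩

end TW

end Pool.Agent.Helper38.Shape
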