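import Pool.Agent.Helper38.Shape.Comp
import Pool.Agent.Helper38.Shape.Planar
import Pool.Agent.Helper38.Shape.TypeII

/-!
# The programs are given by logarithmic space functions
-/

namespace Pool.Agent.Helper38.Shape

open Classical Relation Pool.Agent.Helper38.LinL Pool.Agent.Helper38.LinL.LinearGrammar

set_option linter.unusedSimpArgs false
set_option linter.unusedVariables false
set_option linter.unusedSectionVars false

variable {σ : Type} {X Y : Type} [Cod X] [Cod Y]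

/-- Events given by logarithmic space functions. -/
def FnE (f : List σ → X → Ev) : Prop :=
  Fn (fun w x => (f w x).x) ∧ Fn (fun w x => (f w x).y) ∧ Fn fun w x => (f w x).kd

theorem FnE.mk {a b c : List σ → X → ℕ} (ha : Fn a) (hb : Fn b) (hc : Fn c) :
    FnE fun w x => ⟨a w x, b w x, c w x⟩ := ⟨ha, hb, hc⟩

theorem FnE.ite {P : List σ → X → Prop} [∀ w x, Decidable (P w x)] {a b : List σ → X → Ev}
    (hP : FP P) (ha : FnE a) (hb : FnE b) : FnE fun w x => if P w x then a w x else b w x := by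
  refine ⟨?_, ?_, ?_⟩
  · have := Fn.ite hP ha.1 hb.1
    convert this using 3 with w x
    by_cases h : P w x <;> simp [h]
  · have := Fn.ite hP ha.2.1 hb.2.1
    convert this using 3 with w x
    by_cases h : P w x <;> simp [h]
  · have := Fn.ite hP ha.2.2 hb.2.2
    convert this using 3 with w x
    by_cases h : P w x <;> simp [h]

theorem FnE.comp {f : List σ → Y → Ev} {g : List σ → X → Y} (hf : FnE f) (hg : Fn g) :
    FnE fun w x => f w (g w x) := ⟨hf.1.comp hg, hf.2.1.comp hg, hf.2.2.comp hg⟩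

/-- Instructions given by logarithmic space functions. -/
structure FI (I : List σ → Y → Ins) : Prop where
  n : Fn fun w y => (I w y).n
  E : Fn fun w y => (I w y).E
  on : FP fun w (z : Y × ℕ) => (I w z.1).on z.2
  U : Fn fun w (z : Y × ℕ) => (I w z.1).U z.2
  V : Fn fun w (z : Y × ℕ) => (I w z.1).V z.2
  kl : FP fun w (z : Y × ℕ) => (I w z.1).kl z.2

section

variable {I : List σ → Y → Ins} (hI : FI I) {y : List σ → X → Y} (hy : Fn y)
  {e s i x : List σ → X → ℕ} (he : Fn e) (hs : Fn s) (hi : Fn i) (hx : Fn x)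

include hI hy

theorem fi_n : Fn fun w x => (I w (y w x)).n := hI.n.comp hy

include he

theorem fi_on : FP fun w x => (I w (y w x)).on (e w x) :=
  hI.on.comp (g := fun w x => (y w x, e w x)) (hy.pair he)

theorem fi_kl : FP fun w x => (I w (y w x)).kl (e w x) :=
  hI.kl.comp (g := fun w x => (y w x, e w x)) (hy.pair he)

theorem fi_U : Fn fun w x => (I w (y w x)).U (e w x) :=
  hI.U.comp (g := fun w x => (y w x, e w x)) (hy.pair he)

theorem fi_V : Fn fun w x => (I w (y w x)).V (e w x) :=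
  hI.V.comp (g := fun w x => (y w x, e w x)) (hy.pair he)

include hs hi

theorem TI.fnE (H : TI) : FnE fun w x => H.ev (I w (y w x)) (e w x) (s w x) (i w x) := by
  have c := fun m : ℕ => Fn.const (α := σ) (X := X) m
  have hn := fi_n hI hy
  have hU := fi_U hI hy he
  have hV := fi_V hI hy he
  have hM : Fn fun w x => H.M1 (I w (y w x)) := by
    unfold TI.M1
    exact (((hn.mul (c _)).add (c _)).add (c _)).add (c _)
  have hK : Fn fun w x => H.Kr (I w (y w x)) (e w x) := by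
    unfold TI.Kr
    exact ((((hV.sub hU).mul (c _)).add (c _)).sub (c _))
  unfold TI.ev
  refine FnE.ite (FP.eq hs hM) (FnE.ite ((FP.eq hi (c 0)).and (fi_kl hI hy he))
    (FnE.mk (hU.mul (c _)) (c _) (c _)) (FnE.mk (c _) (c _) (c _))) ?_
  refine FnE.ite (fi_on hI hy he).not (FnE.mk (c _) (c _) (c _)) ?_
  refine FnE.ite (FP.eq hi (c 0)) ?_ ?_
  · refine FnE.ite (FP.eq hs (c 0)) (FnE.mk (hU.mul (c _)) (c _) (c _)) ?_
    refine FnE.ite (FP.le hs hK) (FnE.mk ((hU.mul (c _)).add (hs.sub (c 1))) (c _) (c _)) ?_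
    exact FnE.ite (FP.lt hs (hK.add (c _))) (FnE.mk ((hU.mul (c _)).add hK) (hs.sub hK) (c _))
      (FnE.mk (c _) (c _) (c _))
  · refine FnE.ite (FP.eq hs (c 0)) (FnE.ite (FP.eq (hi.sub (c 1)) hU)
      (FnE.mk (c _) (c _) (c _)) (FnE.mk ((hi.sub (c 1)).mul (c _)) (c _) (c _))) ?_
    refine FnE.ite (FP.le hs hK) (FnE.mk (((hi.sub (c 1)).mul (c _)).add (c 1)) (c _) (c _)) ?_
    exact FnE.ite (FP.lt hs (hK.add (c _))) (FnE.mk ((hi.sub (c 1)).mul (c _)) (c _) (c _))
      (FnE.mk (c _) (c _) (c _))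

theorem PL.fnE : FnE fun w x => PL.ev (I w (y w x)) (e w x) (s w x) (i w x) := by
  have c := fun m : ℕ => Fn.const (α := σ) (X := X) m
  have hn := fi_n hI hy
  have hU := fi_U hI hy he
  unfold PL.ev
  refine FnE.ite (FP.eq hs (c 2)) (FnE.ite ((FP.eq hi (c 0)).and (fi_kl hI hy he))
    (FnE.mk ((c 2).mul hU) (c _) (c _)) (FnE.mk (c _) (c _) (c _))) ?_
  refine FnE.ite (fi_on hI hy he).not (FnE.mk (c _) (c _) (c _)) ?_
  refine FnE.ite (FP.eq hi (c 0)) ?_ ?_
  · exact FnE.ite (FP.eq hs (c 0)) (FnE.mk ((c 2).mul hU) (c _) (c _))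
      (FnE.mk (((c 2).mul hU).add (c 1)) (c _) (c _))
  · exact FnE.ite ((FP.eq hs (c 0)).and (FP.eq (hi.sub (c 1)) hU)) (FnE.mk (c _) (c _) (c _))
      (FnE.mk (((c 2).mul (hi.sub (c 1))).add (c 1)) (c _) (c _))

omit hs hi in
theorem TW.fp_sw (hx : Fn x) : FP fun w z => TW.sw (I w (y w z)) (e w z) (x w z) := by
  have c := fun m : ℕ => Fn.const (α := σ) (X := X) m
  unfold TW.sw
  exact (fi_on hI hy he).and ((FP.eq (hx.mod (c 3)) (c 0)).and
    ((FP.lt ((c 3).mul (fi_U hI hy he)) hx).and (FP.lt hx ((c 3).mul (fi_V hI hy he)))))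

omit hi in
theorem TW.fn_xs : Fn fun w z => TW.xs (I w (y w z)) (e w z) (s w z) := by
  have c := fun m : ℕ => Fn.const (α := σ) (X := X) m
  unfold TW.xs
  exact ((c 3).mul (fi_U hI hy he)).add (hs.div (c 2))

omit hi in
theorem TW.fn_bb : Fn fun w z => TW.bb (I w (y w z)) (e w z) (s w z) := by
  have c := fun m : ℕ => Fn.const (α := σ) (X := X) m
  have h1 := (TW.fn_xs hI hy he hs).add (hs.mod (c 2))
  have h2 := (c 3).mul (fi_V hI hy he)
  have := Fn.ite (FP.le h1 h2) h1 h2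
  unfold TW.bb
  convert this using 3 with w z
  split_ifs with h
  · exact min_eq_left h
  · exact min_eq_right (by omega)

omit hi in
theorem TW.fp_dsp : FP fun w z => TW.dsp (I w (y w z)) (e w z) (s w z) := by
  have c := fun m : ℕ => Fn.const (α := σ) (X := X) m
  have hx := TW.fn_xs hI hy he hs
  unfold TW.dsp
  exact (TW.fp_sw hI hy he hx).or ((FP.eq (hs.mod (c 2)) (c 1)).and
    (TW.fp_sw hI hy he (hx.add (c 1))))

omit hi in
theorem TW.fn_dc : Fn fun w z => TW.dc (I w (y w z)) (e w z) (s w z) := by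
  have hx := TW.fn_xs hI hy he hs
  unfold TW.dc
  exact Fn.ite (TW.fp_sw hI hy he hx) hx (hx.succ)

omit hi in
theorem TW.fp_leg (hx : Fn x) : FP fun w z => TW.Leg (I w (y w z)) (e w z) (s w z) (x w z) := by
  have c := fun m : ℕ => Fn.const (α := σ) (X := X) m
  have hd := TW.fp_dsp hI hy he hs
  have hdc := TW.fn_dc hI hy he hs
  unfold TW.Leg
  exact ((FP.eq (hx.mod (c 3)) (c 1)).and (hd.and (FP.eq hx (hdc.add (c 1)))).not).or
    (((fi_on hI hy he).and (FP.eq hx ((TW.fn_bb hI hy he hs).add (c 1)))).or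
    (hd.and (FP.eq hx hdc)))

theorem TW.fnE : FnE fun w x => TW.ev (I w (y w x)) (e w x) (s w x) (i w x) := by
  have c := fun m : ℕ => Fn.const (α := σ) (X := X) m
  have hn := fi_n hI hy
  have hU := fi_U hI hy he
  have hV := fi_V hI hy he
  have hM : Fn fun w x => TW.M1 (I w (y w x)) := by
    unfold TW.M1
    exact (c 6).mul hn
  have hx := TW.fn_xs hI hy he hs
  have hsw := TW.fp_sw hI hy he hx
  have hm : FnE fun w x => TW.evm (I w (y w x)) (e w x) (s w x) := by
    unfold TW.evm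
    refine FnE.ite ((fi_on hI hy he).not.or (FP.le ((c 3).mul hV) hx))
      (FnE.mk (c _) (c _) (c _)) ?_
    refine FnE.ite (FP.eq (hs.mod (c 2)) (c 0)) ?_ ?_
    · refine FnE.ite (FP.eq hs (c 0)) (FnE.mk hx (c _) (c _)) ?_
      exact FnE.ite (hsw.not.and (TW.fp_sw hI hy he (hx.add (c 1)))) (FnE.mk hx (c _) (c _))
        (FnE.mk hx (c _) (c _))
    · exact FnE.ite hsw (FnE.mk (hx.sub (c 1)) (c _) (c _)) (FnE.mk (c _) (c _) (c _))
  have hi1 := hi.sub (c 1)
  unfold TW.ev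
  refine FnE.ite (FP.eq hs hM) (FnE.ite ((FP.eq hi (c 0)).and (fi_kl hI hy he))
    (FnE.mk ((c 3).mul hU) (c _) (c _)) (FnE.mk (c _) (c _) (c _))) ?_
  refine FnE.ite (FP.eq hi (c 0)) hm ?_
  refine FnE.ite ((fi_on hI hy he).not.or (TW.fp_leg hI hy he (hs.add (c 1)) hi1))
    (FnE.mk (c _) (c _) (c _)) (FnE.mk ?_ ?_ (c _))
  · unfold TW.rx
    exact hi1.sub (c 1)
  · unfold TW.ry
    exact Fn.ite (FP.eq hi1 (c 0)) (c 1) (c 0)

end

theorem FnE.seq3 {L1 L2 : List σ → Y → ℕ} (h1 : Fn L1) (h2 : Fn L2)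
    {T : List σ → Y → ℕ → ℕ → ℕ → Ev}
    (hT : FnE fun w (z : Y × ℕ × ℕ × ℕ) => T w z.1 z.2.1 z.2.2.1 z.2.2.2) :
    FnE fun w (z : Y × ℕ) => Prog.seq3 (L1 w z.1) (L2 w z.1) (T w z.1) z.2 := by
  have g1 : Fn fun w (z : Y × ℕ) => L1 w z.1 := h1.comp Fn.id.fst
  have g2 : Fn fun w (z : Y × ℕ) => L2 w z.1 := h2.comp Fn.id.fst
  have k : Fn fun (w : List σ) (z : Y × ℕ) => z.2 := Fn.id.snd
  exact hT.comp (g := fun w (z : Y × ℕ) => (z.1, z.2 / L2 w z.1 / L1 w z.1,
    z.2 / L2 w z.1 % L1 w z.1, z.2 % L2 w z.1))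
    (Fn.id.fst.pair (((k.div g2).div g1).pair (((k.div g2).mod g1).pair (k.mod g2))))

section reach

variable {I : List σ → Y → Ins} (hI : FI I)
  (hkl : ∀ w y, ∀ e < (I w y).E, (I w y).kl e → (I w y).U e < (I w y).n)
  {f : List σ → Y → ℕ} (hf : Fn f)

include hI hkl hf

/-- Instructions are executed by walks with three steps in general position. -/
theorem FP.pr_TI (H : TI) (h : InL (GG H.g H.r H.t).language) :
    FP fun w y => (I w y).PR (I w y).E (f w y) := by
  have c := fun m : ℕ => Fn.const (α := σ) (X := Y) m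
  have hM : Fn fun w y => H.M1 (I w y) + 1 := by
    unfold TI.M1
    exact ((((hI.n.mul (c _)).add (c _)).add (c _)).add (c _)).add (c 1)
  have hev : FnE fun w (z : Y × ℕ) => ((H.prog (I w z.1) (hkl w z.1)).ev z.2) :=
    FnE.seq3 (T := fun w y e s i => H.ev (I w y) e s i) hM (hI.n.add (c 1))
      (H.fnE hI Fn.id.fst Fn.id.snd.fst Fn.id.snd.snd.fst Fn.id.snd.snd.snd)
  refine (FP.reach (a := 0) h (fun w y => H.prog (I w y) (hkl w y))
    (fun w y => ⟨rfl, rfl, rfl, rfl⟩) ((hI.E.mul hM).mul (hI.n.add (c 1)))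
    ((((hI.n.mul (c _)).add (c _)).add (c _)).add (c 2)) hev.1 hev.2.1 hev.2.2
    (hf.mul (c H.N)) (c 0)).congr fun w y => ?_
  exact TI.reach_iff.symm

/-- Instructions are executed by walks with the steps `(a, b)`, `(α a, 0)`, `(0, α b)`. -/
theorem FP.pr_TW (H : TW)
    (h : InL (GG H.g (H.α * H.g.1, 0) (0, H.α * H.g.2)).language) :
    FP fun w y => (I w y).PR (I w y).E (f w y) := by
  have c := fun m : ℕ => Fn.const (α := σ) (X := Y) m
  have hM : Fn fun w y => TW.M1 (I w y) + 1 := by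
    unfold TW.M1
    exact ((c 6).mul hI.n).add (c 1)
  have h5 : Fn fun w y => 3 * (I w y).n + 5 := ((c 3).mul hI.n).add (c 5)
  have hev : FnE fun w (z : Y × ℕ) => ((H.prog (I w z.1) (hkl w z.1)).ev z.2) :=
    FnE.seq3 (T := fun w y e s i => TW.ev (I w y) e s i) hM h5
      (TW.fnE hI Fn.id.fst Fn.id.snd.fst Fn.id.snd.snd.fst Fn.id.snd.snd.snd)
  refine (FP.reach (a := H.α) h (fun w y => H.prog (I w y) (hkl w y))
    (fun w y => ⟨rfl, rfl, rfl, rfl⟩) ((hI.E.mul hM).mul h5)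
    (((c 3).mul hI.n).add (c 4)) hev.1 hev.2.1 hev.2.2
    ((c 3).mul hf) (c 0)).congr fun w y => ?_
  exact TW.reach_iff.symm

/-- Instructions with moves to the next state are executed by walks with two steps. -/
theorem FP.pr_PL (H : PL) (h : InL (GG H.g H.r H.r).language)
    (hV : ∀ w y, ∀ e < (I w y).E, (I w y).on e → (I w y).V e = (I w y).U e + 1) :
    FP fun w y => (I w y).PR (I w y).E (f w y) := by
  have c := fun m : ℕ => Fn.const (α := σ) (X := Y) m
  have h1 : Fn fun w y => (I w y).n + 1 := hI.n.add (c 1)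
  have hev : FnE fun w (z : Y × ℕ) => ((H.prog (I w z.1) (hkl w z.1)).ev z.2) :=
    FnE.seq3 (T := fun w y e s i => PL.ev (I w y) e s i) (c 3) h1
      (PL.fnE hI Fn.id.fst Fn.id.snd.fst Fn.id.snd.snd.fst Fn.id.snd.snd.snd)
  refine (FP.reach (a := 0) h (fun w y => H.prog (I w y) (hkl w y))
    (fun w y => ⟨rfl, rfl, rfl, rfl⟩) ((hI.E.mul (c 3)).mul h1)
    (((c 2).mul hI.n).add (c 2)) hev.1 hev.2.1 hev.2.2
    ((c 2).mul hf) (c 0)).congr fun w y => ?_
  exact (PL.reach_iff (hV w y)).symm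

end reach

end Pool.Agent.Helper38.Shape
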