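import Pool.Agent.Helper38.Shape.Sem
import Pool.Agent.Helper38.LinTwo.Hard

/-!
# The grammar of walks
-/

namespace Pool.Agent.Helper38.Shape

open Classical Relation Pool.Agent.Helper38.LinL Pool.Agent.Helper38.LinL.LinearGrammar
open Pool.Agent.Helper38.LinTwo (LStep pairD_iff_loop mt_one)

set_option linter.unusedSimpArgs false
set_option linter.unusedVariables false
set_option linter.unusedSectionVars false

/-- Letters: the side and the marks. -/
abbrev Lt : Type := Bool × (Fl → Bool)

/-- The right-hand sides `u S v` of the rules. -/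
def Rl (g r t : ℕ × ℕ) (u v : List Lt) : Prop :=
  (∀ x ∈ u, x.1 = true) ∧ (∀ x ∈ v, x.1 = false) ∧
  (((u.length, v.length) = g ∧ ∀ x y, u[0]? = some x → v.reverse[0]? = some y →
      ¬ (x.2 Fl.k1 = true ∧ y.2 Fl.k1 = true) ∧ ¬ (x.2 Fl.k2 = true ∧ y.2 Fl.k2 = true)) ∨
    ((u.length, v.length) = r ∧ (∀ x, u[0]? = some x → x.2 Fl.jr = true) ∧
      ∀ y, v.reverse[0]? = some y → y.2 Fl.jr = true) ∨
    ((u.length, v.length) = t ∧ (∀ x, u[0]? = some x → x.2 Fl.jt = true) ∧
      ∀ y, v.reverse[0]? = some y → y.2 Fl.jt = true))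

theorem rl_finite (g r t : ℕ × ℕ) :
    {z : Unit × List Lt × Unit × List Lt | Rl g r t z.2.1 z.2.2.2}.Finite := by
  let m := g.1 + g.2 + r.1 + r.2 + t.1 + t.2
  have h1 : {l : List Lt | l.length ≤ m}.Finite := List.finite_length_le Lt m
  have h2 := Set.Finite.prod (Set.finite_univ (α := Unit)) (h1.prod
    (Set.Finite.prod (Set.finite_univ (α := Unit)) h1))
  refine h2.subset ?_
  rintro ⟨_, u, _, v⟩ h
  simp only [Set.mem_ofPred_eq] at h
  have h3 : u.length ≤ m ∧ v.length ≤ m := by
    obtain ⟨_, _, h | h | h⟩ := h <;>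
    · have e1 := congrArg Prod.fst h.1
      have e2 := congrArg Prod.snd h.1
      simp only at e1 e2
      simp only [m]
      omega
  simp [h3.1, h3.2]

/-- The grammar of walks. It has a single nonterminal. -/
noncomputable def GG (g r t : ℕ × ℕ) : LinearGrammar Lt where
  N := Unit
  finN := inferInstance
  start := ()
  rules := (rl_finite g r t).toFinset
  term := {((), [])}

variable {g r t : ℕ × ℕ}

theorem mem_rules {A B : (GG g r t).N} {u v : List Lt} :
    (A, u, B, v) ∈ (GG g r t).rules ↔ Rl g r t u v := by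
  change (((), u, (), v) : Unit × List Lt × Unit × List Lt) ∈ (rl_finite g r t).toFinset ↔ _
  simp

theorem mem_term {B : (GG g r t).N} {s : List Lt} : (B, s) ∈ (GG g r t).term ↔ s = [] := by
  change ((B, s) : Unit × List Lt) ∈ ({((), [])} : Finset (Unit × List Lt)) ↔ _
  simp only [Finset.mem_singleton, Prod.mk.injEq]
  exact ⟨fun h => h.2, fun h => ⟨rfl, h⟩⟩

theorem letters {A B : (GG g r t).N} {u v : List Lt} (h : (GG g r t).Derives A u B v) :
    (∀ x ∈ u, x.1 = true) ∧ (∀ x ∈ v, x.1 = false) := by
  induction h with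
  | refl => exact ⟨by simp, by simp⟩
  | @step u B v u' C v' _ hr ih =>
    obtain ⟨h1, h2, _⟩ := mem_rules.1 hr
    refine ⟨fun x hx => ?_, fun x hx => ?_⟩
    · rcases List.mem_append.1 hx with hx | hx
      · exact ih.1 x hx
      · exact h1 x hx
    · rcases List.mem_append.1 hx with hx | hx
      · exact h2 x hx
      · exact ih.2 x hx

section word

/-- The word with marks `A` on the left and `B` on the right. -/
noncomputable def wd (a b : ℕ) (A B : Fl → ℕ → Prop) : List Lt :=
  (List.range (a + b)).map fun m =>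
    if m < a then (true, fun φ => decide (A φ m)) else
      (false, fun φ => decide (B φ (a + b - 1 - m)))

variable {a b : ℕ} {A B : Fl → ℕ → Prop}

theorem wd_length : (wd a b A B).length = a + b := by simp [wd]

theorem wd_get {m : ℕ} : (wd a b A B)[m]? = if m < a + b then
    some (if m < a then (true, fun φ => decide (A φ m)) else
      (false, fun φ => decide (B φ (a + b - 1 - m)))) else none := by
  unfold wd
  rw [List.getElem?_map]
  by_cases h : m < a + b
  · rw [List.getElem?_range h, if_pos h]
    simp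
  · rw [List.getElem?_eq_none (by simpa using h), if_neg h]
    rfl

theorem wd_left {m : ℕ} (h : m < a) :
    (wd a b A B)[m]? = some (true, fun φ => decide (A φ m)) := by
  rw [wd_get, if_pos (by omega), if_pos h]

theorem wd_right {q : ℕ} (h : q < b) :
    (wd a b A B)[a + b - 1 - q]? = some (false, fun φ => decide (B φ q)) := by
  rw [wd_get, if_pos (by omega), if_neg (by omega)]
  rw [show a + b - 1 - (a + b - 1 - q) = q by omega]

theorem wd_side {m : ℕ} {x : Lt} (h : (wd a b A B)[m]? = some x) :
    m < a + b ∧ (x.1 = true ↔ m < a) := by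
  rw [wd_get] at h
  split_ifs at h with h1 h2
  · rw [← Option.some.inj h]
    exact ⟨h1, by simp [h2]⟩
  · rw [← Option.some.inj h]
    exact ⟨h1, by simp [h2]⟩

theorem wd_mem : wd a b A B ∈ (GG g r t).language ↔
    ReflTransGen (LStep (GG g r t) (GG g r t).start (fun s => (wd a b A B)[s]?)
      (fun s => (wd a b A B)[a + b - 1 - s]?)) (0, 0) (a, b) := by
  have hA : ∀ u C v, ((GG g r t).start, u, C, v) ∈ (GG g r t).rules →
      (∃ x y, (GG g r t).Derives C x (GG g r t).start y) →
      C = (GG g r t).start := fun u C v _ _ => rfl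
  rw [← pairD_iff_loop hA]
  set w := wd a b A B with hw'
  have hwl : w.length = a + b := wd_length
  have hs : Spn w 0 w.length w := ⟨by simp, le_rfl, fun s hs => by simp⟩
  constructor
  · rintro ⟨u, C, v, s, h1, h2, h3⟩
    have ht : s = [] := mem_term.1 h2
    subst ht
    rw [List.append_nil] at h3
    have hl := congrArg List.length h3
    simp only [List.length_append, hwl] at hl
    have hlet := letters h1
    have hu1 : u.length ≤ a := by
      by_contra hcon
      push Not at hcon
      have h4 : w[a]? = u[a]? := by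
        rw [h3, List.getElem?_append_left hcon]
      rw [List.getElem?_eq_getElem hcon] at h4
      have h5 := hlet.1 _ (List.getElem_mem hcon)
      have h6 := (wd_side h4).2.1 h5
      omega
    have hu2 : a ≤ u.length := by
      by_contra hcon
      push Not at hcon
      have h4 : w[u.length]? = v[0]? := by
        rw [h3, List.getElem?_append_right le_rfl]
        simp
      have hv0 : 0 < v.length := by omega
      rw [List.getElem?_eq_getElem hv0] at h4
      have h5 := hlet.2 _ (List.getElem_mem hv0)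
      have h6 := (wd_side h4).2.2 hcon
      rw [h5] at h6
      exact absurd h6 (by simp)
    have hu : u.length = a := by omega
    have hv : v.length = b := by omega
    rw [show Spn w 0 w.length w ↔ Spn w 0 w.length (u ++ v) by rw [← h3],
      spn_append] at hs
    refine ⟨u, v, h1, hu, hv, ?_, ?_⟩
    · simpa using hs.1.2.2
    · have h5 := hs.2
      simp only [zero_add, hu, hwl] at h5
      exact (spn_reverse (w := w) (i := a) (j := a + b) (v := v)
        (by omega) (by omega)).2 h5
  · rintro ⟨u, v, h1, hu, hv, h3, h4⟩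
    refine ⟨u, (GG g r t).start, v, [], h1, mem_term.2 rfl, ?_⟩
    have h5 : Spn w a (a + b) v := by
      rw [← spn_reverse (by omega) (by omega)]
      exact h4
    have h6 : Spn w 0 (a + b) (u ++ v) := by
      rw [spn_append]
      simp only [zero_add, hu]
      exact ⟨⟨by omega, by omega, by simpa using h3⟩, h5⟩
    rw [List.append_nil]
    refine Mt.inj hs.2.2 h6.2.2 ?_
    have := h6.1
    omega

/-- The two lists of letters read by a rule. -/
theorem lstep_iff (ha : 0 < a) (hg : g.1 ≠ 0 ∧ g.2 ≠ 0) {p p' : ℕ × ℕ} (h1 : p.1 ≤ a) (h2 : p.2 ≤ b) :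
    LStep (GG g r t) (GG g r t).start (fun s => (wd a b A B)[s]?)
      (fun s => (wd a b A B)[a + b - 1 - s]?) p p' ↔
    p'.1 ≤ a ∧ p'.2 ≤ b ∧ ∃ q : ℕ × ℕ, p' = (p.1 + q.1, p.2 + q.2) ∧
      ((q = g ∧ ¬ (A Fl.k1 p.1 ∧ B Fl.k1 p.2) ∧ ¬ (A Fl.k2 p.1 ∧ B Fl.k2 p.2)) ∨
      (q = r ∧ (r.1 ≠ 0 → A Fl.jr p.1) ∧ (r.2 ≠ 0 → B Fl.jr p.2)) ∨
      (q = t ∧ (t.1 ≠ 0 → A Fl.jt p.1) ∧ (t.2 ≠ 0 → B Fl.jt p.2))) := by
  constructor
  · rintro ⟨u, v, hr, hp', hu, hv⟩
    obtain ⟨hu1, hv1, hr⟩ := mem_rules.1 hr
    have hlu : p.1 + u.length ≤ a := by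
      rcases Nat.eq_zero_or_pos u.length with h0 | h0
      · omega
      · have h3 := hu (u.length - 1) (by omega)
        rw [List.getElem?_eq_getElem (by omega)] at h3
        have h4 := (wd_side h3).2.1 (hu1 _ (List.getElem_mem _))
        omega
    have hvr : ∀ x ∈ v.reverse, x.1 = false := fun x hx => hv1 x (List.mem_reverse.1 hx)
    have hlv : p.2 + v.length ≤ b := by
      rcases Nat.eq_zero_or_pos v.length with h0 | h0
      · omega
      · have hl : v.length - 1 < v.reverse.length := by simp; omega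
        have h3 := hv (v.length - 1) hl
        rw [List.getElem?_eq_getElem hl] at h3
        have h4 := wd_side h3
        have h5 := hvr _ (List.getElem_mem hl)
        rw [h5] at h4
        have h6 : ¬ (a + b - 1 - (p.2 + (v.length - 1)) < a) := by
          intro h7
          exact absurd (h4.2.2 h7) (by simp)
        have h7 := h4.1
        by_contra h8
        push Not at h8
        omega
    have hA0 : u.length ≠ 0 → u[0]? = some (true, fun φ => decide (A φ p.1)) := by
      intro h0
      have h3 := hu 0 (by omega)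
      rw [← h3]
      simp only [add_zero]
      exact wd_left (by omega)
    have hB0 : v.length ≠ 0 → v.reverse[0]? = some (false, fun φ => decide (B φ p.2)) := by
      intro h0
      have h3 := hv 0 (by simp; omega)
      rw [← h3]
      simp only [add_zero]
      exact wd_right (by omega)
    subst hp'
    refine ⟨hlu, hlv, (u.length, v.length), rfl, ?_⟩
    rcases hr with ⟨h3, h4⟩ | ⟨h3, h4, h5⟩ | ⟨h3, h4, h5⟩
    · left
      refine ⟨h3, ?_⟩
      have e1 : u.length ≠ 0 := by rw [show u.length = g.1 from congrArg Prod.fst h3]; exact hg.1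
      have e2 : v.length ≠ 0 := by rw [show v.length = g.2 from congrArg Prod.snd h3]; exact hg.2
      simpa using h4 _ _ (hA0 e1) (hB0 e2)
    · right; left
      refine ⟨h3, fun h6 => ?_, fun h6 => ?_⟩
      · have e1 : u.length ≠ 0 := by rw [show u.length = r.1 from congrArg Prod.fst h3]; exact h6
        simpa using h4 _ (hA0 e1)
      · have e2 : v.length ≠ 0 := by rw [show v.length = r.2 from congrArg Prod.snd h3]; exact h6
        simpa using h5 _ (hB0 e2)
    · right; right
      refine ⟨h3, fun h6 => ?_, fun h6 => ?_⟩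
      · have e1 : u.length ≠ 0 := by rw [show u.length = t.1 from congrArg Prod.fst h3]; exact h6
        simpa using h4 _ (hA0 e1)
      · have e2 : v.length ≠ 0 := by rw [show v.length = t.2 from congrArg Prod.snd h3]; exact h6
        simpa using h5 _ (hB0 e2)
  · rintro ⟨h3, h4, q, rfl, hq⟩
    simp only at h3 h4
    let u : List Lt := (List.range q.1).map fun i => (true, fun φ => decide (A φ (p.1 + i)))
    let v' : List Lt := (List.range q.2).map fun i => (false, fun φ => decide (B φ (p.2 + i)))
    have hul : u.length = q.1 := by simp [u]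
    have hvl : v'.reverse.length = q.2 := by simp [v']
    have hu0 : ∀ x, u[0]? = some x → q.1 ≠ 0 ∧ x = (true, fun φ => decide (A φ p.1)) := by
      intro x hx
      have h5 : 0 < u.length := by
        by_contra h
        rw [List.getElem?_eq_none (by omega)] at hx
        exact absurd hx (by simp)
      rw [hul] at h5
      simp only [u, List.getElem?_map, List.getElem?_range h5, Option.map_some, add_zero] at hx
      exact ⟨by omega, (Option.some.inj hx).symm⟩
    have hv0 : ∀ x, v'[0]? = some x → q.2 ≠ 0 ∧ x = (false, fun φ => decide (B φ p.2)) := by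
      intro x hx
      have h5 : 0 < v'.length := by
        by_contra h
        rw [List.getElem?_eq_none (by omega)] at hx
        exact absurd hx (by simp)
      rw [show v'.length = q.2 by simp [v']] at h5
      simp only [v', List.getElem?_map, List.getElem?_range h5, Option.map_some, add_zero] at hx
      exact ⟨by omega, (Option.some.inj hx).symm⟩
    refine ⟨u, v'.reverse, mem_rules.2 ⟨?_, ?_, ?_⟩, ?_, ?_, ?_⟩
    · intro x hx
      simp only [u, List.mem_map] at hx
      obtain ⟨i, _, rfl⟩ := hx
      rfl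
    · intro x hx
      rw [List.mem_reverse] at hx
      simp only [v', List.mem_map] at hx
      obtain ⟨i, _, rfl⟩ := hx
      rfl
    · rw [hul, hvl, List.reverse_reverse]
      rcases hq with ⟨h5, h6⟩ | ⟨h5, h6, h7⟩ | ⟨h5, h6, h7⟩
      · left
        refine ⟨h5, fun x y hx hy => ?_⟩
        rw [(hu0 x hx).2, (hv0 y hy).2]
        simpa using h6
      · right; left
        refine ⟨h5, fun x hx => ?_, fun y hy => ?_⟩
        · rw [(hu0 x hx).2]
          have := (hu0 x hx).1
          rw [h5] at this
          simpa using h6 this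
        · rw [(hv0 y hy).2]
          have := (hv0 y hy).1
          rw [h5] at this
          simpa using h7 this
      · right; right
        refine ⟨h5, fun x hx => ?_, fun y hy => ?_⟩
        · rw [(hu0 x hx).2]
          have := (hu0 x hx).1
          rw [h5] at this
          simpa using h6 this
        · rw [(hv0 y hy).2]
          have := (hv0 y hy).1
          rw [h5] at this
          simpa using h7 this
    · rw [hul, hvl]
    · intro s hs
      rw [hul] at hs
      simp only [u, List.getElem?_map, List.getElem?_range hs, Option.map_some]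
      exact wd_left (by omega)
    · intro s hs
      rw [List.reverse_reverse] at hs ⊢
      rw [show v'.length = q.2 by simp [v']] at hs
      simp only [v', List.getElem?_map, List.getElem?_range hs, Option.map_some]
      exact wd_right (by omega)

end word

/-- Marks of the columns of a program. -/
def Prog.AX (P : Prog) (φ : Fl) (x : ℕ) : Prop := P.sys.X φ x

/-- Marks of the rows of a program. -/
def Prog.AY (P : Prog) (φ : Fl) (y : ℕ) : Prop := P.sys.Y φ y

/-- The word of the program. -/
noncomputable def Prog.word (P : Prog) (z : ℕ × ℕ) : List Lt := wd z.1 z.2 P.AX P.AY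

theorem cv_inj {p q : ℕ × ℕ} (h : cv p = cv q) : p = q := by
  simp only [cv, Prod.mk.injEq] at h
  exact Prod.ext (by exact_mod_cast h.1) (by exact_mod_cast h.2)

theorem Prog.word_mem (P : Prog) {z : ℕ × ℕ} (hz : 0 < z.1) : P.word z ∈ (GG P.g P.r P.t).language ↔
    ReflTransGen P.sys.Step (0, 0) (cv z) := by
  have hg : P.g.1 ≠ 0 ∧ P.g.2 ≠ 0 := ⟨P.g1.ne', P.g2.ne'⟩
  have z1 : ∀ n : ℕ, (n : ℤ) ≠ 0 ↔ n ≠ 0 := fun n => by omega
  unfold Prog.word
  rw [wd_mem]
  constructor
  · intro h
    have : ∀ c, ReflTransGen (LStep (GG P.g P.r P.t) (GG P.g P.r P.t).start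
        (fun s => (wd z.1 z.2 P.AX P.AY)[s]?)
        (fun s => (wd z.1 z.2 P.AX P.AY)[z.1 + z.2 - 1 - s]?)) (0, 0) c →
        c.1 ≤ z.1 ∧ c.2 ≤ z.2 ∧ ReflTransGen P.sys.Step (0, 0) (cv c) := by
      intro c hc
      induction hc with
      | refl => exact ⟨Nat.zero_le _, Nat.zero_le _, ReflTransGen.refl⟩
      | @tail p p' _ hs ih =>
        obtain ⟨h1, h2, h3⟩ := ih
        obtain ⟨h4, h5, q, rfl, hq⟩ := (lstep_iff hz hg h1 h2).1 hs
        refine ⟨h4, h5, h3.tail ⟨cv q, ?_, ?_⟩⟩
        · rcases hq with ⟨rfl, h6, h7⟩ | ⟨rfl, h6, h7⟩ | ⟨rfl, h6, h7⟩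
          · exact Or.inl ⟨rfl, h6, h7⟩
          · refine Or.inr (Or.inl ⟨rfl, fun h => h6 ?_, fun h => h7 ?_⟩)
            · exact (z1 _).1 h
            · exact (z1 _).1 h
          · refine Or.inr (Or.inr ⟨rfl, fun h => h6 ?_, fun h => h7 ?_⟩)
            · exact (z1 _).1 h
            · exact (z1 _).1 h
        · simp only [cv, Prod.ext_iff, Prod.fst_add, Prod.snd_add]
          push_cast
          exact ⟨rfl, rfl⟩
    exact (this _ h).2.2
  · intro h
    have : ∀ c, ReflTransGen P.sys.Step c (cv z) → ∀ p : ℕ × ℕ, cv p = c →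
        p.1 ≤ z.1 ∧ p.2 ≤ z.2 ∧ ReflTransGen (LStep (GG P.g P.r P.t) (GG P.g P.r P.t).start
        (fun s => (wd z.1 z.2 P.AX P.AY)[s]?)
        (fun s => (wd z.1 z.2 P.AX P.AY)[z.1 + z.2 - 1 - s]?)) p z := by
      intro c hc
      induction hc using ReflTransGen.head_induction_on with
      | refl =>
        intro p hp
        have := cv_inj hp
        subst this
        exact ⟨le_rfl, le_rfl, ReflTransGen.refl⟩
      | @head c c' hs _ ih =>
        rintro p rfl
        obtain ⟨q, hq, rfl⟩ := hs
        have hq' : ∃ q' : ℕ × ℕ, q = cv q' ∧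
            ((q' = P.g ∧ ¬ (P.AX Fl.k1 p.1 ∧ P.AY Fl.k1 p.2) ∧
              ¬ (P.AX Fl.k2 p.1 ∧ P.AY Fl.k2 p.2)) ∨
            (q' = P.r ∧ (P.r.1 ≠ 0 → P.AX Fl.jr p.1) ∧ (P.r.2 ≠ 0 → P.AY Fl.jr p.2)) ∨
            (q' = P.t ∧ (P.t.1 ≠ 0 → P.AX Fl.jt p.1) ∧ (P.t.2 ≠ 0 → P.AY Fl.jt p.2))) := by
          rcases hq with ⟨rfl, h6, h7⟩ | ⟨rfl, h6, h7⟩ | ⟨rfl, h6, h7⟩
          · exact ⟨P.g, rfl, Or.inl ⟨rfl, h6, h7⟩⟩
          · refine ⟨P.r, rfl, Or.inr (Or.inl ⟨rfl, fun h => h6 ?_, fun h => h7 ?_⟩)⟩
            · exact (z1 _).2 h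
            · exact (z1 _).2 h
          · refine ⟨P.t, rfl, Or.inr (Or.inr ⟨rfl, fun h => h6 ?_, fun h => h7 ?_⟩)⟩
            · exact (z1 _).2 h
            · exact (z1 _).2 h
        obtain ⟨q', rfl, hq'⟩ := hq'
        have hp' : cv (p.1 + q'.1, p.2 + q'.2) = cv p + cv q' := by
          simp only [cv, Prod.ext_iff, Prod.fst_add, Prod.snd_add]
          push_cast
          exact ⟨rfl, rfl⟩
        obtain ⟨h1, h2, h3⟩ := ih _ hp'
        simp only at h1 h2
        refine ⟨by omega, by omega, h3.head ?_⟩
        rw [lstep_iff hz hg (by omega) (by omega)]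
        exact ⟨h1, h2, q', rfl, hq'⟩
    exact (this _ h (0, 0) (by simp [cv])).2.2

end Pool.Agent.Helper38.Shape
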