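import Pool.Agent.Helper38.Shape.FE
import Pool.Agent.Helper75.Lin.Dag

/-!
# Reductions to walks
-/

namespace Pool.Agent.Helper38.Shape

open Classical Relation Pool.Agent.Helper38.LinL Pool.Agent.Helper38.LinL.LinearGrammar
open Pool.Agent.Helper75.Lin (DagStep nV Ed mem_iff_dag)
open Pool.Agent.Helper38.LinTwo (GStep GridStep LGGR eE eS gridStep_iff)

set_option linter.unusedSimpArgs false
set_option linter.unusedVariables false
set_option linter.unusedSectionVars false

section dag

/-- The instructions for an acyclic graph. -/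
def dagIns (N : ℕ) (hN : 0 < N) (E : ℕ → ℕ → Prop) : Ins where
  n := N
  E := N * N
  on := fun e => e / N < e % N ∧ E (e / N) (e % N)
  U := fun e => e / N
  V := fun e => e % N
  kl := fun _ => False
  hUV := fun e _ h => ⟨h.1, Nat.mod_lt _ hN⟩
  hn := hN

variable {N : ℕ} {hN : 0 < N} {E : ℕ → ℕ → Prop}

theorem dag_sound {e w : ℕ} (h : (dagIns N hN E).PR e w) :
    ReflTransGen (DagStep N E) 0 w := by
  induction e generalizing w with
  | zero =>
    have : w = 0 := h
    rw [this]
  | succ e ih =>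
    rcases h with ⟨h1, _⟩ | ⟨h1, h2, rfl⟩
    · exact ih h1
    · exact (ih h2).tail ⟨h1.1, Nat.mod_lt _ hN, h1.2⟩

theorem dag_mono {e e' w : ℕ} (h : (dagIns N hN E).PR e w) (he : e ≤ e') :
    (dagIns N hN E).PR e' w := by
  induction e' with
  | zero =>
    have : e = 0 := by omega
    rwa [this] at h
  | succ e' ih =>
    rcases Nat.lt_or_ge e' e with h1 | h1
    · have : e = e' + 1 := by omega
      rwa [this] at h
    · exact Or.inl ⟨ih h1, fun h => h.1⟩

theorem dag_complete {w : ℕ} (h : ReflTransGen (DagStep N E) 0 w) :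
    (dagIns N hN E).PR (w * N) w := by
  induction h with
  | refl => exact dag_mono (show (dagIns N hN E).PR 0 0 from rfl) (Nat.zero_le _)
  | @tail p q _ hs ih =>
    obtain ⟨h1, h2, h3⟩ := hs
    have h4 := dag_mono ih (show p * N ≤ p * N + q by omega)
    have e1 : (p * N + q) / N = p := idx_div h2
    have e2 : (p * N + q) % N = q := idx_mod h2
    have h5 : (dagIns N hN E).PR (p * N + q + 1) q := by
      refine Or.inr ⟨⟨?_, ?_⟩, ?_, ?_⟩
      · rw [e1, e2]; exact h1
      · rw [e1, e2]; exact h3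
      · show (dagIns N hN E).PR (p * N + q) ((p * N + q) / N)
        rw [e1]; exact h4
      · exact e2.symm
    refine dag_mono h5 ?_
    have : (p + 1) * N ≤ q * N := Nat.mul_le_mul_right _ h1
    rw [add_mul, one_mul] at this
    omega

theorem dag_iff {w : ℕ} (hw : w < N) : (dagIns N hN E).PR (dagIns N hN E).E w ↔
    ReflTransGen (DagStep N E) 0 w :=
  ⟨dag_sound, fun h => dag_mono (dag_complete h) (Nat.mul_le_mul_right _ hw.le)⟩

end dag

/-- The instructions for a linear grammar and a word. -/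
noncomputable def linIns {α : Type} (G : LinearGrammar α) (w : List α) (_ : Unit) : Ins :=
  dagIns (nV G w.length) (by unfold nV; omega) (Ed G w)

theorem fi_lin {α : Type} (G : LinearGrammar α) : FI (linIns G) where
  n := by
    show Fn fun w y => nV G w.length
    unfold nV
    exact ((Fn.lenSucc.mul Fn.lenSucc).mul (Fn.const _)).add (Fn.const 2)
  E := by
    show Fn fun w y => nV G w.length * nV G w.length
    have : Fn fun (w : List α) (y : Unit) => nV G w.length := by
      unfold nV
      exact ((Fn.lenSucc.mul Fn.lenSucc).mul (Fn.const _)).add (Fn.const 2)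
    exact this.mul this
  on := by
    have hN : Fn fun (w : List α) (z : Unit × ℕ) => nV G w.length := by
      unfold nV
      exact ((Fn.lenSucc.mul Fn.lenSucc).mul (Fn.const _)).add (Fn.const 2)
    have he : Fn fun (w : List α) (z : Unit × ℕ) => z.2 := Fn.id.snd
    have h1 := he.div hN
    have h2 := he.mod hN
    exact (FP.lt h1 h2).and ((Pool.Agent.Helper75.Lin.FP.ed (G := G)).comp
      (g := fun (w : List α) (z : Unit × ℕ) => (z.1, z.2 / nV G w.length, z.2 % nV G w.length))
      (Fn.id.fst.pair (h1.pair h2)))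
  U := by
    have hN : Fn fun (w : List α) (z : Unit × ℕ) => nV G w.length := by
      unfold nV
      exact ((Fn.lenSucc.mul Fn.lenSucc).mul (Fn.const _)).add (Fn.const 2)
    have he : Fn fun (w : List α) (z : Unit × ℕ) => z.2 := Fn.id.snd
    exact he.div hN
  V := by
    have hN : Fn fun (w : List α) (z : Unit × ℕ) => nV G w.length := by
      unfold nV
      exact ((Fn.lenSucc.mul Fn.lenSucc).mul (Fn.const _)).add (Fn.const 2)
    have he : Fn fun (w : List α) (z : Unit × ℕ) => z.2 := Fn.id.snd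
    exact he.mod hN
  kl := FP.false

theorem lin_iff {α : Type} (G : LinearGrammar α) (w : List α) :
    (linIns G w ()).PR (linIns G w ()).E (nV G w.length - 1) ↔ w ∈ G.language := by
  rw [mem_iff_dag]
  exact dag_iff (by unfold nV; omega)

theorem fn_nV {α : Type} (G : LinearGrammar α) :
    Fn fun (w : List α) (_ : Unit) => nV G w.length - 1 := by
  unfold nV
  exact (((Fn.lenSucc.mul Fn.lenSucc).mul (Fn.const _)).add (Fn.const 2)).sub (Fn.const 1)

/-- If the language of walks with three steps in general position is in `L` then so are all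
linear languages. -/
theorem lin_of_TI (H : TI) (h : InL (GG H.g H.r H.t).language) {α : Type}
    (G : LinearGrammar α) : InL G.language :=
  inL_of_FP _ _ (FP.pr_TI (fi_lin G) (fun _ _ _ _ h => h.elim) (fn_nV G) H h) (lin_iff G)

theorem lin_of_TW (H : TW) (h : InL (GG H.g (H.α * H.g.1, 0) (0, H.α * H.g.2)).language)
    {α : Type} (G : LinearGrammar α) : InL G.language :=
  inL_of_FP _ _ (FP.pr_TW (fi_lin G) (fun _ _ _ _ h => h.elim) (fn_nV G) H h) (lin_iff G)

section grid

/-- The instructions for a grid graph with edges `E i j` to the east and `S i j` to the south. -/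
def gridIns (n L : ℕ) (E S : ℕ → ℕ → Prop) (hE : ∀ i j, E i j → j + 1 < n) : Ins where
  n := n + 1
  E := L * n
  on := fun e => n - 1 - e % n ≤ e / n ∧ E (e / n - (n - 1 - e % n)) (n - 1 - e % n)
  U := fun e => n - 1 - e % n
  V := fun e => n - 1 - e % n + 1
  kl := fun e => ¬ (n - 1 - e % n ≤ e / n ∧ S (e / n - (n - 1 - e % n)) (n - 1 - e % n))
  hUV := fun e _ h => ⟨by omega, by have := hE _ _ h.2; omega⟩
  hn := by omega

variable {n L : ℕ} {E S : ℕ → ℕ → Prop} {hE : ∀ i j, E i j → j + 1 < n}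

/-- Reachability. -/
def GR (E S : ℕ → ℕ → Prop) (i j : ℕ) : Prop := ReflTransGen (GStep E S) (0, 0) (i, j)

/-- States in the layer `l`. -/
def GA (E S : ℕ → ℕ → Prop) (l c : ℕ) : Prop := c ≤ l ∧ GR E S (l - c) c

theorem GR_lt (hn : 0 < n) (hE : ∀ i j, E i j → j + 1 < n) {i j : ℕ} (h : GR E S i j) :
    j < n := by
  unfold GR at h
  generalize hc : (i, j) = c at h
  have : c.2 < n := by
    clear hc
    induction h with
    | refl => exact hn
    | tail _ hs ih =>
      cases hs with
      | east h => exact hE _ _ h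
      | south h => exact ih
  rw [← hc] at this
  exact this

theorem GA_succ {l c : ℕ} : GA E S (l + 1) c ↔
    (GA E S l c ∧ S (l - c) c) ∨ (1 ≤ c ∧ GA E S l (c - 1) ∧ E (l - (c - 1)) (c - 1)) := by
  constructor
  · rintro ⟨h1, h2⟩
    unfold GR at h2
    generalize hc : (l + 1 - c, c) = d at h2
    rcases ReflTransGen.cases_tail h2 with h | ⟨c', h3, h4⟩
    · rw [← hc] at h
      simp only [Prod.mk.injEq] at h
      omega
    · cases h4 with
      | @east i j hE =>
        simp only [Prod.mk.injEq] at hc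
        obtain ⟨h5, rfl⟩ := hc
        have : i = l - j := by omega
        subst this
        right
        simp only [Nat.add_sub_cancel]
        exact ⟨by omega, ⟨by omega, h3⟩, hE⟩
      | @south i j hS =>
        simp only [Prod.mk.injEq] at hc
        obtain ⟨h5, rfl⟩ := hc
        have : i = l - c := by omega
        subst this
        left
        exact ⟨⟨by omega, h3⟩, hS⟩
  · rintro (⟨⟨h1, h2⟩, h3⟩ | ⟨h0, ⟨h1, h2⟩, h3⟩)
    · refine ⟨by omega, ?_⟩
      rw [show l + 1 - c = (l - c) + 1 by omega]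
      exact h2.tail (GStep.south h3)
    · refine ⟨by omega, ?_⟩
      have := h2.tail (GStep.east h3)
      rw [show l - (c - 1) = l + 1 - c by omega, show c - 1 + 1 = c by omega] at this
      exact this

theorem grid_inv (hn : 0 < n) (l a : ℕ) (ha : a ≤ n)
    (h0 : ∀ c, (gridIns n L E S hE).PR (l * n) c ↔ GA E S l c) : ∀ c,
    (gridIns n L E S hE).PR (l * n + a) c ↔
      (c < n - a ∧ GA E S l c) ∨ (n - a ≤ c ∧ c < n ∧ ((GA E S l c ∧ S (l - c) c) ∨
        (n - a < c ∧ GA E S l (c - 1) ∧ E (l - (c - 1)) (c - 1)))) := by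
  induction a with
  | zero =>
    intro c
    rw [add_zero, h0]
    constructor
    · intro h
      exact Or.inl ⟨GR_lt hn hE h.2, h⟩
    · rintro (h | h)
      · exact h.2
      · omega
  | succ a ih =>
    intro c
    have ih' := ih (by omega)
    have hdiv : (l * n + a) / n = l := idx_div (by omega)
    have hmod : (l * n + a) % n = a := idx_mod (by omega)
    have hU : (gridIns n L E S hE).U (l * n + a) = n - 1 - a := by
      show n - 1 - (l * n + a) % n = _
      rw [hmod]
    have hV : (gridIns n L E S hE).V (l * n + a) = n - 1 - a + 1 := by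
      show n - 1 - (l * n + a) % n + 1 = _
      rw [hmod]
    have hon : (gridIns n L E S hE).on (l * n + a) ↔ n - 1 - a ≤ l ∧
        E (l - (n - 1 - a)) (n - 1 - a) := by
      show (n - 1 - (l * n + a) % n ≤ (l * n + a) / n ∧ _) ↔ _
      rw [hmod, hdiv]
    have hkl : (gridIns n L E S hE).kl (l * n + a) ↔ ¬ (n - 1 - a ≤ l ∧
        S (l - (n - 1 - a)) (n - 1 - a)) := by
      show (¬ (n - 1 - (l * n + a) % n ≤ (l * n + a) / n ∧ _)) ↔ _
      rw [hmod, hdiv]
    rw [← add_assoc]
    show ((gridIns n L E S hE).PR (l * n + a) c ∧ ¬ ((gridIns n L E S hE).kl (l * n + a) ∧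
        c = (gridIns n L E S hE).U (l * n + a))) ∨
      ((gridIns n L E S hE).on (l * n + a) ∧ (gridIns n L E S hE).PR (l * n + a)
        ((gridIns n L E S hE).U (l * n + a)) ∧ c = (gridIns n L E S hE).V (l * n + a)) ↔ _
    rw [hU, hV, hon, hkl, ih' c, ih' (n - 1 - a)]
    rcases lt_trichotomy c (n - 1 - a) with h1 | h1 | h1
    · constructor
      · rintro (⟨h2 | h2, _⟩ | ⟨_, _, h2⟩)
        · exact Or.inl ⟨by omega, h2.2⟩
        · omega
        · omega
      · rintro (h2 | h2)
        · exact Or.inl ⟨Or.inl ⟨by omega, h2.2⟩, fun h => by omega⟩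
        · omega
    · constructor
      · rintro (⟨h2 | h2, h3⟩ | ⟨_, _, h2⟩)
        · right
          refine ⟨by omega, by omega, Or.inl ⟨h2.2, ?_⟩⟩
          by_contra h4
          refine h3 ⟨?_, h1⟩
          rintro ⟨_, h5⟩
          rw [h1] at h4
          exact h4 h5
        · omega
        · omega
      · rintro (h2 | ⟨_, _, ⟨h2, h3⟩ | h2⟩)
        · omega
        · left
          refine ⟨Or.inl ⟨by omega, h2⟩, fun h => h.1 ?_⟩
          rw [← h1]
          exact ⟨h2.1, h3⟩
        · omega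
    · rcases Nat.lt_or_ge (n - 1 - a + 1) c with h2 | h2
      · constructor
        · rintro (⟨h3 | ⟨h3, h4, h5⟩, _⟩ | ⟨_, _, h3⟩)
          · omega
          · exact Or.inr ⟨by omega, h4, h5.imp_right fun h => ⟨by omega, h.2⟩⟩
          · omega
        · rintro (h3 | ⟨h3, h4, h5⟩)
          · omega
          · exact Or.inl ⟨Or.inr ⟨by omega, h4, h5.imp_right fun h => ⟨by omega, h.2⟩⟩,
              fun h => by omega⟩
      · have h3 : c = n - 1 - a + 1 := by omega
        constructor
        · rintro (⟨h4 | ⟨h4, h5, h6 | h6⟩, _⟩ | ⟨h4, h5 | h5, _⟩)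
          · omega
          · exact Or.inr ⟨by omega, h5, Or.inl h6⟩
          · omega
          · have h6 := hE _ _ h4.2
            right
            refine ⟨by omega, by omega, Or.inr ⟨by omega, ?_, ?_⟩⟩
            · rw [h3, Nat.add_sub_cancel]
              exact h5.2
            · rw [h3, Nat.add_sub_cancel]
              exact h4.2
          · omega
        · rintro (h4 | ⟨h4, h5, h6 | ⟨_, h6, h7⟩⟩)
          · omega
          · exact Or.inl ⟨Or.inr ⟨by omega, h5, Or.inl h6⟩, fun h => by omega⟩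
          · right
            rw [h3, Nat.add_sub_cancel] at h6 h7
            exact ⟨⟨h6.1, h7⟩, Or.inl ⟨by omega, h6⟩, h3⟩

theorem grid_iff (hn : 0 < n) (l c : ℕ) :
    (gridIns n L E S hE).PR (l * n) c ↔ GA E S l c := by
  induction l generalizing c with
  | zero =>
    rw [zero_mul]
    show c = 0 ↔ _
    constructor
    · rintro rfl
      exact ⟨le_rfl, ReflTransGen.refl⟩
    · intro h
      have := h.1
      omega
  | succ l ih =>
    rw [add_mul, one_mul, grid_inv hn l n le_rfl ih, GA_succ]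
    constructor
    · rintro (h | ⟨_, _, h | ⟨h1, h2⟩⟩)
      · omega
      · exact Or.inl h
      · exact Or.inr ⟨by omega, h2⟩
    · rintro (h | ⟨h1, h2⟩)
      · exact Or.inr ⟨by omega, GR_lt hn hE h.1.2, Or.inl h⟩
      · exact Or.inr ⟨by omega, by have := hE _ _ h2.2; omega, Or.inr ⟨by omega, h2⟩⟩

theorem grid_final (hn : 0 < n) {i j : ℕ} :
    (gridIns n (i + j) E S hE).PR (gridIns n (i + j) E S hE).E j ↔
      ReflTransGen (GStep E S) (0, 0) (i, j) := by
  show (gridIns n (i + j) E S hE).PR ((i + j) * n) j ↔ _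
  rw [grid_iff hn]
  unfold GA GR
  rw [Nat.add_sub_cancel]
  simp

end grid

/-- The instructions for a word describing a grid graph and a target. -/
def lgIns (w : List (Bool × Bool × Bool)) (z : ((Unit × ℕ) × ℕ) × ℕ) : Ins :=
  gridIns z.1.1.2 (z.1.2 + z.2) (eE z.1.1.2 w) (eS z.1.1.2 w) fun _ _ h => h.1.2

theorem fi_lg : FI lgIns where
  n := Fn.id.fst.fst.snd.add (Fn.const 1)
  E := (Fn.id.fst.snd.add Fn.id.snd).mul Fn.id.fst.fst.snd
  on := by
    have hn : Fn fun (w : List (Bool × Bool × Bool)) (z : (((Unit × ℕ) × ℕ) × ℕ) × ℕ) =>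
      z.1.1.1.2 := Fn.id.fst.fst.fst.snd
    have he : Fn fun (w : List (Bool × Bool × Bool)) (z : (((Unit × ℕ) × ℕ) × ℕ) × ℕ) =>
      z.2 := Fn.id.snd
    have hj := (hn.sub (Fn.const 1)).sub (he.mod hn)
    have hl := he.div hn
    exact (FP.le hj hl).and (LinTwo.FP.eE hn (hl.sub hj) hj)
  U := by
    have hn : Fn fun (w : List (Bool × Bool × Bool)) (z : (((Unit × ℕ) × ℕ) × ℕ) × ℕ) =>
      z.1.1.1.2 := Fn.id.fst.fst.fst.snd
    have he : Fn fun (w : List (Bool × Bool × Bool)) (z : (((Unit × ℕ) × ℕ) × ℕ) × ℕ) =>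
      z.2 := Fn.id.snd
    exact (hn.sub (Fn.const 1)).sub (he.mod hn)
  V := by
    have hn : Fn fun (w : List (Bool × Bool × Bool)) (z : (((Unit × ℕ) × ℕ) × ℕ) × ℕ) =>
      z.1.1.1.2 := Fn.id.fst.fst.fst.snd
    have he : Fn fun (w : List (Bool × Bool × Bool)) (z : (((Unit × ℕ) × ℕ) × ℕ) × ℕ) =>
      z.2 := Fn.id.snd
    exact ((hn.sub (Fn.const 1)).sub (he.mod hn)).succ
  kl := by
    have hn : Fn fun (w : List (Bool × Bool × Bool)) (z : (((Unit × ℕ) × ℕ) × ℕ) × ℕ) =>
      z.1.1.1.2 := Fn.id.fst.fst.fst.snd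
    have he : Fn fun (w : List (Bool × Bool × Bool)) (z : (((Unit × ℕ) × ℕ) × ℕ) × ℕ) =>
      z.2 := Fn.id.snd
    have hj := (hn.sub (Fn.const 1)).sub (he.mod hn)
    have hl := he.div hn
    exact ((FP.le hj hl).and (LinTwo.FP.eS hn (hl.sub hj) hj)).not

/-- If the language of walks with two independent steps is in `L` then so is layered grid graph
reachability. -/
theorem lggr_of_PL (H : PL) (h : InL (GG H.g H.r H.r).language) : InL LGGR := by
  refine inL_of_FP _ (fun w _ => ∃ n < w.length + 1, ∃ I < n, ∃ J < n, (w.length = n * n ∧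
      ∃ b c, w[I * n + J]? = some (b, c, true)) ∧
      (lgIns w ((((), n), I), J)).PR (lgIns w ((((), n), I), J)).E J)
    ?_ fun w => ?_
  · refine FP.bex (b := fun w (_ : Unit) => w.length + 1) Fn.lenSucc (P := fun w (z : Unit × ℕ) =>
      ∃ I < z.2, ∃ J < z.2, (w.length = z.2 * z.2 ∧
      ∃ b c, w[I * z.2 + J]? = some (b, c, true)) ∧
      (lgIns w ((z, I), J)).PR (lgIns w ((z, I), J)).E J) ?_
    refine FP.bex (b := fun w (z : Unit × ℕ) => z.2) Fn.id.snd
      (P := fun w (z : (Unit × ℕ) × ℕ) =>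
      ∃ J < z.1.2, (w.length = z.1.2 * z.1.2 ∧
      ∃ b c, w[z.2 * z.1.2 + J]? = some (b, c, true)) ∧
      (lgIns w (z, J)).PR (lgIns w (z, J)).E J) ?_
    refine FP.bex (b := fun w (z : (Unit × ℕ) × ℕ) => z.1.2) Fn.id.fst.snd
      (P := fun w (z : ((Unit × ℕ) × ℕ) × ℕ) => (w.length = z.1.1.2 * z.1.1.2 ∧
      ∃ b c, w[z.1.2 * z.1.1.2 + z.2]? = some (b, c, true)) ∧
      (lgIns w z).PR (lgIns w z).E z.2) ?_
    let X := ((Unit × ℕ) × ℕ) × ℕ
    have hn : Fn fun (w : List (Bool × Bool × Bool)) (z : X) => z.1.1.2 := Fn.id.fst.fst.snd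
    have hI : Fn fun (w : List (Bool × Bool × Bool)) (z : X) => z.1.2 := Fn.id.fst.snd
    have hJ : Fn fun (w : List (Bool × Bool × Bool)) (z : X) => z.2 := Fn.id.snd
    refine ((FP.eq Fn.len (hn.mul hn)).and ?_).and ?_
    · refine (FP.exLetter ((hI.mul hn).add hJ) (fun x => x.2.2 = true)).congr fun w y => ?_
      constructor
      · rintro ⟨b, c, h2⟩
        exact ⟨_, h2, rfl⟩
      · rintro ⟨⟨x, b, c⟩, h2, h3⟩
        simp only at h3
        subst h3
        exact ⟨x, b, h2⟩
    · refine FP.pr_PL fi_lg (fun w z e _ _ => ?_) hJ H h fun w z e _ _ => rfl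
      show z.1.1.2 - 1 - e % z.1.1.2 < z.1.1.2 + 1
      omega
  · have hrel : ∀ n c, ReflTransGen (GridStep n w) (0, 0) c ↔
        ReflTransGen (GStep (eE n w) (eS n w)) (0, 0) c := fun n c =>
      ⟨rtg_mono fun _ _ => gridStep_iff.1, rtg_mono fun _ _ => gridStep_iff.2⟩
    constructor
    · rintro ⟨n, _, I, h2, J, h3, ⟨h1, h4⟩, h5⟩
      refine ⟨n, I, J, h1, h2, h3, h4, ?_⟩
      rw [hrel]
      have hn0 : 0 < n := by omega
      exact (grid_final hn0).1 h5
    · rintro ⟨n, I, J, h1, h2, h3, h4, h5⟩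
      refine ⟨n, by nlinarith, I, h2, J, h3, ⟨h1, h4⟩, ?_⟩
      rw [hrel] at h5
      have hn0 : 0 < n := by omega
      exact (grid_final hn0).2 h5

end Pool.Agent.Helper38.Shape
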