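import Pool.Agent.Helper38.Shape.Defs
import Pool.Agent.Helper38.Shape.Classify
import Pool.Agent.Helper38.Shape.Reduce

/-!
# The three classes of shapes
-/

namespace Pool.Agent.Helper38.Shape

open Classical Relation Pool.Agent.Helper38.LinL Pool.Agent.Helper38.LinL.LinearGrammar
open Pool.Agent.Helper38.LinTwo (LGGR PlanarShapes loopsInL_of_lggr)

set_option linter.unusedSimpArgs false
set_option linter.unusedVariables false
set_option linter.unusedSectionVars false

variable {α : Type} {G : LinearGrammar α} {F : Set (ℕ × ℕ)}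

section parallel

theorem par_one (hp : ∀ p ∈ F, ∀ q ∈ F, p.1 * q.2 = p.2 * q.1)
    (hG : ∀ A u B v, (A, u, B, v) ∈ G.rules → (u.length, v.length) ∈ F) {A B : G.N}
    {u v : List α} (h : G.Derives A u B v) : ∀ q ∈ F, u.length * q.2 = v.length * q.1 := by
  induction h with
  | refl => intro q _; simp
  | @step u B v u' C v' _ hr ih =>
    intro q hq
    have h1 := ih q hq
    have h2 := hp _ (hG _ _ _ _ hr) q hq
    simp only at h2
    rw [List.length_append, List.length_append, add_mul, add_mul, h1, h2, add_comm]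

theorem par_two (hp : ∀ p ∈ F, ∀ q ∈ F, p.1 * q.2 = p.2 * q.1)
    (hG : ∀ A u B v, (A, u, B, v) ∈ G.rules → (u.length, v.length) ∈ F) {A B A' B' : G.N}
    {u v u' v' : List α} (h : G.Derives A u B v) (h' : G.Derives A' u' B' v') :
    u.length * v'.length = v.length * u'.length := by
  induction h' with
  | refl => simp
  | @step u' B v' u'' C v'' _ hr ih =>
    have h2 := par_one hp hG h _ (hG _ _ _ _ hr)
    simp only at h2
    rw [List.length_append, List.length_append, mul_add, mul_add, ih, h2, add_comm]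

theorem inL_parallel [Finite α] (hp : ∀ p ∈ F, ∀ q ∈ F, p.1 * q.2 = p.2 * q.1) (hG : OneShape F G) :
    InL G.language := by
  refine inL_of_loops G fun A => Or.inr (Or.inr (Or.inl ⟨1, 1, 1, fun x y s => ?_⟩))
  rw [Nat.cast_one, Set.encard_le_one_iff]
  rintro ⟨B, u, v⟩ ⟨B', u', v'⟩ ⟨h1, h2, h3, h4, _⟩ ⟨h1', h2', h3', h4', _⟩
  simp only [one_mul] at h1 h2 h3 h4 h1' h2' h3' h4'
  have h5 := par_two hp hG.2 h4 h4'
  have h6 : u.length = u'.length := by
    have e1 : v.length = s - u.length := by omega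
    have e2 : v'.length = s - u'.length := by omega
    rcases Nat.eq_zero_or_pos s with h0 | h0
    · omega
    · have h7 : u.length * s = u'.length * s := by
        calc u.length * s = u.length * u'.length + u.length * v'.length := by
              rw [← h3', mul_add]
          _ = u.length * u'.length + v.length * u'.length := by rw [h5]
          _ = u'.length * s := by rw [← h3]; ring
      exact Nat.eq_of_mul_eq_mul_right h0 h7
  have h7 : v.length = v'.length := by omega
  have hu : u = u' := (List.prefix_of_prefix_length_le h1 h1' h6.le).eq_of_length h6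
  have hv : v = v' := (List.suffix_of_suffix_length_le h2 h2' h7.le).eq_of_length h7
  rw [hu, hv, hG.1 B B']

end parallel

section axis

/-- A right linear grammar for the language. -/
noncomputable def regG (G : LinearGrammar α) : LinearGrammar α where
  N := Bool
  finN := inferInstance
  start := true
  rules := (G.rules.filter fun r => r.2.2.2 = []).image (fun r => (true, r.2.1, true, [])) ∪
    ((G.rules.filter fun r => r.2.1 = []).image (fun r => (false, r.2.2.2, false, [])) ∪
      G.term.image fun r => (true, r.2, false, []))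
  term := {(false, [])}

theorem mem_regG {A B : Bool} {u v : List α} :
    ((A, u, B, v) : Bool × List α × Bool × List α) ∈ (regG G).rules ↔ v = [] ∧
      ((A = true ∧ B = true ∧ ∃ x y, (x, u, y, []) ∈ G.rules) ∨
      (A = false ∧ B = false ∧ ∃ x y, (x, [], y, u) ∈ G.rules) ∨
      (A = true ∧ B = false ∧ ∃ x, (x, u) ∈ G.term)) := by
  unfold regG
  simp only [Finset.mem_union, Finset.mem_image, Finset.mem_filter, Prod.mk.injEq]
  constructor
  · rintro (⟨⟨x, a, y, b⟩, ⟨h1, h2⟩, h3, h4, h5, h6⟩ | ⟨⟨x, a, y, b⟩, ⟨h1, h2⟩, h3, h4, h5, h6⟩ |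
      ⟨⟨x, a⟩, h1, h3, h4, h5, h6⟩)
    · simp only at h2 h4
      subst h2 h4
      exact ⟨h6.symm, Or.inl ⟨h3.symm, h5.symm, x, y, h1⟩⟩
    · simp only at h2 h4
      subst h2 h4
      exact ⟨h6.symm, Or.inr (Or.inl ⟨h3.symm, h5.symm, x, y, h1⟩)⟩
    · simp only at h4
      subst h4
      exact ⟨h6.symm, Or.inr (Or.inr ⟨h3.symm, h5.symm, x, h1⟩)⟩
  · rintro ⟨rfl, ⟨rfl, rfl, x, y, h⟩ | ⟨rfl, rfl, x, y, h⟩ | ⟨rfl, rfl, x, h⟩⟩
    · exact Or.inl ⟨(x, u, y, []), ⟨h, rfl⟩, rfl, rfl, rfl, rfl⟩
    · exact Or.inr (Or.inl ⟨(x, [], y, u), ⟨h, rfl⟩, rfl, rfl, rfl, rfl⟩)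
    · exact Or.inr (Or.inr ⟨(x, u), h, rfl, rfl, rfl, rfl⟩)

variable (h1 : ∀ A B : G.N, A = B)
  (hax : ∀ A u B v, (A, u, B, v) ∈ G.rules → u = [] ∨ v = [])

include h1

theorem rule_of {A B x y : G.N} {u v : List α} (h : (x, u, y, v) ∈ G.rules) :
    (A, u, B, v) ∈ G.rules := by
  rwa [h1 A x, h1 B y]

theorem der_of {A B x y : G.N} {u v : List α} (h : G.Derives x u y v) : G.Derives A u B v := by
  rwa [h1 A x, h1 B y]

/-- Derivations in the right linear grammar. -/
theorem reg_der {A B : (regG G).N} {u v : List α} (h : (regG G).Derives A u B v) : v = [] ∧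
    ((A = true ∧ B = true ∧ G.Derives G.start u G.start []) ∨
    (A = false ∧ B = false ∧ G.Derives G.start [] G.start u) ∨
    (A = true ∧ B = false ∧ ∃ x t y, u = x ++ t ++ y ∧ G.Derives G.start x G.start [] ∧
      (∃ N, (N, t) ∈ G.term) ∧ G.Derives G.start [] G.start y)) := by
  induction h with
  | refl =>
    refine ⟨rfl, ?_⟩
    rcases (Bool.eq_false_or_eq_true A : A = true ∨ A = false) with hA | hA
    · exact Or.inl ⟨hA, hA, Derives.refl⟩
    · exact Or.inr (Or.inl ⟨hA, hA, Derives.refl⟩)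
  | @step u B v u' C v' _ hr ih =>
    obtain ⟨rfl, ih⟩ := ih
    have hr' := (mem_regG (G := G) (A := B) (B := C) (u := u') (v := v')).1 hr
    obtain ⟨rfl, hr'⟩ := hr'
    refine ⟨rfl, ?_⟩
    clear hr
    rename' hr' => hr
    rcases ih with ⟨rfl, rfl, ih⟩ | ⟨rfl, rfl, ih⟩ | ⟨rfl, rfl, x, t, y, rfl, i1, i2, i3⟩
    · rcases hr with ⟨_, rfl, a, b, hr⟩ | ⟨h, _⟩ | ⟨_, rfl, a, hr⟩
      · exact Or.inl ⟨rfl, rfl, by simpa using Derives.step ih (rule_of h1 hr)⟩
      · exact absurd h (by simp)
      · exact Or.inr (Or.inr ⟨rfl, rfl, u, u', [], by simp, ih, ⟨a, hr⟩, Derives.refl⟩)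
    · rcases hr with ⟨h, _⟩ | ⟨_, rfl, a, b, hr⟩ | ⟨h, _⟩
      · exact absurd h (by simp)
      · refine Or.inr (Or.inl ⟨rfl, rfl, ?_⟩)
        have := Derives.trans (Derives.single (rule_of h1 (A := G.start) (B := G.start) hr)) ih
        simpa using this
      · exact absurd h (by simp)
    · rcases hr with ⟨h, _⟩ | ⟨_, rfl, a, b, hr⟩ | ⟨h, _⟩
      · exact absurd h (by simp)
      · refine Or.inr (Or.inr ⟨rfl, rfl, x, t, y ++ u', by simp, i1, i2, ?_⟩)
        have := Derives.trans (Derives.single (rule_of h1 (A := G.start) (B := G.start) hr)) i3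
        simpa using this
      · exact absurd h (by simp)

include hax

theorem ax_split {B : G.N} {u v : List α} (h : G.Derives G.start u B v) :
    G.Derives G.start u G.start [] ∧ G.Derives G.start [] G.start v ∧
      (regG G).Derives true u true [] ∧ (regG G).Derives false v false [] := by
  induction h with
  | refl => exact ⟨Derives.refl, Derives.refl, Derives.refl, Derives.refl⟩
  | @step u B v u' C v' _ hr ih =>
    obtain ⟨i1, i2, i3, i4⟩ := ih
    rcases hax _ _ _ _ hr with rfl | rfl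
    · rw [List.append_nil]
      refine ⟨i1, Derives.step i2 (rule_of h1 hr), i3, ?_⟩
      have h2 : ((false, v', false, []) : Bool × List α × Bool × List α) ∈ (regG G).rules :=
        mem_regG.2 ⟨rfl, Or.inr (Or.inl ⟨rfl, rfl, _, _, hr⟩)⟩
      have := Derives.trans (Derives.single (G := regG G) h2) i4
      simpa using this
    · rw [List.nil_append]
      have h2 : ((true, u', true, []) : Bool × List α × Bool × List α) ∈ (regG G).rules :=
        mem_regG.2 ⟨rfl, Or.inl ⟨rfl, rfl, _, _, hr⟩⟩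
      refine ⟨by simpa using Derives.step i1 (rule_of h1 hr), i2, ?_, i4⟩
      have := Derives.step (G := regG G) i3 h2
      simpa using this

theorem reg_lang : (regG G).language = G.language := by
  ext w
  constructor
  · rintro ⟨u, B, v, t, h2, h3, rfl⟩
    have h4 : ((B, t) : Bool × List α) ∈ ({(false, [])} : Finset (Bool × List α)) := h3
    simp only [Finset.mem_singleton, Prod.mk.injEq] at h4
    obtain ⟨rfl, rfl⟩ := h4
    obtain ⟨rfl, h5⟩ := reg_der h1 h2
    rcases h5 with ⟨_, h, _⟩ | ⟨h, _⟩ | ⟨_, _, x, t, y, rfl, i1, ⟨N, i2⟩, i3⟩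
    · exact absurd h (by simp)
    · exact absurd h (by simp [regG])
    · refine ⟨x, N, y, t, ?_, i2, by simp⟩
      have := Derives.trans i1 i3
      simp only [List.append_nil] at this
      exact der_of h1 this
  · rintro ⟨u, B, v, t, h2, h3, rfl⟩
    obtain ⟨_, _, i3, i4⟩ := ax_split h1 hax h2
    refine ⟨u ++ t ++ v, false, [], [], ?_, ?_, by simp⟩
    · have h4 : ((true, t, false, []) : Bool × List α × Bool × List α) ∈ (regG G).rules :=
        mem_regG.2 ⟨rfl, Or.inr (Or.inr ⟨rfl, rfl, _, h3⟩)⟩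
      have := Derives.trans (Derives.step (G := regG G) i3 h4) i4
      simp only [List.append_nil] at this
      exact this
    · show ((false, []) : Bool × List α) ∈ ({(false, [])} : Finset (Bool × List α))
      simp

end axis

theorem inL_axis [Finite α] (hF : ∀ p ∈ F, p.1 = 0 ∨ p.2 = 0) (hG : OneShape F G) : InL G.language := by
  have hax : ∀ A u B v, (A, u, B, v) ∈ G.rules → u = [] ∨ v = [] := by
    intro A u B v h
    have := hF _ (hG.2 A u B v h)
    simpa using this
  rw [← reg_lang hG.1 hax]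
  refine inL_of_loops (regG G) fun A => Or.inl ?_
  intro u v v' h h' _
  rw [(reg_der hG.1 h).1, (reg_der hG.1 h').1]

theorem inL_degenerate [Finite α] (hF : Degenerate F) (hG : OneShape F G) : InL G.language :=
  hF.elim (fun h => inL_parallel h hG) fun h => inL_axis h hG

/-- Two independent elements. -/
theorem nondeg (hF : ¬ Degenerate F) : ∃ g ∈ F, 0 < g.1 ∧ 0 < g.2 ∧
    ∃ f ∈ F, (g.1 : ℤ) * f.2 - g.2 * f.1 ≠ 0 := by
  unfold Degenerate at hF
  push Not at hF
  obtain ⟨⟨p, hp, q, hq, hpq⟩, g, hg, g1, g2⟩ := hF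
  refine ⟨g, hg, by omega, by omega, ?_⟩
  by_contra hcon
  push Not at hcon
  have e1 := hcon p hp
  have e2 := hcon q hq
  apply hpq
  have g1' : (g.1 : ℤ) ≠ 0 := by exact_mod_cast g1
  have g2' : (g.2 : ℤ) ≠ 0 := by exact_mod_cast g2
  have e3 : ((p.1 : ℤ) * q.2 - p.2 * q.1) * (g.1 * g.2) = 0 := by
    have e4 : (g.1 : ℤ) * p.2 = g.2 * p.1 := by linarith
    have e5 : (g.1 : ℤ) * q.2 = g.2 * q.1 := by linarith
    calc ((p.1 : ℤ) * q.2 - p.2 * q.1) * (g.1 * g.2)
        = (g.2 * p.1) * (g.1 * q.2) - (g.1 * p.2) * (g.2 * q.1) := by ring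
      _ = 0 := by rw [e4, e5]; ring
  have e6 := (mul_eq_zero.1 e3).resolve_right (mul_ne_zero g1' g2')
  have : (p.1 : ℤ) * q.2 = p.2 * q.1 := by linarith
  exact_mod_cast this

theorem oneShape_GG {g r t : ℕ × ℕ} (hg : g ∈ F) (hr : r ∈ F) (ht : t ∈ F) :
    OneShape F (GG g r t) := by
  refine ⟨fun A B => rfl, fun A u B v h => ?_⟩
  obtain ⟨_, _, h | h | h⟩ := mem_rules.1 h
  · rw [h.1]; exact hg
  · rw [h.1]; exact hr
  · rw [h.1]; exact ht

theorem planar_case (hF : ¬ Degenerate F) (hP : PlanarSet F) :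
    ∃ (α : Type) (_ : Finite α) (G : LinearGrammar α), OneShape F G ∧
      (InL G.language ↔ InL LGGR) ∧
      ((∀ (β : Type) (_ : Finite β) (H : LinearGrammar β), OneShape F H → InL H.language) ↔
        InL LGGR) := by
  obtain ⟨g, hg, g1, g2, r, hr, hD⟩ := nondeg hF
  have hall : InL LGGR → ∀ (β : Type) (_ : Finite β) (H : LinearGrammar β), OneShape F H →
      InL H.language := by
    intro h β _ H hH
    obtain ⟨s, t, hst⟩ := hP
    have hpl : PlanarShapes H := fun A => ⟨s, t, fun u B v hr _ =>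
      ⟨hH.1 _ _, hst _ (hH.2 A u B v hr)⟩⟩
    exact inL_of_loopsInL fun A => loopsInL_of_lggr h hpl A
  have hone : OneShape F (GG g r r) := oneShape_GG hg hr hr
  have hhard : InL (GG g r r).language → InL LGGR :=
    lggr_of_PL ⟨g, r, g1, g2, hD⟩
  exact ⟨Lt, inferInstance, GG g r r, hone, ⟨hhard, fun h => hall h _ inferInstance _ hone⟩,
    fun h => hhard (h _ inferInstance _ hone), hall⟩

theorem general_case (h0 : (0, 0) ∉ F) (hF : ¬ Degenerate F) (hP : ¬ PlanarSet F) :
    ∃ (α : Type) (_ : Finite α) (G : LinearGrammar α), OneShape F G ∧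
      (InL G.language ↔ ∀ (β : Type) (_ : Finite β) (H : LinearGrammar β), InL H.language) := by
  obtain ⟨g, hg, g1, g2, r, hr, hD⟩ := nondeg hF
  rcases general_of h0 hg hr g1 g2 hD hP with ⟨H, a1, a2, a3⟩ | ⟨H, a1, a2, a3⟩
  · exact ⟨Lt, inferInstance, GG H.g H.r H.t, oneShape_GG a1 a2 a3,
      fun h β _ G => lin_of_TI H h G, fun h => h _ inferInstance _⟩
  · exact ⟨Lt, inferInstance, _, oneShape_GG a1 a2 a3,
      fun h β _ G => lin_of_TW H h G, fun h => h _ inferInstance _⟩

end Pool.Agent.Helper38.Shape
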