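import Pool.Agent.Helper38.Shape.Swap

/-!
# Programs
-/

namespace Pool.Agent.Helper38.Shape

open Relation

set_option linter.unusedSimpArgs false
set_option linter.unusedVariables false
set_option linter.unusedSectionVars false

/-- An event: its class `x r + y t` and its kind. Kinds: `0` nothing, `1` kill, `2` allow `r`,
`3` force `r`, `4` allow `t`, `5` force `t`, `6` swap. -/
structure Ev where
  x : ℕ
  y : ℕ
  kd : ℕ

/-- Marks of simple events. -/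
def Fs (kd : ℕ) : Fl → Prop
  | Fl.jr => kd = 2 ∨ kd = 3
  | Fl.jt => kd = 4 ∨ kd = 5
  | Fl.k1 => kd = 1 ∨ kd = 3 ∨ kd = 5
  | Fl.k2 => False

/-- Marks of columns; `a` is the first component of `g`. -/
def FX (α a : ℤ) (kd : ℕ) (φ : Fl) (δ : ℤ) : Prop :=
  (δ = 0 ∧ Fs kd φ) ∨ (kd = 6 ∧ ((φ = Fl.jr ∧ δ = 0) ∨ (φ = Fl.k1 ∧ (δ = 0 ∨ δ = (α - 1) * a)) ∨
    (φ = Fl.k2 ∧ (δ = α * a ∨ δ = -a))))

/-- Marks of rows; `b` is the second component of `g`. -/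
def FY (α b : ℤ) (kd : ℕ) (φ : Fl) (δ : ℤ) : Prop :=
  (δ = 0 ∧ Fs kd φ) ∨ (kd = 6 ∧ ((φ = Fl.jt ∧ δ = -b) ∨ (φ = Fl.k1 ∧ (δ = 0 ∨ δ = -b)) ∨
    (φ = Fl.k2 ∧ (δ = -(α * b) ∨ δ = (α - 1) * b))))

theorem FX_bound {α a : ℤ} (hα : 0 ≤ α) (ha : 0 < a) {kd : ℕ} {φ : Fl} {δ : ℤ}
    (h : FX α a kd φ δ) : |δ| ≤ (α + 1) * a := by
  have h0 : 0 ≤ α * a := by positivity
  rcases h with ⟨rfl, _⟩ | ⟨_, ⟨_, rfl⟩ | ⟨_, rfl | rfl⟩ | ⟨_, rfl | rfl⟩⟩ <;>
  · rw [abs_le]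
    constructor <;> linarith

theorem FY_bound {α a : ℤ} (hα : 0 ≤ α) (ha : 0 < a) {kd : ℕ} {φ : Fl} {δ : ℤ}
    (h : FY α a kd φ δ) : |δ| ≤ (α + 1) * a := by
  have h0 : 0 ≤ α * a := by positivity
  rcases h with ⟨rfl, _⟩ | ⟨_, ⟨_, rfl⟩ | ⟨_, rfl | rfl⟩ | ⟨_, rfl | rfl⟩⟩ <;>
  · rw [abs_le]
    constructor <;> linarith

/-- Programs. -/
structure Prog where
  g : ℕ × ℕ
  r : ℕ × ℕ
  t : ℕ × ℕ
  α : ℕ
  n0 : ℕ
  K : ℕ
  ev : ℕ → Ev
  g1 : 0 < g.1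
  g2 : 0 < g.2
  r0 : r.1 ≠ 0 ∨ r.2 ≠ 0
  t0 : t.1 ≠ 0 ∨ t.2 ≠ 0
  hev : ∀ k < K, (ev k).x + (ev k).y ≤ n0

/-- Constant. -/
def cn (g r t : ℕ × ℕ) : ℕ := g.2 * (g.1 + r.1 + t.1) + g.1 * (g.2 + r.2 + t.2)

/-- Width of windows. -/
def qn (g r t : ℕ × ℕ) (α n0 : ℕ) : ℕ := (3 * n0 + 4) * cn g r t + 2 * ((α + 1) * g.1 * g.2) + 1

/-- Distance of events. -/
def dn (g r t : ℕ × ℕ) (α n0 : ℕ) : ℕ := 2 * qn g r t α n0 + cn g r t + 1

/-- Cast. -/
def cv (p : ℕ × ℕ) : V2 := ((p.1 : ℤ), (p.2 : ℤ))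

/-- Classes. -/
def cl (r t : ℕ × ℕ) (x y : ℕ) : ℕ × ℕ := (x * r.1 + y * t.1, x * r.2 + y * t.2)

/-- Position at time `T`. -/
def pos (g r t : ℕ × ℕ) (x y T : ℕ) : ℕ × ℕ :=
  (x * r.1 + y * t.1 + T * g.1, x * r.2 + y * t.2 + T * g.2)

/-- Time of an event. -/
def tm (g r t : ℕ × ℕ) (α n0 k : ℕ) : ℕ := (k + 1) * dn g r t α n0

theorem kk_le {g r t : ℕ × ℕ} {x y n : ℕ} (h : x + y ≤ n) :
    |(g.1 : ℤ) * (x * r.2 + y * t.2) - g.2 * (x * r.1 + y * t.1)| ≤ n * cn g r t := by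
  have h1 : (x : ℤ) * (g.1 * r.2 + g.2 * r.1) + y * (g.1 * t.2 + g.2 * t.1) ≤ n * cn g r t := by
    have h2 : (x : ℤ) * (g.1 * r.2 + g.2 * r.1) ≤ x * cn g r t := by
      refine mul_le_mul_of_nonneg_left ?_ (by positivity)
      unfold cn
      push_cast
      have : (0 : ℤ) ≤ g.2 * g.1 + g.2 * t.1 + (g.1 * g.2 + g.1 * t.2) := by positivity
      linarith
    have h3 : (y : ℤ) * (g.1 * t.2 + g.2 * t.1) ≤ y * cn g r t := by
      refine mul_le_mul_of_nonneg_left ?_ (by positivity)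
      unfold cn
      push_cast
      have : (0 : ℤ) ≤ g.2 * g.1 + g.2 * r.1 + (g.1 * g.2 + g.1 * r.2) := by positivity
      linarith
    have h4 : ((x : ℤ) + y) * cn g r t ≤ n * cn g r t :=
      mul_le_mul_of_nonneg_right (by exact_mod_cast h) (by positivity)
    linarith
  have e1 : (0 : ℤ) ≤ g.1 * (x * r.2 + y * t.2) := by positivity
  have e2 : (0 : ℤ) ≤ g.2 * (x * r.1 + y * t.1) := by positivity
  rw [abs_le]
  constructor <;> linarith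

theorem hh_le {g r t : ℕ × ℕ} {x y n : ℕ} (h : x + y ≤ n) :
    (g.2 : ℤ) * (x * r.1 + y * t.1) + g.1 * (x * r.2 + y * t.2) ≤ n * cn g r t := by
  have h2 : (x : ℤ) * (g.1 * r.2 + g.2 * r.1) ≤ x * cn g r t := by
    refine mul_le_mul_of_nonneg_left ?_ (by positivity)
    unfold cn
    push_cast
    have : (0 : ℤ) ≤ g.2 * g.1 + g.2 * t.1 + (g.1 * g.2 + g.1 * t.2) := by positivity
    linarith
  have h3 : (y : ℤ) * (g.1 * t.2 + g.2 * t.1) ≤ y * cn g r t := by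
    refine mul_le_mul_of_nonneg_left ?_ (by positivity)
    unfold cn
    push_cast
    have : (0 : ℤ) ≤ g.2 * g.1 + g.2 * r.1 + (g.1 * g.2 + g.1 * r.2) := by positivity
    linarith
  have h4 : ((x : ℤ) + y) * cn g r t ≤ n * cn g r t :=
    mul_le_mul_of_nonneg_right (by exact_mod_cast h) (by positivity)
  linarith

theorem gg_pos {g : ℕ × ℕ} (h1 : 0 < g.1) (h2 : 0 < g.2) : (1 : ℤ) ≤ g.1 * g.2 := by
  have h : 0 < g.1 * g.2 := Nat.mul_pos h1 h2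
  have : (1 : ℤ) ≤ (g.1 * g.2 : ℕ) := by exact_mod_cast h
  simpa using this

/-- Locality. -/
theorem local_bound {g r t : ℕ × ℕ} (hg1 : 0 < g.1) (hg2 : 0 < g.2) {α n0 x y k : ℕ}
    (hxy : x + y ≤ n0) {p : V2}
    (hp : |(g.1 : ℤ) * p.2 - g.2 * p.1| ≤ (n0 + 3) * cn g r t)
    (h : |p.1 - (pos g r t x y (tm g r t α n0 k)).1| ≤ (α + 1) * g.1 ∨
      |p.2 - (pos g r t x y (tm g r t α n0 k)).2| ≤ (α + 1) * g.2) :
    ((k : ℤ) + 1) * (2 * (g.1 * g.2) * dn g r t α n0) - qn g r t α n0 ≤ g.2 * p.1 + g.1 * p.2 ∧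
      g.2 * p.1 + g.1 * p.2 ≤
        ((k : ℤ) + 1) * (2 * (g.1 * g.2) * dn g r t α n0) + qn g r t α n0 := by
  have hk := abs_le.1 (kk_le (g := g) (r := r) (t := t) hxy)
  have hh := hh_le (g := g) (r := r) (t := t) hxy
  have hh0 : (0 : ℤ) ≤ (g.2 : ℤ) * (x * r.1 + y * t.1) + g.1 * (x * r.2 + y * t.2) := by
    positivity
  have hp' := abs_le.1 hp
  have h1 : (0 : ℤ) < g.1 := by exact_mod_cast hg1
  have h2 : (0 : ℤ) < g.2 := by exact_mod_cast hg2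
  have hcn : (0 : ℤ) ≤ cn g r t := by positivity
  have hn0 : (0 : ℤ) ≤ n0 * cn g r t := by positivity
  have hqn : (qn g r t α n0 : ℤ) =
      3 * (n0 * cn g r t) + 4 * cn g r t + 2 * ((α + 1) * g.1 * g.2) + 1 := by
    unfold qn; push_cast; ring
  have hp'' : ((n0 : ℤ) + 3) * cn g r t = n0 * cn g r t + 3 * cn g r t := by ring
  rw [hp''] at hp'
  unfold pos tm at h
  push_cast at h
  rw [hqn]
  set C : ℤ := (cn g r t : ℤ)
  set NC : ℤ := (n0 : ℤ) * C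
  set Dd : ℤ := (dn g r t α n0 : ℤ)
  rcases h with h | h
  · obtain ⟨h3, h4⟩ := abs_le.1 h
    have h5 := mul_le_mul_of_nonneg_left h3 h2.le
    have h6 := mul_le_mul_of_nonneg_left h4 h2.le
    constructor <;> nlinarith
  · obtain ⟨h3, h4⟩ := abs_le.1 h
    have h5 := mul_le_mul_of_nonneg_left h3 h1.le
    have h6 := mul_le_mul_of_nonneg_left h4 h1.le
    constructor <;> nlinarith

namespace Prog

variable (P : Prog)

/-- The center of an event. -/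
def ctr (k : ℕ) : ℕ × ℕ := pos P.g P.r P.t (P.ev k).x (P.ev k).y (tm P.g P.r P.t P.α P.n0 k)

/-- The system of events of the program. -/
def sys : Sys where
  g := cv P.g
  r := cv P.r
  t := cv P.t
  K := P.K
  c := fun k => cv (P.ctr k)
  PX := fun k => FX P.α P.g.1 (P.ev k).kd
  PY := fun k => FY P.α P.g.2 (P.ev k).kd
  Γ := 2 * (P.g.1 * P.g.2) * dn P.g P.r P.t P.α P.n0
  Q := qn P.g P.r P.t P.α P.n0
  W := (P.n0 + 3) * cn P.g P.r P.t
  st := cn P.g P.r P.t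
  g1 := by have := P.g1; simp only [cv]; omega
  g2 := by have := P.g2; simp only [cv]; omega
  r1 := by simp only [cv]; omega
  r2 := by simp only [cv]; omega
  r0 := by have := P.r0; simp only [cv]; omega
  t1 := by simp only [cv]; omega
  t2 := by simp only [cv]; omega
  t0 := by have := P.t0; simp only [cv]; omega
  Q0 := by positivity
  gap := by
    have h1 := gg_pos P.g1 P.g2
    have h2 : (dn P.g P.r P.t P.α P.n0 : ℤ) =
      2 * qn P.g P.r P.t P.α P.n0 + cn P.g P.r P.t + 1 := by unfold dn; push_cast; ring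
    have h3 : (0 : ℤ) ≤ dn P.g P.r P.t P.α P.n0 := by positivity
    nlinarith
  sg := by
    have := P.g1
    simp only [cv, cn]
    push_cast
    have : (0 : ℤ) ≤ P.g.2 * P.r.1 + P.g.2 * P.t.1 + (P.g.1 * P.r.2 + P.g.1 * P.t.2) := by
      positivity
    linarith
  sr := by
    simp only [cv, cn]
    push_cast
    have : (0 : ℤ) ≤ P.g.2 * P.g.1 + P.g.2 * P.t.1 + (P.g.1 * P.g.2 + P.g.1 * P.t.2) := by
      positivity
    linarith
  stt := by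
    simp only [cv, cn]
    push_cast
    have : (0 : ℤ) ≤ P.g.2 * P.g.1 + P.g.2 * P.r.1 + (P.g.1 * P.g.2 + P.g.1 * P.r.2) := by
      positivity
    linarith
  loc := by
    intro k hk φ p hp h
    refine local_bound P.g1 P.g2 (P.hev k hk) hp ?_
    have ha : (0 : ℤ) < P.g.1 := by have := P.g1; omega
    have hb : (0 : ℤ) < P.g.2 := by have := P.g2; omega
    exact h.imp (FX_bound (by positivity) ha) (FY_bound (by positivity) hb)
  hc := by
    intro k hk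
    have hh := hh_le (g := P.g) (r := P.r) (t := P.t) (P.hev k hk)
    have hh0 : (0 : ℤ) ≤ (P.g.2 : ℤ) * ((P.ev k).x * P.r.1 + (P.ev k).y * P.t.1) +
      P.g.1 * ((P.ev k).x * P.r.2 + (P.ev k).y * P.t.2) := by positivity
    have hqn : (qn P.g P.r P.t P.α P.n0 : ℤ) =
      3 * (P.n0 * cn P.g P.r P.t) + 4 * cn P.g P.r P.t + 2 * ((P.α + 1) * P.g.1 * P.g.2) + 1 := by
      unfold qn; push_cast; ring
    have e1 : (0 : ℤ) ≤ P.n0 * cn P.g P.r P.t := by positivity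
    have e2 : (0 : ℤ) ≤ cn P.g P.r P.t := by positivity
    have e3 : (0 : ℤ) ≤ ((P.α : ℤ) + 1) * P.g.1 * P.g.2 := by positivity
    simp only [cv, ctr, pos, tm]
    push_cast
    rw [hqn]
    constructor <;> nlinarith

end Prog

end Pool.Agent.Helper38.Shape
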