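import Pool.Agent.Helper38.Shape.Prog

/-!
# Semantics of programs
-/

namespace Pool.Agent.Helper38.Shape

open Relation

set_option linter.unusedSimpArgs false
set_option linter.unusedVariables false
set_option linter.unusedSectionVars false

namespace Prog

variable {P : Prog}

open Sys

/-- Congruence of classes. -/
def CE (P : Prog) (x y x' y' : ℕ) : Prop :=
  P.sys.Cg (cv (cl P.r P.t x y)) (cv (cl P.r P.t x' y'))

theorem CE.refl (x y : ℕ) : P.CE x y x y := Cg.refl _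

theorem CE.symm {x y x' y' : ℕ} (h : P.CE x y x' y') : P.CE x' y' x y := Cg.symm h

theorem CE.trans {x y x' y' x'' y'' : ℕ} (h : P.CE x y x' y') (h' : P.CE x' y' x'' y'') :
    P.CE x y x'' y'' := Cg.trans h h'

/-- The set of positions given by a set of classes. -/
def In (P : Prog) (T : ℕ → ℕ → Prop) : Set V2 :=
  {p | ∃ x y, T x y ∧ P.sys.Cg (cv (cl P.r P.t x y)) p}

/-- The class belongs to the set of classes. -/
def Mem (P : Prog) (T : ℕ → ℕ → Prop) (x y : ℕ) : Prop := ∃ x' y', T x' y' ∧ P.CE x' y' x y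

theorem Mem.of {T : ℕ → ℕ → Prop} {x y : ℕ} (h : T x y) : P.Mem T x y := ⟨x, y, h, CE.refl x y⟩

theorem Mem.eq {T : ℕ → ℕ → Prop} {x y x' y' : ℕ} (h : P.Mem T x y) (h' : P.CE x y x' y') :
    P.Mem T x' y' := by
  obtain ⟨a, b, h1, h2⟩ := h
  exact ⟨a, b, h1, h2.trans h'⟩

theorem cl_r (x y : ℕ) : cv (cl P.r P.t x y) + P.sys.r = cv (cl P.r P.t (x + 1) y) := by
  simp only [sys, cv, cl, Prod.ext_iff, Prod.fst_add, Prod.snd_add]
  push_cast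
  constructor <;> ring

theorem cl_t (x y : ℕ) : cv (cl P.r P.t x y) + P.sys.t = cv (cl P.r P.t x (y + 1)) := by
  simp only [sys, cv, cl, Prod.ext_iff, Prod.fst_add, Prod.snd_add]
  push_cast
  constructor <;> ring

theorem pos_eq (x y T : ℕ) : cv (pos P.g P.r P.t x y T) = P.sys.adv (cv (cl P.r P.t x y)) T := by
  simp only [sys, cv, cl, pos, adv, Prod.ext_iff]
  push_cast
  constructor <;> ring

theorem ctr_eq (k : ℕ) : P.sys.Cg (cv (cl P.r P.t (P.ev k).x (P.ev k).y)) (P.sys.c k) :=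
  ⟨_, pos_eq _ _ _⟩

theorem mem_In {T : ℕ → ℕ → Prop} {x y : ℕ} :
    cv (cl P.r P.t x y) ∈ P.In T ↔ P.Mem T x y := Iff.rfl

theorem inv_In (T : ℕ → ℕ → Prop) : P.sys.Inv (P.In T) := by
  rintro p q h ⟨x, y, h1, h2⟩
  exact ⟨x, y, h1, h2.trans h⟩

theorem kk_cl {x y n : ℕ} (h : x + y ≤ n) :
    |P.sys.kk (cv (cl P.r P.t x y))| ≤ n * cn P.g P.r P.t := by
  have := kk_le (g := P.g) (r := P.r) (t := P.t) h
  simp only [kk, sys, cv, cl]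
  push_cast
  exact this

theorem kk_In {T : ℕ → ℕ → Prop} {n : ℕ} (hT : ∀ x y, T x y → x + y ≤ n) {p : V2}
    (hp : p ∈ P.In T) : |P.sys.kk p| ≤ n * cn P.g P.r P.t := by
  obtain ⟨x, y, h1, h2⟩ := hp
  rw [h2.kk]
  exact kk_cl (hT x y h1)

theorem W_eq : P.sys.W = ((P.n0 + 3 : ℕ) : ℤ) * cn P.g P.r P.t := by
  simp [sys]

theorem le_W {n : ℕ} (h : n ≤ P.n0 + 3) {z : ℤ} (hz : z ≤ n * cn P.g P.r P.t) : z ≤ P.sys.W := by
  rw [W_eq]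
  refine hz.trans (mul_le_mul_of_nonneg_right (by exact_mod_cast h) (by positivity))

theorem kk_W {x y : ℕ} (h : x + y ≤ P.n0 + 3) : |P.sys.kk (cv (cl P.r P.t x y))| ≤ P.sys.W :=
  le_W le_rfl (kk_cl h)

theorem PX_iff {k : ℕ} (hkd : (P.ev k).kd ≠ 6) (φ : Fl) (δ : ℤ) :
    P.sys.PX k φ δ ↔ δ = 0 ∧ Fs (P.ev k).kd φ := by
  simp [sys, FX, hkd]

theorem PY_iff {k : ℕ} (hkd : (P.ev k).kd ≠ 6) (φ : Fl) (δ : ℤ) :
    P.sys.PY k φ δ ↔ δ = 0 ∧ Fs (P.ev k).kd φ := by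
  simp [sys, FY, hkd]

/-- Effect of a simple event. -/
theorem evS {k : ℕ} (hk : k < P.K) (hkd : (P.ev k).kd ≠ 6) {T T' : ℕ → ℕ → Prop}
    (hT : ∀ x y, T x y → x + y ≤ P.n0 + 1)
    (h1 : ∀ x y, T x y → ¬ (Fs (P.ev k).kd Fl.k1 ∧ P.CE (P.ev k).x (P.ev k).y x y) →
      P.Mem T' x y)
    (hr : Fs (P.ev k).kd Fl.jr → ∀ x y, T x y → P.Mem T' (x + 1) y)
    (ht : Fs (P.ev k).kd Fl.jt → ∀ x y, T x y → P.Mem T' x (y + 1)) :
    P.sys.EvOK k (P.In T) (P.In T') := by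
  refine evOK_simple (M := P.sys) (F := Fs (P.ev k).kd) hk (PX_iff hkd) (PY_iff hkd)
    (by simp [Fs]) (by simp only [Fs]; omega) (inv_In T)
    (fun p hp => le_W (by omega) (kk_In hT hp)) (fun hF p hp => ?_) (fun hF p hp => ?_)
    (fun p hp hn => ?_) (fun hF p hp => ?_) (fun hF p hp => ?_)
  · obtain ⟨x, y, h3, h4⟩ := hp
    rw [(h4.add P.sys.r).kk, cl_r]
    exact kk_W (by have := hT x y h3; omega)
  · obtain ⟨x, y, h3, h4⟩ := hp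
    rw [(h4.add P.sys.t).kk, cl_t]
    exact kk_W (by have := hT x y h3; omega)
  · obtain ⟨x, y, h3, h4⟩ := hp
    obtain ⟨x', y', h5, h6⟩ := h1 x y h3 fun h => hn ⟨h.1, (ctr_eq k).symm.trans (Cg.trans h.2 h4)⟩
    exact ⟨x', y', h5, Cg.trans h6 h4⟩
  · obtain ⟨x, y, h3, h4⟩ := hp
    obtain ⟨x', y', h5, h6⟩ := hr hF x y h3
    refine ⟨x', y', h5, Cg.trans h6 ?_⟩
    rw [← cl_r]
    exact h4.add _
  · obtain ⟨x, y, h3, h4⟩ := hp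
    obtain ⟨x', y', h5, h6⟩ := ht hF x y h3
    refine ⟨x', y', h5, Cg.trans h6 ?_⟩
    rw [← cl_t]
    exact h4.add _

/-- Reachable classes before event `k`. -/
def RC (P : Prog) (k x y : ℕ) : Prop :=
  ∃ p, P.sys.At k p ∧ P.sys.Cg (cv (cl P.r P.t x y)) p

theorem RC.eq {k x y x' y' : ℕ} (h : P.RC k x y) (h' : P.CE x y x' y') : P.RC k x' y' := by
  obtain ⟨p, h1, h2⟩ := h
  exact ⟨p, h1, Cg.trans h'.symm h2⟩

theorem rc_zero : P.RC 0 0 0 := by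
  refine ⟨(0, 0), ⟨ReflTransGen.refl, ?_, Or.inl rfl, ?_⟩, 0, ?_⟩
  · rw [kk_zero, abs_zero]
    simp only [sys]
    positivity
  · rw [hh_zero]
    have h1 := P.sys.gap
    have h2 := P.sys.Q0
    have h3 := st_pos (M := P.sys)
    push_cast
    linarith
  · simp [adv, cv, cl]

theorem rc_pass {k : ℕ} (hk : k < P.K) (hkd : (P.ev k).kd ≠ 6) {x y : ℕ} (h : P.RC k x y)
    (hn : ¬ (Fs (P.ev k).kd Fl.k1 ∧ P.CE x y (P.ev k).x (P.ev k).y)) : P.RC (k + 1) x y := by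
  obtain ⟨p, h1, h2⟩ := h
  obtain ⟨n, hn'⟩ := simple_pass (M := P.sys) (F := Fs (P.ev k).kd) hk (PX_iff hkd) (PY_iff hkd)
    (by simp [Fs]) (by simp only [Fs]; omega) h1
    fun h => hn ⟨h.1, (h2.trans h.2).trans (ctr_eq k).symm⟩
  exact ⟨_, hn', h2.trans ⟨_, rfl⟩⟩

theorem rc_r {k : ℕ} (hk : k < P.K) {x y : ℕ} (h : P.RC k x y)
    (he : P.CE x y (P.ev k).x (P.ev k).y) (hkd : (P.ev k).kd = 2 ∨ (P.ev k).kd = 3) :
    P.RC (k + 1) (x + 1) y := by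
  obtain ⟨p, h1, h2⟩ := h
  have hkd' : (P.ev k).kd ≠ 6 := by omega
  have hc : P.sys.Cg (cv (cl P.r P.t x y)) (P.sys.c k) := Cg.trans he (ctr_eq k)
  have hev := P.hev k hk
  obtain ⟨n, hn'⟩ := simple_jump (M := P.sys) (F := Fs (P.ev k).kd) hk (PX_iff hkd')
    (PY_iff hkd') (by simp [Fs]) (by simp only [Fs]; omega) h1 (h2.symm.trans hc)
    (j := P.sys.r) (Or.inl ⟨hkd, rfl⟩) (by
      rw [((ctr_eq k).add P.sys.r).kk, cl_r]
      exact kk_W (by omega))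
  refine ⟨_, hn', Cg.trans ?_ ⟨_, rfl⟩⟩
  rw [← cl_r]
  exact hc.add _

theorem rc_t {k : ℕ} (hk : k < P.K) {x y : ℕ} (h : P.RC k x y)
    (he : P.CE x y (P.ev k).x (P.ev k).y) (hkd : (P.ev k).kd = 4 ∨ (P.ev k).kd = 5) :
    P.RC (k + 1) x (y + 1) := by
  obtain ⟨p, h1, h2⟩ := h
  have hkd' : (P.ev k).kd ≠ 6 := by omega
  have hc : P.sys.Cg (cv (cl P.r P.t x y)) (P.sys.c k) := Cg.trans he (ctr_eq k)
  have hev := P.hev k hk
  obtain ⟨n, hn'⟩ := simple_jump (M := P.sys) (F := Fs (P.ev k).kd) hk (PX_iff hkd')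
    (PY_iff hkd') (by simp [Fs]) (by simp only [Fs]; omega) h1 (h2.symm.trans hc)
    (j := P.sys.t) (Or.inr ⟨hkd, rfl⟩) (by
      rw [((ctr_eq k).add P.sys.t).kk, cl_t]
      exact kk_W (by omega))
  refine ⟨_, hn', Cg.trans ?_ ⟨_, rfl⟩⟩
  rw [← cl_t]
  exact hc.add _

/-- The height of the final position. -/
theorem hh_pos (x y T : ℕ) : P.sys.hh (cv (pos P.g P.r P.t x y T)) =
    P.sys.hh (cv (cl P.r P.t x y)) + T * (2 * (P.g.1 * P.g.2)) := by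
  rw [pos_eq, hh_adv]
  simp only [hh, sys, cv]
  ring

theorem hh_cl_nonneg (x y : ℕ) : 0 ≤ P.sys.hh (cv (cl P.r P.t x y)) := by
  simp only [hh, sys, cv, cl]
  positivity

/-- The final position. -/
def fin (P : Prog) (x y : ℕ) : ℕ × ℕ :=
  pos P.g P.r P.t x y (tm P.g P.r P.t P.α P.n0 P.K)

theorem hh_fin (x y : ℕ) : ((P.K : ℤ) + 1) * P.sys.Γ ≤ P.sys.hh (cv (P.fin x y)) := by
  unfold fin
  rw [hh_pos]
  have := hh_cl_nonneg (P := P) x y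
  simp only [sys, tm] at this ⊢
  push_cast
  nlinarith

/-- Soundness. -/
theorem soundP (T : ℕ → ℕ → ℕ → Prop) (h0 : T 0 0 0)
    (hE : ∀ k < P.K, P.sys.EvOK k (P.In (T k)) (P.In (T (k + 1))))
    (hb : ∀ x y, T P.K x y → x + y ≤ P.n0 + 1) {x y : ℕ}
    (h : ReflTransGen P.sys.Step (0, 0) (cv (P.fin x y))) : P.Mem (T P.K) x y := by
  have h1 := sound' (M := P.sys) (fun k => P.In (T k))
    (⟨0, 0, h0, 0, by simp [adv, cv, cl]⟩) hE (inv_In _)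
    (fun p hp => le_W (n := P.n0 + 1) (by omega) (kk_In hb hp)) h (by
      have h2 := hh_fin (P := P) x y
      have h3 := P.sys.gap
      have h4 := P.sys.Q0
      have h5 := st_pos (M := P.sys)
      have h6 : (P.sys.K : ℤ) = P.K := rfl
      rw [h6]
      rw [succΓ'] at h2
      linarith)
  obtain ⟨x', y', h2, h3⟩ := h1
  exact ⟨x', y', h2, h3.trans (Cg.symm ⟨_, pos_eq _ _ _⟩)⟩

/-- Completeness at the end. -/
theorem rc_end {x y : ℕ} (h : P.RC P.K x y) :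
    ReflTransGen P.sys.Step (0, 0) (cv (P.fin x y)) := by
  obtain ⟨p, ⟨h3, h4, h5, h6⟩, h2⟩ := h
  have hc : P.sys.Cg p (cv (P.fin x y)) := h2.symm.trans ⟨_, pos_eq _ _ _⟩
  obtain ⟨n, hn⟩ := hc
  have hfin := hh_fin (P := P) x y
  have hQ := P.sys.Q0
  have hn0 : 0 ≤ n := by
    have h7 : P.sys.hh (P.sys.adv p 0) ≤ P.sys.hh (P.sys.adv p n) := by
      rw [adv_zero, ← hn]
      linarith
    exact (height_le_iff _ _ _).1 h7
  obtain ⟨n, rfl⟩ := Int.eq_ofNat_of_zero_le hn0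
  rw [hn]
  clear hn hn0
  induction n with
  | zero => simpa [adv_zero] using h3
  | succ n ih =>
    refine ih.tail ?_
    have hg := hh_g_pos (M := P.sys)
    rw [step_end (M := P.sys) (by rwa [kk_adv]) (h5.imp_right fun h => ?_)]
    · push_cast
      exact adv_succ p n
    · rw [hh_adv]
      have : (0 : ℤ) ≤ n * P.sys.hh P.sys.g := by positivity
      have h6 : (P.sys.K : ℤ) = P.K := rfl
      rw [h6]
      linarith

section swap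

variable (hα : 2 ≤ P.α) (hr1 : P.r.1 = P.α * P.g.1) (hr2 : P.r.2 = 0) (ht1 : P.t.1 = 0)
  (ht2 : P.t.2 = P.α * P.g.2)

include hα hr1 hr2 ht1 ht2

theorem sw_hyps : (2 : ℤ) ≤ (P.α : ℤ) ∧ P.sys.r.1 = (P.α : ℤ) * P.sys.g.1 ∧ P.sys.r.2 = 0 ∧
    P.sys.t.1 = 0 ∧ P.sys.t.2 = (P.α : ℤ) * P.sys.g.2 := by
  refine ⟨by exact_mod_cast hα, ?_, ?_, ?_, ?_⟩
  · simp only [sys, cv, hr1]; push_cast; ring
  · simp only [sys, cv, hr2]; rfl
  · simp only [sys, cv, ht1]; rfl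
  · simp only [sys, cv, ht2]; push_cast; ring

theorem eq_rt (x y : ℕ) : P.CE x y (x + 1) (y + 1) := by
  obtain ⟨a1, a2, a3, a4, a5⟩ := sw_hyps hα hr1 hr2 ht1 ht2
  have := rt_eq (M := P.sys) a1 a2 a3 a4 a5 (cv (cl P.r P.t x y))
  rw [cl_r, cl_t] at this
  exact ⟨_, this⟩

theorem SX_iff {k : ℕ} (hkd : (P.ev k).kd = 6) (φ : Fl) (δ : ℤ) :
    P.sys.PX k φ δ ↔ P.sys.SX P.α φ δ := by
  simp only [sys, FX, SX, hkd, Fs, cv]
  cases φ <;> simp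

theorem SY_iff {k : ℕ} (hkd : (P.ev k).kd = 6) (φ : Fl) (δ : ℤ) :
    P.sys.PY k φ δ ↔ P.sys.SY P.α φ δ := by
  simp only [sys, FY, SY, hkd, Fs, cv]
  cases φ <;> simp

/-- Effect of a swap. -/
theorem evW {k : ℕ} (hk : k < P.K) (hkd : (P.ev k).kd = 6) {T T' : ℕ → ℕ → Prop}
    (hT : ∀ x y, T x y → x + y ≤ P.n0 + 1)
    (h1 : P.Mem T (P.ev k).x (P.ev k).y → P.Mem T' ((P.ev k).x + 1) (P.ev k).y)
    (h2 : P.Mem T ((P.ev k).x + 1) (P.ev k).y → P.Mem T' (P.ev k).x (P.ev k).y)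
    (h3 : ∀ x y, T x y → ¬ P.CE (P.ev k).x (P.ev k).y x y →
      ¬ P.CE ((P.ev k).x + 1) (P.ev k).y x y →
      P.Mem T' x y ∧ P.Mem T' (x + 1) y ∧ P.Mem T' x (y + 1)) :
    P.sys.EvOK k (P.In T) (P.In T') := by
  obtain ⟨a1, a2, a3, a4, a5⟩ := sw_hyps hα hr1 hr2 ht1 ht2
  have hev := P.hev k hk
  have hcr : P.sys.Cg (cv (cl P.r P.t ((P.ev k).x + 1) (P.ev k).y)) (P.sys.c k + P.sys.r) := by
    rw [← cl_r]
    exact (ctr_eq k).add _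
  refine evOK_swap (M := P.sys) hk a1 a2 a3 a4 a5 (SX_iff hα hr1 hr2 ht1 ht2 hkd)
    (SY_iff hα hr1 hr2 ht1 ht2 hkd) (inv_In T)
    (fun p hp => le_W (by omega) (kk_In hT hp)) (fun p hp => ?_) (fun p hp => ?_) (fun _ => ?_)
    (fun hc p hp => ?_) (fun hc p hp => ?_) (fun s hs hs1 hs2 => ?_)
  · obtain ⟨x, y, h3, h4⟩ := hp
    rw [(h4.add P.sys.r).kk, cl_r]
    exact kk_W (by have := hT x y h3; omega)
  · obtain ⟨x, y, h3, h4⟩ := hp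
    rw [(h4.add P.sys.t).kk, cl_t]
    exact kk_W (by have := hT x y h3; omega)
  · rw [(hcr.add P.sys.r).kk, cl_r]
    exact kk_W (by omega)
  · obtain ⟨x, y, h4, h5⟩ := hc
    obtain ⟨x', y', h6, h7⟩ := h1 ⟨x, y, h4, h5.trans (ctr_eq k).symm⟩
    exact ⟨x', y', h6, (Cg.trans h7 hcr).trans hp⟩
  · obtain ⟨x, y, h4, h5⟩ := hc
    obtain ⟨x', y', h6, h7⟩ := h2 ⟨x, y, h4, h5.trans hcr.symm⟩
    exact ⟨x', y', h6, (Cg.trans h7 (ctr_eq k)).trans hp⟩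
  · obtain ⟨x, y, h4, h5⟩ := hs
    obtain ⟨b1, b2, b3⟩ := h3 x y h4 (fun h => hs1 ((ctr_eq k).symm.trans (Cg.trans h h5)))
      (fun h => hs2 (hcr.symm.trans (Cg.trans h h5)))
    have c1 : s ∈ P.In T' := by
      obtain ⟨x', y', h6, h7⟩ := b1
      exact ⟨x', y', h6, Cg.trans h7 h5⟩
    refine ⟨c1, ?_, ?_, ?_⟩
    · obtain ⟨x', y', h6, h7⟩ := b2
      refine ⟨x', y', h6, Cg.trans h7 ?_⟩
      rw [← cl_r]
      exact h5.add _
    · obtain ⟨x', y', h6, h7⟩ := b3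
      refine ⟨x', y', h6, Cg.trans h7 ?_⟩
      rw [← cl_t]
      exact h5.add _
    · rw [rt_eq (M := P.sys) a1 a2 a3 a4 a5]
      exact inv_In T' _ _ ⟨_, rfl⟩ c1

theorem rc_up {k : ℕ} (hk : k < P.K) (hkd : (P.ev k).kd = 6) {x y : ℕ} (h : P.RC k x y)
    (he : P.CE x y (P.ev k).x (P.ev k).y) : P.RC (k + 1) (x + 1) y := by
  obtain ⟨a1, a2, a3, a4, a5⟩ := sw_hyps hα hr1 hr2 ht1 ht2
  obtain ⟨p, h1, h2⟩ := h
  have hc : P.sys.Cg (cv (cl P.r P.t x y)) (P.sys.c k) := Cg.trans he (ctr_eq k)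
  have hev := P.hev k hk
  obtain ⟨n, hn'⟩ := swap_up (M := P.sys) hk a1 a2 a3 a4 a5 (SX_iff hα hr1 hr2 ht1 ht2 hkd)
    (SY_iff hα hr1 hr2 ht1 ht2 hkd) h1 (h2.symm.trans hc) (by
      rw [((ctr_eq k).add P.sys.r).kk, cl_r]
      exact kk_W (by omega))
  refine ⟨_, hn', Cg.trans ?_ ⟨_, rfl⟩⟩
  rw [← cl_r]
  exact hc.add _

theorem rc_down {k : ℕ} (hk : k < P.K) (hkd : (P.ev k).kd = 6) {x y : ℕ}
    (h : P.RC k (x + 1) y) (he : P.CE x y (P.ev k).x (P.ev k).y) : P.RC (k + 1) x y := by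
  obtain ⟨a1, a2, a3, a4, a5⟩ := sw_hyps hα hr1 hr2 ht1 ht2
  obtain ⟨p, h1, h2⟩ := h
  rw [← cl_r] at h2
  have hc : P.sys.Cg (cv (cl P.r P.t x y)) (P.sys.c k) := Cg.trans he (ctr_eq k)
  have hev := P.hev k hk
  obtain ⟨n, hn'⟩ := swap_down (M := P.sys) hk a1 a2 a3 a4 a5 (SX_iff hα hr1 hr2 ht1 ht2 hkd)
    (SY_iff hα hr1 hr2 ht1 ht2 hkd) h1 (h2.symm.trans (hc.add _)) (by
      rw [(ctr_eq k).kk]
      exact kk_W (by omega))
  exact ⟨_, hn', hc.trans ⟨_, rfl⟩⟩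

/-- Tokens on other tracks pass a swap. -/
theorem rc_swap_pass {k : ℕ} (hk : k < P.K) (hkd : (P.ev k).kd = 6) {x y : ℕ}
    (h : P.RC k x y) {j : ℤ} (hj : j < -1 ∨ 2 < j)
    (he : P.sys.Cg (cv (cl P.r P.t x y)) (P.sys.c k + (j * P.sys.r.1, 0))) :
    P.RC (k + 1) x y := by
  obtain ⟨a1, a2, a3, a4, a5⟩ := sw_hyps hα hr1 hr2 ht1 ht2
  obtain ⟨p, h1, h2⟩ := h
  obtain ⟨m, hm⟩ := (Cg.symm (h2.symm.trans he) : P.sys.Cg (P.sys.c k + (j * P.sys.r.1, 0)) p)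
  obtain ⟨n, hn'⟩ := swap_pass (M := P.sys) hk a1 a2 a3 a4 a5
    (SX_iff hα hr1 hr2 ht1 ht2 hkd) (SY_iff hα hr1 hr2 ht1 ht2 hkd) h1 fun i hi => by
    have := kl_swap_track (M := P.sys) hk a1 a2 a3 a4 a5 (SX_iff hα hr1 hr2 ht1 ht2 hkd)
      (SY_iff hα hr1 hr2 ht1 ht2 hkd) hi (j := j) (n := m + i) (by
        rw [hm, adv_adv, adv_add])
    omega
  exact ⟨_, hn', h2.trans ⟨_, rfl⟩⟩

end swap

end Prog

end Pool.Agent.Helper38.Shape
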