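import Pool.Agent.Helper38.Shape.Event

/-!
# The swap
-/

namespace Pool.Agent.Helper38.Shape

open Relation

set_option linter.unusedSimpArgs false
set_option linter.unusedVariables false
set_option linter.unusedSectionVars false

theorem cancel_pos {a n m : ℤ} (ha : 0 < a) (h : n * a = m * a) : n = m :=
  mul_right_cancel₀ ha.ne' h

theorem no_unit {α x : ℤ} (hα : 2 ≤ α) (h : x * α = 1) : False := by
  rcases lt_trichotomy x 0 with h1 | h1 | h1
  · nlinarith
  · subst h1; omega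
  · nlinarith

namespace Sys

variable {M : Sys}

/-- Marks of columns. -/
def SX (M : Sys) (α : ℤ) (φ : Fl) (δ : ℤ) : Prop :=
  (φ = Fl.jr ∧ δ = 0) ∨ (φ = Fl.k1 ∧ (δ = 0 ∨ δ = (α - 1) * M.g.1)) ∨
    (φ = Fl.k2 ∧ (δ = α * M.g.1 ∨ δ = -M.g.1))

/-- Marks of rows. -/
def SY (M : Sys) (α : ℤ) (φ : Fl) (δ : ℤ) : Prop :=
  (φ = Fl.jt ∧ δ = -M.g.2) ∨ (φ = Fl.k1 ∧ (δ = 0 ∨ δ = -M.g.2)) ∨
    (φ = Fl.k2 ∧ (δ = -(α * M.g.2) ∨ δ = (α - 1) * M.g.2))

section swap

variable {k : ℕ} (hk : k < M.K) {α : ℤ} (hα : 2 ≤ α) (hr1 : M.r.1 = α * M.g.1) (hr2 : M.r.2 = 0)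
  (ht1 : M.t.1 = 0) (ht2 : M.t.2 = α * M.g.2)
  (hX : ∀ φ δ, M.PX k φ δ ↔ M.SX α φ δ) (hY : ∀ φ δ, M.PY k φ δ ↔ M.SY α φ δ)

include hα hr1 hr2 ht1 ht2

theorem rt_eq (p : V2) : p + M.r + M.t = M.adv p α := by
  simp only [adv, Prod.ext_iff, Prod.fst_add, Prod.snd_add, hr1, hr2, ht1, ht2]
  constructor <;> ring

include hk hX hY

theorem kl_swap {p : V2} : M.Kl k p ↔
    ((p.1 - (M.c k).1 = 0 ∨ p.1 - (M.c k).1 = (α - 1) * M.g.1) ∧
      (p.2 - (M.c k).2 = 0 ∨ p.2 - (M.c k).2 = -M.g.2)) ∨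
    ((p.1 - (M.c k).1 = α * M.g.1 ∨ p.1 - (M.c k).1 = -M.g.1) ∧
      (p.2 - (M.c k).2 = -(α * M.g.2) ∨ p.2 - (M.c k).2 = (α - 1) * M.g.2)) := by
  unfold Kl
  simp only [hX, hY, SX, SY]
  simp

theorem evOK_swap {S S' : Set V2} (hI : M.Inv S)
    (hb : ∀ p ∈ S, |M.kk p| ≤ M.W) (hbr : ∀ p ∈ S, |M.kk (p + M.r)| ≤ M.W)
    (hbt : ∀ p ∈ S, |M.kk (p + M.t)| ≤ M.W)
    (hbrr : M.c k + M.r ∈ S → |M.kk (M.c k + M.r + M.r)| ≤ M.W)
    (h1 : M.c k ∈ S → ∀ p, M.Cg (M.c k + M.r) p → p ∈ S')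
    (h2 : M.c k + M.r ∈ S → ∀ p, M.Cg (M.c k) p → p ∈ S')
    (h3 : ∀ s ∈ S, ¬ M.Cg (M.c k) s → ¬ M.Cg (M.c k + M.r) s →
      s ∈ S' ∧ s + M.r ∈ S' ∧ s + M.t ∈ S' ∧ s + M.r + M.t ∈ S') :
    M.EvOK k S S' := by
  obtain ⟨hc1, hc2⟩ := M.hc k hk
  change _ < M.hh (M.c k) at hc1
  change M.hh (M.c k) ≤ _ at hc2
  have hg1 := M.g1
  have hg2 := M.g2
  have hgp := hh_g_pos (M := M)
  have hQ0 := M.Q0
  have hα1 : 0 < α * M.g.1 := by positivity
  have hα2 : 0 < α * M.g.2 := by positivity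
  set c := M.c k with hcdef
  -- heights of the local positions
  have hrh : M.hh M.r = α * M.g.2 * M.g.1 := by unfold hh; rw [hr1, hr2]; ring
  have hth : M.hh M.t = α * M.g.2 * M.g.1 := by unfold hh; rw [ht1, ht2]; ring
  have hgh : M.hh M.g = 2 * (M.g.2 * M.g.1) := by unfold hh; ring
  refine ⟨{p | (c ∈ S ∧ ∃ n : ℤ, n ≤ 0 ∧ p = M.adv c n) ∨
    (c ∈ S ∧ ∃ n : ℤ, 0 ≤ n ∧ p = M.adv (c + M.r) n) ∨
    (c + M.r ∈ S ∧ ∃ n : ℤ, n ≤ -1 ∧ p = M.adv (c + M.r) n) ∨
    (c + M.r ∈ S ∧ ∃ n : ℤ, α - 1 ≤ n ∧ p = M.adv c n) ∨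
    (c + M.r ∈ S ∧ p = M.adv (c + M.r + M.r) (-α)) ∨
    (c ∈ S ∧ p = M.adv (c + M.t) (-1)) ∨
    (∃ s ∈ S, ¬ M.Cg c s ∧ ¬ M.Cg (c + M.r) s ∧
      (p = s ∨ (p = s + M.r ∧ c.1 < p.1) ∨ (p = s + M.t ∧ c.2 - M.g.2 < p.2) ∨
        (p = s + M.r + M.t ∧ c.1 < p.1 ∧ c.2 - M.g.2 < p.2)))}, ?_, ?_, ?_, ?_⟩
  · intro p hp hlow
    by_cases e1 : M.Cg c p
    · obtain ⟨n, rfl⟩ := e1
      left
      refine ⟨hI _ _ (Cg.symm ⟨n, rfl⟩) hp, n, ?_, rfl⟩
      refine (height_le_iff (M := M) c n 0).1 ?_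
      rw [adv_zero]
      linarith
    by_cases e2 : M.Cg (c + M.r) p
    · obtain ⟨n, rfl⟩ := e2
      right; right; left
      refine ⟨hI _ _ (Cg.symm ⟨n, rfl⟩) hp, n, ?_, rfl⟩
      have h4 : M.hh (c + M.r) + n * M.hh M.g ≤ (k + 1) * M.Γ - M.Q := by rwa [← hh_adv]
      rw [hh_add, hrh] at h4
      by_contra h5
      push Not at h5
      have h6 : 0 ≤ n := by omega
      have h7 : 0 ≤ n * M.hh M.g := by positivity
      have h8 : 0 < α * M.g.2 * M.g.1 := by positivity
      linarith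
    · exact Or.inr (Or.inr (Or.inr (Or.inr (Or.inr (Or.inr ⟨p, hp, e1, e2, Or.inl rfl⟩)))))
  · rintro p hp p' ⟨q, hq, rfl⟩
    have hq' : (q = M.g ∧ ¬ M.Kl k p) ∨ (q = M.r ∧ p.1 = c.1) ∨
        (q = M.t ∧ p.2 = c.2 - M.g.2) := by
      rcases hq with ⟨hq, h4, h5⟩ | ⟨hq, h4, h5⟩ | ⟨hq, h4, h5⟩
      · left
        exact ⟨hq, fun h => h.elim h4 h5⟩
      · right; left
        have := (hX _ _).1 (h4 (by rw [hr1]; exact hα1.ne'))
        simp [SX] at this
        exact ⟨hq, by linarith⟩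
      · right; right
        have := (hY _ _).1 (h5 (by rw [ht2]; exact hα2.ne'))
        simp [SY] at this
        exact ⟨hq, by linarith⟩
    clear hq
    rw [kl_swap hk hα hr1 hr2 ht1 ht2 hX hY] at hq'
    rw [← hcdef] at hq'
    rcases hp with ⟨hS, n, hn, rfl⟩ | ⟨hS, n, hn, rfl⟩ | ⟨hS, n, hn, rfl⟩ | ⟨hS, n, hn, rfl⟩ |
      ⟨hS, rfl⟩ | ⟨hS, rfl⟩ | ⟨s, hs, hs1, hs2, hp⟩
    · -- before, on the track of `c`
      rcases hq' with ⟨rfl, hK⟩ | ⟨rfl, hK⟩ | ⟨rfl, hK⟩
      · left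
        refine ⟨hS, n + 1, ?_, (adv_succ c n).symm⟩
        rcases hn.lt_or_eq with h | h
        · omega
        · exfalso
          subst h
          apply hK
          simp [adv]
      · simp only [adv] at hK
        have h0 : n = 0 := cancel_pos hg1 (by linarith)
        subst h0
        right; left
        exact ⟨hS, 0, le_rfl, by rw [adv_zero, adv_zero]⟩
      · simp only [adv] at hK
        have h0 : n = -1 := cancel_pos hg2 (by linarith)
        subst h0
        right; right; right; right; right; left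
        exact ⟨hS, adv_add _ _ _⟩
    · -- after
      rcases hq' with ⟨rfl, hK⟩ | ⟨rfl, hK⟩ | ⟨rfl, hK⟩
      · right; left
        exact ⟨hS, n + 1, by omega, (adv_succ _ n).symm⟩
      · exfalso
        simp only [adv, Prod.fst_add, hr1] at hK
        have := cancel_pos (n := α + n) (m := 0) hg1 (by linarith)
        omega
      · exfalso
        simp only [adv, Prod.snd_add, hr2] at hK
        have := cancel_pos (n := n) (m := -1) hg2 (by linarith)
        omega
    · rcases hq' with ⟨rfl, hK⟩ | ⟨rfl, hK⟩ | ⟨rfl, hK⟩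
      · right; right; left
        refine ⟨hS, n + 1, ?_, (adv_succ _ n).symm⟩
        rcases hn.lt_or_eq with h | h
        · omega
        · exfalso
          subst h
          apply hK
          left
          simp only [adv, Prod.fst_add, Prod.snd_add, hr1, hr2]
          exact ⟨Or.inr (by ring), Or.inr (by ring)⟩
      · simp only [adv, Prod.fst_add, hr1] at hK
        have h0 := cancel_pos (n := α + n) (m := 0) hg1 (by linarith)
        have h0' : n = -α := by omega
        subst h0'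
        right; right; right; right; left
        exact ⟨hS, adv_add _ _ _⟩
      · simp only [adv, Prod.snd_add, hr2] at hK
        have h0 := cancel_pos (n := n) (m := -1) hg2 (by linarith)
        subst h0
        right; right; right; left
        refine ⟨hS, α - 1, le_rfl, ?_⟩
        rw [adv_add, rt_eq hα hr1 hr2 ht1 ht2, adv_adv]
        congr 1
    · rcases hq' with ⟨rfl, hK⟩ | ⟨rfl, hK⟩ | ⟨rfl, hK⟩
      · right; right; right; left
        exact ⟨hS, n + 1, by omega, (adv_succ _ n).symm⟩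
      · exfalso
        simp only [adv] at hK
        have := cancel_pos (n := n) (m := 0) hg1 (by linarith)
        omega
      · exfalso
        simp only [adv] at hK
        have := cancel_pos (n := n) (m := -1) hg2 (by linarith)
        omega
    · rcases hq' with ⟨rfl, hK⟩ | ⟨rfl, hK⟩ | ⟨rfl, hK⟩
      · exfalso
        apply hK
        right
        simp only [adv, Prod.fst_add, Prod.snd_add, hr1, hr2]
        exact ⟨Or.inl (by ring), Or.inl (by ring)⟩
      · exfalso
        simp only [adv, Prod.fst_add, hr1] at hK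
        have := cancel_pos (n := α) (m := 0) hg1 (by linarith)
        omega
      · exfalso
        simp only [adv, Prod.snd_add, hr2] at hK
        have := cancel_pos (n := -α) (m := -1) hg2 (by linarith)
        omega
    · rcases hq' with ⟨rfl, hK⟩ | ⟨rfl, hK⟩ | ⟨rfl, hK⟩
      · exfalso
        apply hK
        right
        simp only [adv, Prod.fst_add, Prod.snd_add, ht1, ht2]
        exact ⟨Or.inr (by ring), Or.inr (by ring)⟩
      · exfalso
        simp only [adv, Prod.fst_add, ht1] at hK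
        have := cancel_pos (n := -1) (m := 0) hg1 (by linarith)
        omega
      · exfalso
        simp only [adv, Prod.snd_add, ht2] at hK
        have := cancel_pos (n := α - 1) (m := -1) hg2 (by linarith)
        omega
    · have hgS : s + M.g ∈ S ∧ ¬ M.Cg c (s + M.g) ∧ ¬ M.Cg (c + M.r) (s + M.g) := by
        have e : M.Cg s (s + M.g) := ⟨1, add_g s⟩
        exact ⟨hI _ _ e hs, fun h => hs1 (h.trans e.symm), fun h => hs2 (h.trans e.symm)⟩
      right; right; right; right; right; right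
      rcases hq' with ⟨rfl, hK⟩ | ⟨rfl, hK⟩ | ⟨rfl, hK⟩
      · refine ⟨s + M.g, hgS.1, hgS.2.1, hgS.2.2, ?_⟩
        rcases hp with rfl | ⟨rfl, h4⟩ | ⟨rfl, h4⟩ | ⟨rfl, h4, h5⟩
        · exact Or.inl rfl
        · right; left
          exact ⟨by abel, by simp only [Prod.fst_add] at h4 ⊢; linarith⟩
        · right; right; left
          exact ⟨by abel, by simp only [Prod.snd_add] at h4 ⊢; linarith⟩
        · right; right; right
          exact ⟨by abel, by simp only [Prod.fst_add] at h4 ⊢; linarith,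
            by simp only [Prod.snd_add] at h5 ⊢; linarith⟩
      · refine ⟨s, hs, hs1, hs2, ?_⟩
        rcases hp with rfl | ⟨rfl, h4⟩ | ⟨rfl, h4⟩ | ⟨rfl, h4, h5⟩
        · right; left
          refine ⟨rfl, ?_⟩
          simp only [Prod.fst_add, hr1]
          linarith
        · exact absurd hK h4.ne'
        · right; right; right
          refine ⟨by abel, ?_, ?_⟩
          · simp only [Prod.fst_add, hr1] at hK ⊢
            linarith
          · simp only [Prod.snd_add, hr2] at h4 ⊢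
            linarith
        · exact absurd hK h4.ne'
      · refine ⟨s, hs, hs1, hs2, ?_⟩
        rcases hp with rfl | ⟨rfl, h4⟩ | ⟨rfl, h4⟩ | ⟨rfl, h4, h5⟩
        · right; right; left
          refine ⟨rfl, ?_⟩
          simp only [Prod.snd_add, ht2]
          linarith
        · right; right; right
          refine ⟨rfl, ?_, ?_⟩
          · simp only [Prod.fst_add, ht1] at h4 ⊢
            linarith
          · simp only [Prod.snd_add, ht2] at hK ⊢
            linarith
        · exact absurd hK h4.ne'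
        · exact absurd hK h5.ne'
  · have hbig : 0 < α * M.g.2 * M.g.1 := by positivity
    have hgg : 0 < M.g.2 * M.g.1 := by positivity
    rintro p hp hh
    rcases hp with ⟨hS, n, hn, rfl⟩ | ⟨hS, n, hn, rfl⟩ | ⟨hS, n, hn, rfl⟩ | ⟨hS, n, hn, rfl⟩ |
      ⟨hS, rfl⟩ | ⟨hS, rfl⟩ | ⟨s, hs, hs1, hs2, hp⟩
    · exfalso
      have := (height_le_iff (M := M) c n 0).2 hn
      rw [adv_zero] at this
      linarith
    · exact h1 hS _ ⟨n, rfl⟩
    · exfalso
      have h4 := M.loc k hk Fl.k1 (M.adv (c + M.r) (-1))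
        (by change |M.kk _| ≤ _; rw [kk_adv]; exact hb _ hS)
        (Or.inl ((hX _ _).2 (Or.inr (Or.inl ⟨rfl, Or.inr (by
          simp only [adv, Prod.fst_add, hr1]; ring)⟩))))
      have h5 := (height_le_iff (M := M) (c + M.r) n (-1)).2 hn
      have h6 := h4.2
      change M.hh _ ≤ _ at h6
      linarith
    · exact h2 hS _ ⟨n, rfl⟩
    · exfalso
      have h4 := M.loc k hk Fl.k2 (M.adv (c + M.r + M.r) (-α))
        (by change |M.kk _| ≤ _; rw [kk_adv]; exact hbrr hS)
        (Or.inl ((hX _ _).2 (Or.inr (Or.inr ⟨rfl, Or.inl (by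
          simp only [adv, Prod.fst_add, hr1]; ring)⟩))))
      have h6 := h4.2
      change M.hh _ ≤ _ at h6
      linarith
    · exfalso
      have h4 := M.loc k hk Fl.k2 (M.adv (c + M.t) (-1))
        (by change |M.kk _| ≤ _; rw [kk_adv]; exact hbt _ hS)
        (Or.inl ((hX _ _).2 (Or.inr (Or.inr ⟨rfl, Or.inr (by
          simp only [adv, Prod.fst_add, ht1]; ring)⟩))))
      have h6 := h4.2
      change M.hh _ ≤ _ at h6
      linarith
    · obtain ⟨h4, h5, h6, h7⟩ := h3 s hs hs1 hs2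
      rcases hp with rfl | ⟨rfl, _⟩ | ⟨rfl, _⟩ | ⟨rfl, _⟩ <;> assumption
  · rintro p hp
    rcases hp with ⟨hS, n, hn, rfl⟩ | ⟨hS, n, hn, rfl⟩ | ⟨hS, n, hn, rfl⟩ | ⟨hS, n, hn, rfl⟩ |
      ⟨hS, rfl⟩ | ⟨hS, rfl⟩ | ⟨s, hs, hs1, hs2, hp⟩
    · rw [kk_adv]; exact hb _ hS
    · rw [kk_adv]; exact hbr _ hS
    · rw [kk_adv]; exact hb _ hS
    · have h4 := hbt _ hS
      rw [rt_eq hα hr1 hr2 ht1 ht2, kk_adv] at h4
      rwa [kk_adv]
    · rw [kk_adv]; exact hbrr hS
    · rw [kk_adv]; exact hbt _ hS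
    · rcases hp with rfl | ⟨rfl, _⟩ | ⟨rfl, _⟩ | ⟨rfl, _⟩
      · exact hb _ hs
      · exact hbr _ hs
      · exact hbt _ hs
      · rw [rt_eq hα hr1 hr2 ht1 ht2, kk_adv]; exact hb _ hs

/-- Tokens on the other tracks pass the swap. -/
theorem swap_pass {p : V2} (hp : M.At k p) (hn : ∀ i : ℕ, ¬ M.Kl k (M.adv p i)) :
    ∃ n : ℕ, M.At (k + 1) (M.adv p n) := by
  obtain ⟨h3, h4, h5, h6⟩ := hp
  refine pass hk h3 h4 h5 ?_ hn
  have := M.Q0
  have := st_pos (M := M)
  linarith

/-- Positions of relative tracks other than `-1, 0, 1, 2` are not killed. -/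
theorem kl_swap_track {p : V2} (hK : M.Kl k p) {j n : ℤ} (hp : p = M.adv (M.c k) n + (j * M.r.1, 0)) :
    (j = 0 ∧ n = 0) ∨ (j = 1 ∧ n = -1) ∨ (j = 2 ∧ n = -α) ∨ (j = -1 ∧ n = α - 1) := by
  have hg1 := M.g1
  have hg2 := M.g2
  rw [kl_swap hk hα hr1 hr2 ht1 ht2 hX hY, hp] at hK
  simp only [adv, Prod.fst_add, Prod.snd_add, hr1] at hK
  rcases hK with ⟨h1 | h1, h2 | h2⟩ | ⟨h1 | h1, h2 | h2⟩
  · have e2 := cancel_pos (n := n) (m := 0) hg2 (by linarith)
    subst e2
    have e1 := cancel_pos (n := j * α) (m := 0) hg1 (by linarith)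
    rcases mul_eq_zero.1 e1 with h | h
    · exact Or.inl ⟨h, rfl⟩
    · omega
  · have e2 := cancel_pos (n := n) (m := -1) hg2 (by linarith)
    subst e2
    have e1 := cancel_pos (n := j * α) (m := 1) hg1 (by linarith)
    exfalso
    exact no_unit hα e1
  · have e2 := cancel_pos (n := n) (m := 0) hg2 (by linarith)
    subst e2
    have e1 := cancel_pos (n := j * α) (m := α - 1) hg1 (by linarith)
    exfalso
    exact no_unit (x := 1 - j) hα (by linarith)
  · have e2 := cancel_pos (n := n) (m := -1) hg2 (by linarith)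
    subst e2
    have e1 := cancel_pos (n := j * α) (m := 1 * α) hg1 (by linarith)
    have := cancel_pos (n := j) (m := 1) (by omega) e1
    exact Or.inr (Or.inl ⟨this, rfl⟩)
  · have e2 := cancel_pos (n := n) (m := -α) hg2 (by linarith)
    subst e2
    have e1 := cancel_pos (n := j * α) (m := 2 * α) hg1 (by linarith)
    have := cancel_pos (n := j) (m := 2) (by omega) e1
    exact Or.inr (Or.inr (Or.inl ⟨this, rfl⟩))
  · have e2 := cancel_pos (n := n) (m := α - 1) hg2 (by linarith)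
    subst e2
    have e1 := cancel_pos (n := j * α) (m := 1) hg1 (by linarith)
    exfalso
    exact no_unit hα e1
  · have e2 := cancel_pos (n := n) (m := -α) hg2 (by linarith)
    subst e2
    have e1 := cancel_pos (n := j * α) (m := α - 1) hg1 (by linarith)
    exfalso
    exact no_unit (x := 1 - j) hα (by linarith)
  · have e2 := cancel_pos (n := n) (m := α - 1) hg2 (by linarith)
    subst e2
    have e1 := cancel_pos (n := j * α) (m := -1 * α) hg1 (by linarith)
    have := cancel_pos (n := j) (m := -1) (by omega) e1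
    exact Or.inr (Or.inr (Or.inr ⟨this, rfl⟩))

/-- The token on the track of `c k` moves to the next track. -/
theorem swap_up {p : V2} (hp : M.At k p) (hc : M.Cg p (M.c k))
    (hb : |M.kk (M.c k + M.r)| ≤ M.W) :
    ∃ n : ℕ, M.At (k + 1) (M.adv (M.c k + M.r) n) := by
  obtain ⟨h3, h4, h5, h6⟩ := hp
  obtain ⟨hc1, hc2⟩ := M.hc k hk
  change _ < M.hh (M.c k) at hc1
  change M.hh (M.c k) ≤ _ at hc2
  have hQ0 := M.Q0
  have hst := st_pos (M := M)
  have hgap := M.gap
  have hgp := hh_g_pos (M := M)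
  have hg1 := M.g1
  obtain ⟨n, hn⟩ := hc
  have hn0 : 0 ≤ n := by
    have h7 : M.hh (M.adv p 0) ≤ M.hh (M.adv p n) := by rw [adv_zero, ← hn]; linarith
    exact (height_le_iff _ _ _).1 h7
  obtain ⟨n, rfl⟩ := Int.eq_ofNat_of_zero_le hn0
  have hck : ReflTransGen M.Step (0, 0) (M.c k) := by
    rw [hn]
    refine walk hk h3 h4 h5 n fun i hi => ?_
    have h7 : M.hh (M.adv p i) ≤ M.hh (M.c k) := by
      rw [hn]
      exact (height_le_iff _ _ _).2 (by exact_mod_cast hi.le)
    refine ⟨fun hK => ?_, by linarith⟩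
    have := kl_swap_track hk hα hr1 hr2 ht1 ht2 hX hY hK (j := 0) (n := (i : ℤ) - n) (by
      rw [hn, adv_adv]
      simp [Prod.ext_iff])
    omega
  have hbc : |M.kk (M.c k)| ≤ M.W := by
    rw [hn, kk_adv]; exact h4
  have hlow : k = 0 ∨ (k : ℤ) * M.Γ + M.Q < M.hh (M.c k) := by
    rcases h5 with h5 | h5
    · exact Or.inl h5
    · right
      rw [succΓ'] at hc1
      linarith
  have hrs : M.hh M.r ≤ M.st := M.sr
  have hrp := hh_r_nonneg (M := M)
  have hjump : ReflTransGen M.Step (0, 0) (M.c k + M.r) := by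
    refine hck.tail ?_
    rw [step_iff hk hbc hlow (by linarith)]
    refine ⟨M.r, Or.inr (Or.inl ⟨rfl, fun _ => ?_, fun h => absurd hr2 h⟩), rfl⟩
    show M.PX k Fl.jr _
    rw [hX]
    left
    simp
  refine pass hk hjump hb ?_ ?_ fun i hi => ?_
  · rw [hh_add]
    exact hlow.imp_right fun h => by linarith
  · rw [hh_add]
    linarith
  · have := kl_swap_track hk hα hr1 hr2 ht1 ht2 hX hY hi (j := 1) (n := (i : ℤ)) (by
      simp only [adv, Prod.ext_iff, Prod.fst_add, Prod.snd_add, hr2]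
      constructor <;> ring)
    omega

/-- The token on the next track moves to the track of `c k`. -/
theorem swap_down {p : V2} (hp : M.At k p) (hc : M.Cg p (M.c k + M.r))
    (hb : |M.kk (M.c k)| ≤ M.W) :
    ∃ n : ℤ, M.At (k + 1) (M.adv (M.c k) n) := by
  obtain ⟨h3, h4, h5, h6⟩ := hp
  have hQ0 := M.Q0
  have hst := st_pos (M := M)
  have hgap := M.gap
  have hgp := hh_g_pos (M := M)
  have hg1 := M.g1
  -- the position of the jump
  set d := M.adv (M.c k + M.r) (-1) with hd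
  have hdc : M.Cg p d := hc.trans ⟨-1, rfl⟩
  have hbd : |M.kk d| ≤ M.W := by
    rw [hdc.kk]; exact h4
  have hloc := M.loc k hk Fl.k1 d hbd (Or.inl ((hX _ _).2 (Or.inr (Or.inl ⟨rfl, Or.inr (by
          rw [hd]
          simp only [adv, Prod.fst_add, hr1]; ring)⟩))))
  obtain ⟨hd1, hd2⟩ := hloc
  change _ ≤ M.hh d at hd1
  change M.hh d ≤ _ at hd2
  obtain ⟨n, hn⟩ := hdc
  have hn0 : 0 ≤ n := by
    have h7 : M.hh (M.adv p 0) ≤ M.hh (M.adv p n) := by rw [adv_zero, ← hn]; linarith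
    exact (height_le_iff _ _ _).1 h7
  obtain ⟨n, rfl⟩ := Int.eq_ofNat_of_zero_le hn0
  have hdr : ReflTransGen M.Step (0, 0) d := by
    rw [hn]
    refine walk hk h3 h4 h5 n fun i hi => ?_
    have h7 : M.hh (M.adv p i) ≤ M.hh d := by
      rw [hn]
      exact (height_le_iff _ _ _).2 (by exact_mod_cast hi.le)
    refine ⟨fun hK => ?_, by linarith⟩
    have e : M.adv p i = M.adv (M.c k + M.r) (-1 - n + i) := by
      have : p = M.adv d (-n) := by rw [hn, adv_adv]; simp [adv_zero]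
      rw [this, hd, adv_adv, adv_adv]
      congr 1
      ring
    have := kl_swap_track hk hα hr1 hr2 ht1 ht2 hX hY hK (j := 1) (n := -1 - (n : ℤ) + i) (by
      rw [e]
      simp only [adv, Prod.ext_iff, Prod.fst_add, Prod.snd_add, hr2]
      constructor <;> ring)
    omega
  have hlow : k = 0 ∨ (k : ℤ) * M.Γ + M.Q < M.hh d := by
    rcases h5 with h5 | h5
    · exact Or.inl h5
    · right
      have : M.hh p ≤ M.hh d := by
        have := (height_le_iff (M := M) p 0 n).2 (by positivity)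
        rwa [adv_zero, ← hn] at this
      linarith
  have hts : M.hh M.t ≤ M.st := M.stt
  have htp := hh_t_nonneg (M := M)
  have hjump : ReflTransGen M.Step (0, 0) (d + M.t) := by
    refine hdr.tail ?_
    rw [step_iff hk hbd hlow (by linarith)]
    refine ⟨M.t, Or.inr (Or.inr ⟨rfl, fun h => absurd ht1 h, fun _ => ?_⟩), rfl⟩
    show M.PY k Fl.jt _
    rw [hY]
    left
    simp [hd, adv, hr2]
  have hdt : d + M.t = M.adv (M.c k) (α - 1) := by
    rw [hd, adv_add, rt_eq hα hr1 hr2 ht1 ht2, adv_adv]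
    congr 1
  obtain ⟨m, hm⟩ := pass hk hjump (by rw [hdt, kk_adv]; exact hb)
    (by rw [hh_add]; exact hlow.imp_right fun h => by linarith) (by rw [hh_add]; linarith)
    fun i hi => by
      have := kl_swap_track hk hα hr1 hr2 ht1 ht2 hX hY hi (j := 0) (n := α - 1 + (i : ℤ)) (by
        rw [hdt, adv_adv]
        simp [Prod.ext_iff])
      omega
  rw [hdt, adv_adv] at hm
  exact ⟨_, hm⟩

end swap

end Sys

end Pool.Agent.Helper38.Shape
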