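import Pool.Agent.Helper38.Shape.Main

/-!
# Linear grammars with one nonterminal: a trichotomy by the shapes of the rules

Consider linear grammars with one nonterminal `S` and call `(|u|, |v|)` the shape of a rule
`S → u S v`. For a set `F` of shapes (without `(0, 0)`, the shape of the useless rule `S → S`)
exactly one of the following holds.

* `F` is degenerate: its elements are parallel or on the axes. Then all grammars with shapes in
  `F` generate languages in deterministic logarithmic space.
* `F` is not degenerate and contained in a set `{s, t, s + t}`. Then the question whether the
  languages of all these grammars are in deterministic logarithmic space is equivalent to the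
  same question for layered grid graph reachability, and to that for the language of one of
  these grammars.
* Otherwise there is a grammar with shapes in `F` whose language is in deterministic logarithmic
  space if and only if all linear languages are.
-/

namespace Pool.Agent.Helper38.Shape.TrichotomyKept

open Pool.Agent.Helper38.LinL Pool.Agent.Helper38.LinTwo Pool.Agent.Helper38.Shape

theorem result (F : Set (ℕ × ℕ)) (h0 : (0, 0) ∉ F) :
    (Degenerate F →
      ∀ (β : Type) (_ : Finite β) (H : LinearGrammar β), OneShape F H → InL H.language) ∧
    (¬ Degenerate F → PlanarSet F →
      ∃ (α : Type) (_ : Finite α) (G : LinearGrammar α), OneShape F G ∧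
        (InL G.language ↔ InL LGGR) ∧
        ((∀ (β : Type) (_ : Finite β) (H : LinearGrammar β), OneShape F H → InL H.language) ↔
          InL LGGR)) ∧
    (¬ Degenerate F → ¬ PlanarSet F →
      ∃ (α : Type) (_ : Finite α) (G : LinearGrammar α), OneShape F G ∧
        (InL G.language ↔
          ∀ (β : Type) (_ : Finite β) (H : LinearGrammar β), InL H.language)) :=
  ⟨fun h _ _ _ hH => inL_degenerate h hH, fun h1 h2 => planar_case h1 h2,
    fun h1 h2 => general_case h0 h1 h2⟩

end Pool.Agent.Helper38.Shape.TrichotomyKept
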