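import Pool.Agent.Helper38.Shape.Block

/-!
# Three steps that are not in a plane position
-/

namespace Pool.Agent.Helper38.Shape

open Relation Classical

set_option linter.unusedSimpArgs false
set_option linter.unusedVariables false
set_option linter.unusedSectionVars false

namespace Prog

variable {P : Prog}

theorem ev_noop {k : ℕ} (hk : k < P.K) (he : (P.ev k).kd = 0) {T T' : ℕ → ℕ → Prop}
    (hT : ∀ x y, T x y → x + y ≤ P.n0 + 1) (h : ∀ x y, T x y → P.Mem T' x y) :
    P.sys.EvOK k (P.In T) (P.In T') := by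
  refine evS hk (by omega) hT (fun x y h1 _ => h x y h1) (fun h => ?_) (fun h => ?_) <;>
  · simp only [Fs] at h
    omega

theorem ev_kill {k X Y : ℕ} (hk : k < P.K) (he : P.ev k = ⟨X, Y, 1⟩) {T T' : ℕ → ℕ → Prop}
    (hT : ∀ x y, T x y → x + y ≤ P.n0 + 1)
    (h : ∀ x y, T x y → ¬ P.CE X Y x y → P.Mem T' x y) :
    P.sys.EvOK k (P.In T) (P.In T') := by
  refine evS hk (by rw [he]; simp) hT (fun x y h1 h2 => h x y h1 fun h3 => h2 ⟨?_, ?_⟩)
    (fun h => ?_) (fun h => ?_)
  · rw [he]; simp [Fs]
  · rw [he]; exact h3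
  · rw [he] at h; simp [Fs] at h
  · rw [he] at h; simp [Fs] at h

theorem ev_ra {k X Y : ℕ} (hk : k < P.K) (he : P.ev k = ⟨X, Y, 2⟩) {T T' : ℕ → ℕ → Prop}
    (hT : ∀ x y, T x y → x + y ≤ P.n0 + 1)
    (h : ∀ x y, T x y → P.Mem T' x y ∧ P.Mem T' (x + 1) y) :
    P.sys.EvOK k (P.In T) (P.In T') := by
  refine evS hk (by rw [he]; simp) hT (fun x y h1 h2 => (h x y h1).1)
    (fun _ x y h1 => (h x y h1).2) (fun h => ?_)
  rw [he] at h; simp [Fs] at h

theorem ev_rf {k X Y : ℕ} (hk : k < P.K) (he : P.ev k = ⟨X, Y, 3⟩) {T T' : ℕ → ℕ → Prop}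
    (hT : ∀ x y, T x y → x + y ≤ P.n0 + 1)
    (h : ∀ x y, T x y → (¬ P.CE X Y x y → P.Mem T' x y) ∧ P.Mem T' (x + 1) y) :
    P.sys.EvOK k (P.In T) (P.In T') := by
  refine evS hk (by rw [he]; simp) hT (fun x y h1 h2 => (h x y h1).1 fun h3 => h2 ⟨?_, ?_⟩)
    (fun _ x y h1 => (h x y h1).2) (fun h => ?_)
  · rw [he]; simp [Fs]
  · rw [he]; exact h3
  · rw [he] at h; simp [Fs] at h

theorem ev_ta {k X Y : ℕ} (hk : k < P.K) (he : P.ev k = ⟨X, Y, 4⟩) {T T' : ℕ → ℕ → Prop}
    (hT : ∀ x y, T x y → x + y ≤ P.n0 + 1)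
    (h : ∀ x y, T x y → P.Mem T' x y ∧ P.Mem T' x (y + 1)) :
    P.sys.EvOK k (P.In T) (P.In T') := by
  refine evS hk (by rw [he]; simp) hT (fun x y h1 h2 => (h x y h1).1)
    (fun h => ?_) (fun _ x y h1 => (h x y h1).2)
  rw [he] at h; simp [Fs] at h

theorem ev_tf {k X Y : ℕ} (hk : k < P.K) (he : P.ev k = ⟨X, Y, 5⟩) {T T' : ℕ → ℕ → Prop}
    (hT : ∀ x y, T x y → x + y ≤ P.n0 + 1)
    (h : ∀ x y, T x y → (¬ P.CE X Y x y → P.Mem T' x y) ∧ P.Mem T' x (y + 1)) :
    P.sys.EvOK k (P.In T) (P.In T') := by
  refine evS hk (by rw [he]; simp) hT (fun x y h1 h2 => (h x y h1).1 fun h3 => h2 ⟨?_, ?_⟩)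
    (fun h => ?_) (fun _ x y h1 => (h x y h1).2)
  · rw [he]; simp [Fs]
  · rw [he]; exact h3
  · rw [he] at h; simp [Fs] at h

end Prog

/-- A default step `g` and two steps `r` and `t` with `t` not in the lattice spanned by `g`
and `r`. -/
structure TI where
  g : ℕ × ℕ
  r : ℕ × ℕ
  t : ℕ × ℕ
  m : ℕ
  cp : ℕ
  cm : ℕ
  d : ℤ
  g1 : 0 < g.1
  g2 : 0 < g.2
  det : (g.1 : ℤ) * r.2 - g.2 * r.1 ≠ 0
  m2 : 2 ≤ m
  hm1 : (m : ℤ) * t.1 = (cp - cm) * r.1 + d * g.1
  hm2 : (m : ℤ) * t.2 = (cp - cm) * r.2 + d * g.2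
  hmin : ∀ j : ℕ, 0 < j → j < m → ∀ x y : ℤ, (j : ℤ) * t.1 = x * r.1 + y * g.1 →
    (j : ℤ) * t.2 = x * r.2 + y * g.2 → False

namespace TI

variable (H : TI) (I : Ins)

/-- Spacing of the tracks. -/
def N : ℕ := H.cp + H.cm + 2

/-- Number of steps `r`. -/
def Kr (e : ℕ) : ℕ := (I.V e - I.U e) * H.N + H.cm - H.cp

/-- Number of rounds. -/
def M1 : ℕ := I.n * H.N + H.cm + H.m + 1

/-- The events. -/
noncomputable def ev (e s i : ℕ) : Ev :=
  if s = H.M1 I then (if i = 0 ∧ I.kl e then ⟨I.U e * H.N, 0, 1⟩ else ⟨0, 0, 0⟩)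
  else if ¬ I.on e then ⟨0, 0, 0⟩
  else if i = 0 then
    (if s = 0 then ⟨I.U e * H.N, 0, 4⟩
    else if s ≤ H.Kr I e then ⟨I.U e * H.N + (s - 1), 1, 3⟩
    else if s < H.Kr I e + H.m then ⟨I.U e * H.N + H.Kr I e, s - H.Kr I e, 5⟩ else ⟨0, 0, 0⟩)
  else
    (if s = 0 then (if i - 1 = I.U e then ⟨0, 0, 0⟩ else ⟨(i - 1) * H.N, 1, 1⟩)
    else if s ≤ H.Kr I e then ⟨(i - 1) * H.N + 1, 0, 1⟩
    else if s < H.Kr I e + H.m then ⟨(i - 1) * H.N, 1, 1⟩ else ⟨0, 0, 0⟩)

variable {H I}

theorem N2 : 2 ≤ H.N := by unfold N; omega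

theorem Kr_bound {e : ℕ} (he : e < I.E) (hon : I.on e) :
    I.U e * H.N + H.Kr I e ≤ I.n * H.N + H.cm ∧ H.Kr I e + H.m < H.M1 I := by
  obtain ⟨h1, h2⟩ := I.hUV e he hon
  have h3 : I.U e * H.N + (I.V e - I.U e) * H.N = I.V e * H.N := by
    rw [← add_mul]
    congr 1
    omega
  have h4 : I.V e * H.N ≤ I.n * H.N := Nat.mul_le_mul_right _ h2.le
  have h5 : 0 < (I.V e - I.U e) * H.N := Nat.mul_pos (by omega) (by unfold N; omega)
  unfold Kr M1
  constructor <;> omega

theorem Kr_eq {e : ℕ} (he : e < I.E) (hon : I.on e) :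
    (H.Kr I e : ℤ) = ((I.V e : ℤ) - I.U e) * H.N + H.cm - H.cp := by
  obtain ⟨h1, h2⟩ := I.hUV e he hon
  have h5 : H.N ≤ (I.V e - I.U e) * H.N := Nat.le_mul_of_pos_left _ (by omega)
  have h6 : H.cp < H.N := by unfold N; omega
  unfold Kr
  have h7 : ((I.V e - I.U e : ℕ) : ℤ) = (I.V e : ℤ) - I.U e := by omega
  rw [Nat.cast_sub (by omega)]
  push_cast
  rw [h7]

variable (H I)

/-- The program. -/
noncomputable def prog (hkl : ∀ e < I.E, I.kl e → I.U e < I.n) : Prog where
  g := H.g
  r := H.r
  t := H.t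
  α := 0
  n0 := I.n * H.N + H.cm + H.m + 2
  K := I.E * (H.M1 I + 1) * (I.n + 1)
  ev := Prog.seq3 (H.M1 I + 1) (I.n + 1) (H.ev I)
  g1 := H.g1
  g2 := H.g2
  r0 := by
    have := H.det
    by_contra h
    push Not at h
    apply this
    rw [h.1, h.2]
    simp
  t0 := by
    by_contra h
    push Not at h
    refine H.hmin 1 (by omega) (by have := H.m2; omega) 0 0 ?_ ?_
    · rw [h.1]; simp
    · rw [h.2]; simp
  hev := by
    intro k hk
    unfold Prog.seq3
    have h2 : k % (I.n + 1) < I.n + 1 := Nat.mod_lt _ (by omega)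
    have he' : k / (I.n + 1) / (H.M1 I + 1) < I.E := by
      rw [Nat.div_lt_iff_lt_mul (by omega), Nat.div_lt_iff_lt_mul (by omega)]
      exact hk
    generalize k / (I.n + 1) / (H.M1 I + 1) = e at he' ⊢
    generalize k / (I.n + 1) % (H.M1 I + 1) = s
    generalize k % (I.n + 1) = i at h2 ⊢
    have hN := N2 (H := H)
    have hi : (i - 1) * H.N ≤ I.n * H.N := Nat.mul_le_mul_right _ (by omega)
    unfold ev
    split_ifs with h3 h4 h5 h6 h7 h8 h9 h10 h11 h12 h13
    · have := hkl e he' h4.2
      have : I.U e * H.N ≤ I.n * H.N := Nat.mul_le_mul_right _ this.le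
      simp only
      omega
    all_goals first
      | (simp only; omega)
      | (have := (Kr_bound (H := H) he' h5).1
         simp only
         omega)

variable {H I} {hkl : ∀ e < I.E, I.kl e → I.U e < I.n}

/-- Classes with different numbers of steps `t` differ. -/
theorem ce_t {x y x' y' : ℕ} (h : (H.prog I hkl).CE x y x' y') (h1 : y' < y)
    (h2 : y < y' + H.m) : False := by
  obtain ⟨n, e1, e2⟩ := Prog.ce_iff.1 h
  change ((x' : ℤ) - x) * H.r.1 + ((y' : ℤ) - y) * H.t.1 = n * H.g.1 at e1
  change ((x' : ℤ) - x) * H.r.2 + ((y' : ℤ) - y) * H.t.2 = n * H.g.2 at e2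
  refine H.hmin (y - y') (by omega) (by omega) (x' - x) (-n) ?_ ?_
  · rw [Nat.cast_sub h1.le]; linarith
  · rw [Nat.cast_sub h1.le]; linarith

theorem ce_t' {x y x' y' : ℕ} (h : (H.prog I hkl).CE x y x' y') (h1 : y < y')
    (h2 : y' < y + H.m) : False := ce_t h.symm h1 h2

/-- Classes with the same number of steps `t`. -/
theorem ce_r {x y x' : ℕ} (h : (H.prog I hkl).CE x y x' y) : x = x' := by
  obtain ⟨n, e1, e2⟩ := Prog.ce_iff.1 h
  change ((x' : ℤ) - x) * H.r.1 + ((y : ℤ) - y) * H.t.1 = n * H.g.1 at e1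
  change ((x' : ℤ) - x) * H.r.2 + ((y : ℤ) - y) * H.t.2 = n * H.g.2 at e2
  have h3 : ((x' : ℤ) - x) * ((H.g.1 : ℤ) * H.r.2 - H.g.2 * H.r.1) = 0 := by
    have e3 : ((x' : ℤ) - x) * H.r.1 = n * H.g.1 := by linarith
    have e4 : ((x' : ℤ) - x) * H.r.2 = n * H.g.2 := by linarith
    calc ((x' : ℤ) - x) * ((H.g.1 : ℤ) * H.r.2 - H.g.2 * H.r.1)
        = H.g.1 * (((x' : ℤ) - x) * H.r.2) - H.g.2 * (((x' : ℤ) - x) * H.r.1) := by ring
      _ = 0 := by rw [e3, e4]; ring
  rcases mul_eq_zero.1 h3 with h | h
  · omega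
  · exact absurd h H.det

/-- The moving token arrives. -/
theorem ce_end {e : ℕ} (he : e < I.E) (hon : I.on e) :
    (H.prog I hkl).CE (I.V e * H.N) 0 (I.U e * H.N + H.Kr I e) H.m := by
  rw [Prog.ce_iff]
  refine ⟨H.d, ?_, ?_⟩
  · change (((I.U e * H.N + H.Kr I e : ℕ) : ℤ) - (I.V e * H.N : ℕ)) * H.r.1 +
      ((H.m : ℤ) - (0 : ℕ)) * H.t.1 = H.d * H.g.1
    push_cast
    rw [Kr_eq he hon, sub_zero, H.hm1]
    ring
  · change (((I.U e * H.N + H.Kr I e : ℕ) : ℤ) - (I.V e * H.N : ℕ)) * H.r.2 +
      ((H.m : ℤ) - (0 : ℕ)) * H.t.2 = H.d * H.g.2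
    push_cast
    rw [Kr_eq he hon, sub_zero, H.hm2]
    ring

theorem N_dvd {w w' : ℕ} (h : w * H.N = w' * H.N + 1) : False := by
  have h1 : H.N ∣ 1 := by
    rw [← Nat.dvd_add_right (Dvd.intro_left w' rfl : H.N ∣ w' * H.N), ← h]
    exact Dvd.intro_left w rfl
  have h2 := N2 (H := H)
  have := Nat.le_of_dvd one_pos h1
  omega

theorem N_inj {w w' : ℕ} (h : w * H.N = w' * H.N) : w = w' :=
  Nat.eq_of_mul_eq_mul_right (by have := N2 (H := H); omega) h

variable (H I)

/-- Class of the moving token. -/
def mvx (e s : ℕ) : ℕ := I.U e * H.N + min (s - 1) (H.Kr I e)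

/-- Class of the moving token. -/
def mvy (e s : ℕ) : ℕ := if s ≤ H.Kr I e then 1 else min (s - H.Kr I e) H.m

/-- Classes of resting tokens. -/
def R0 (e x y : ℕ) : Prop := y = 0 ∧ ∃ w, I.PR e w ∧ x = w * H.N

/-- Class of the moving token. -/
def Mv (e s x y : ℕ) : Prop :=
  I.on e ∧ I.PR e (I.U e) ∧ 0 < s ∧ x = H.mvx I e s ∧ y = H.mvy I e s

/-- Classes of tokens that went astray. -/
def Dv (e s i x y : ℕ) : Prop :=
  I.on e ∧ s < H.Kr I e + H.m ∧ ∃ w < I.n, i ≤ w + 1 ∧ (s = 0 → w ≠ I.U e) ∧
    ((0 < s ∧ s ≤ H.Kr I e ∧ x = w * H.N + 1 ∧ y = 0) ∨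
      (¬ (0 < s ∧ s ≤ H.Kr I e) ∧ x = w * H.N ∧ y = 1))

/-- Possible classes. -/
def T (e s i x y : ℕ) : Prop :=
  ((H.M1 I < s ∨ (s = H.M1 I ∧ 0 < i)) ∧ H.R0 I (e + 1) x y) ∨
    (¬ (H.M1 I < s ∨ (s = H.M1 I ∧ 0 < i)) ∧
      (H.R0 I e x y ∨ H.Mv I e (if i = 0 then s else s + 1) x y ∨ (0 < i ∧ H.Dv I e s i x y)))

variable {H I}

theorem T_bound {e s i x y : ℕ} (he : e < I.E) (h : H.T I e s i x y) :
    x + y ≤ (H.prog I hkl).n0 + 1 := by
  change x + y ≤ I.n * H.N + H.cm + H.m + 2 + 1
  have hR : ∀ e ≤ I.E, H.R0 I e x y → x + y ≤ I.n * H.N + H.cm + H.m + 2 + 1 := by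
    rintro e he ⟨rfl, w, h1, rfl⟩
    have := Nat.mul_le_mul_right H.N (I.PR_lt he h1).le
    omega
  rcases h with ⟨_, h⟩ | ⟨_, h | h | ⟨_, h⟩⟩
  · exact hR _ (by omega) h
  · exact hR _ he.le h
  · obtain ⟨h1, h2, h3, rfl, rfl⟩ := h
    have := (Kr_bound (H := H) he h1).1
    have hm := H.m2
    unfold mvx mvy
    split_ifs <;> omega
  · obtain ⟨h1, h2, w, h3, h4, h5, h6⟩ := h
    have := Nat.mul_le_mul_right H.N h3.le
    rcases h6 with ⟨_, _, rfl, rfl⟩ | ⟨_, rfl, rfl⟩ <;> omega

theorem prog_ev {e s i : ℕ} (hs : s < H.M1 I + 1) (hi : i < I.n + 1) :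
    (H.prog I hkl).ev ((e * (H.M1 I + 1) + s) * (I.n + 1) + i) = H.ev I e s i :=
  Prog.seq3_eval (T := H.ev I) (e := e) hs hi

theorem idx_lt {E L1 L2 e s i : ℕ} (he : e < E) (hs : s < L1) (hi : i < L2) :
    (e * L1 + s) * L2 + i < E * L1 * L2 := by
  have h1 : e * L1 + s + 1 ≤ E * L1 := by
    have : (e + 1) * L1 ≤ E * L1 := Nat.mul_le_mul_right _ he
    rw [add_mul, one_mul] at this
    omega
  have h2 : (e * L1 + s + 1) * L2 ≤ E * L1 * L2 := Nat.mul_le_mul_right _ h1
  rw [add_mul, one_mul] at h2
  omega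

theorem T_resting {e s i w : ℕ} (hs : s < H.M1 I) (h : I.PR e w) :
    H.T I e s i (w * H.N) 0 :=
  Or.inr ⟨by omega, Or.inl ⟨rfl, w, h, rfl⟩⟩

/-- Effects of the events. -/
theorem ev_ok {e s i : ℕ} (he : e < I.E) (hs : s < H.M1 I + 1) (hi : i < I.n + 1) :
    (H.prog I hkl).sys.EvOK ((e * (H.M1 I + 1) + s) * (I.n + 1) + i)
      ((H.prog I hkl).In (H.T I e s i)) ((H.prog I hkl).In (H.T I e s (i + 1))) := by
  have hk : (e * (H.M1 I + 1) + s) * (I.n + 1) + i < (H.prog I hkl).K := idx_lt he hs hi
  have hev := prog_ev (H := H) (I := I) (hkl := hkl) (e := e) hs hi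
  have hb : ∀ x y, H.T I e s i x y → x + y ≤ (H.prog I hkl).n0 + 1 := fun x y h => T_bound he h
  have hm2 := H.m2
  rcases Nat.lt_or_ge s (H.M1 I) with hsM | hsM
  swap
  · -- the last round
    have hsM' : s = H.M1 I := by omega
    by_cases h0 : i = 0 ∧ I.kl e
    · have hev' : H.ev I e s i = ⟨I.U e * H.N, 0, 1⟩ := by
        unfold ev
        rw [if_pos hsM', if_pos h0]
      rw [hev'] at hev
      refine Prog.ev_kill hk hev hb fun x y h hne => ?_
      rcases h with ⟨h1, _⟩ | ⟨_, h | h | ⟨h1, _⟩⟩
      · omega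
      · obtain ⟨rfl, w, h1, rfl⟩ := h
        refine Prog.Mem.of (Or.inl ⟨Or.inr ⟨hsM', by omega⟩, rfl, w, Or.inl ⟨h1, ?_⟩, rfl⟩)
        rintro ⟨_, rfl⟩
        exact hne (Prog.CE.refl _ _)
      · rw [if_pos h0.1] at h
        obtain ⟨h1, h2, h3, rfl, rfl⟩ := h
        refine Prog.Mem.eq (Prog.Mem.of (Or.inl ⟨Or.inr ⟨hsM', by omega⟩, rfl, I.V e,
          Or.inr ⟨h1, h2, rfl⟩, rfl⟩)) ?_
        have hK := (Kr_bound (H := H) he h1).2
        have e1 : H.mvx I e s = I.U e * H.N + H.Kr I e := by
          unfold mvx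
          congr 1
          omega
        have e2 : H.mvy I e s = H.m := by
          unfold mvy
          rw [if_neg (by omega)]
          omega
        rw [e1, e2]
        exact ce_end he h1
      · omega
    · have hev' : H.ev I e s i = ⟨0, 0, 0⟩ := by
        unfold ev
        rw [if_pos hsM', if_neg h0]
      refine Prog.ev_noop hk (by rw [hev, hev']) hb fun x y h => ?_
      rcases h with ⟨h1, h2⟩ | ⟨h0', h | h | ⟨h1, _⟩⟩
      · refine Prog.Mem.of (Or.inl ⟨Or.inr ⟨hsM', by omega⟩, h2⟩)
      · obtain ⟨rfl, w, h1, rfl⟩ := h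
        refine Prog.Mem.of (Or.inl ⟨Or.inr ⟨hsM', by omega⟩, rfl, w, Or.inl ⟨h1, ?_⟩, rfl⟩)
        rintro ⟨h2, _⟩
        exact h0 ⟨by omega, h2⟩
      · rw [if_pos (by omega)] at h
        obtain ⟨h1, h2, h3, rfl, rfl⟩ := h
        refine Prog.Mem.eq (Prog.Mem.of (Or.inl ⟨Or.inr ⟨hsM', by omega⟩, rfl, I.V e,
          Or.inr ⟨h1, h2, rfl⟩, rfl⟩)) ?_
        have hK := (Kr_bound (H := H) he h1).2
        have e1 : H.mvx I e s = I.U e * H.N + H.Kr I e := by
          unfold mvx
          congr 1
          omega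
        have e2 : H.mvy I e s = H.m := by
          unfold mvy
          rw [if_neg (by omega)]
          omega
        rw [e1, e2]
        exact ce_end he h1
      · omega
  -- other rounds
  have hrest : ∀ x y, H.R0 I e x y → (H.prog I hkl).Mem (H.T I e s (i + 1)) x y := by
    rintro x y ⟨rfl, w, h1, rfl⟩
    exact Prog.Mem.of (T_resting hsM h1)
  have hTc : ∀ {x y}, H.T I e s i x y → (H.R0 I e x y ∨
      H.Mv I e (if i = 0 then s else s + 1) x y ∨ (0 < i ∧ H.Dv I e s i x y)) := by
    rintro x y (⟨h1, _⟩ | ⟨_, h⟩)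
    · omega
    · exact h
  have hT' : ∀ {x y}, (H.Mv I e (s + 1) x y ∨ H.Dv I e s (i + 1) x y) →
      (H.prog I hkl).Mem (H.T I e s (i + 1)) x y := by
    intro x y h
    refine Prog.Mem.of (Or.inr ⟨by omega, Or.inr ?_⟩)
    rcases h with h | h
    · left
      rw [if_neg (by omega)]
      exact h
    · exact Or.inr ⟨by omega, h⟩
  by_cases hon : I.on e
  swap
  · have hev' : H.ev I e s i = ⟨0, 0, 0⟩ := by
      unfold ev
      rw [if_neg (by omega), if_pos hon]
    refine Prog.ev_noop hk (by rw [hev, hev']) hb fun x y h => ?_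
    rcases hTc h with h | h | h
    · exact hrest _ _ h
    · exact absurd h.1 hon
    · exact absurd h.2.1 hon
  by_cases hi0 : i = 0
  · -- the jumps
    subst hi0
    by_cases hs0 : s = 0
    · subst hs0
      have hev' : H.ev I e 0 0 = ⟨I.U e * H.N, 0, 4⟩ := by
        unfold ev
        rw [if_neg (by omega), if_neg (by simpa using hon), if_pos rfl, if_pos rfl]
      rw [hev'] at hev
      refine Prog.ev_ta hk hev hb fun x y h => ?_
      rcases hTc h with h | h | ⟨h, _⟩
      · refine ⟨hrest _ _ h, ?_⟩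
        obtain ⟨rfl, w, h1, rfl⟩ := h
        apply hT'
        by_cases hw : w = I.U e
        · subst hw
          left
          refine ⟨hon, h1, by omega, ?_, ?_⟩
          · simp [mvx]
          · unfold mvy
            split_ifs
            · rfl
            · omega
        · right
          refine ⟨hon, by omega, w, I.PR_lt he.le h1, by omega, fun _ => hw, Or.inr ?_⟩
          exact ⟨by omega, rfl, rfl⟩
      · exact absurd h.2.2.1 (by simp)
      · omega
    · rcases Nat.lt_or_ge (H.Kr I e) s with hsK | hsK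
      · rcases Nat.lt_or_ge s (H.Kr I e + H.m) with hsm | hsm
        · -- force `t`
          have hev' : H.ev I e s 0 = ⟨I.U e * H.N + H.Kr I e, s - H.Kr I e, 5⟩ := by
            unfold ev
            rw [if_neg (by omega), if_neg (by simpa using hon), if_pos rfl, if_neg hs0,
              if_neg (by omega), if_pos hsm]
          rw [hev'] at hev
          refine Prog.ev_tf hk hev hb fun x y h => ?_
          rcases hTc h with h | h | ⟨h, _⟩
          · refine ⟨fun _ => hrest _ _ h, ?_⟩
            obtain ⟨rfl, w, h1, rfl⟩ := h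
            apply hT'
            right
            refine ⟨hon, hsm, w, I.PR_lt he.le h1, by omega, by omega, Or.inr ?_⟩
            exact ⟨by omega, rfl, rfl⟩
          · rw [if_pos rfl] at h
            obtain ⟨h1, h2, h3, rfl, rfl⟩ := h
            have e1 : H.mvx I e s = I.U e * H.N + H.Kr I e := by
              unfold mvx
              congr 1
              omega
            have e2 : H.mvy I e s = s - H.Kr I e := by
              unfold mvy
              rw [if_neg (by omega)]
              omega
            rw [e1, e2]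
            refine ⟨fun h => absurd (Prog.CE.refl _ _) h, ?_⟩
            apply hT'
            left
            refine ⟨hon, h2, by omega, ?_, ?_⟩
            · unfold mvx
              congr 1
              omega
            · unfold mvy
              rw [if_neg (by omega)]
              omega
          · omega
        · -- nothing
          have hev' : H.ev I e s 0 = ⟨0, 0, 0⟩ := by
            unfold ev
            rw [if_neg (by omega), if_neg (by simpa using hon), if_pos rfl, if_neg hs0,
              if_neg (by omega), if_neg (by omega)]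
          refine Prog.ev_noop hk (by rw [hev, hev']) hb fun x y h => ?_
          rcases hTc h with h | h | ⟨h, _⟩
          · exact hrest _ _ h
          · rw [if_pos rfl] at h
            obtain ⟨h1, h2, h3, rfl, rfl⟩ := h
            apply hT'
            left
            refine ⟨hon, h2, by omega, ?_, ?_⟩
            · unfold mvx
              congr 1
              omega
            · unfold mvy
              rw [if_neg (by omega), if_neg (by omega)]
              omega
          · omega
      · -- force `r`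
        have hev' : H.ev I e s 0 = ⟨I.U e * H.N + (s - 1), 1, 3⟩ := by
          unfold ev
          rw [if_neg (by omega), if_neg (by simpa using hon), if_pos rfl, if_neg hs0,
            if_pos hsK]
        rw [hev'] at hev
        refine Prog.ev_rf hk hev hb fun x y h => ?_
        rcases hTc h with h | h | ⟨h, _⟩
        · refine ⟨fun _ => hrest _ _ h, ?_⟩
          obtain ⟨rfl, w, h1, rfl⟩ := h
          apply hT'
          right
          refine ⟨hon, by omega, w, I.PR_lt he.le h1, by omega, by omega, Or.inl ?_⟩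
          exact ⟨by omega, hsK, rfl, rfl⟩
        · rw [if_pos rfl] at h
          obtain ⟨h1, h2, h3, rfl, rfl⟩ := h
          have e1 : H.mvx I e s = I.U e * H.N + (s - 1) := by
            unfold mvx
            congr 1
            omega
          have e2 : H.mvy I e s = 1 := by
            unfold mvy
            rw [if_pos (by omega)]
          rw [e1, e2]
          refine ⟨fun h => absurd (Prog.CE.refl _ _) h, ?_⟩
          apply hT'
          left
          refine ⟨hon, h2, by omega, ?_, ?_⟩
          · unfold mvx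
            omega
          · unfold mvy
            split_ifs <;> omega
        · omega
  · -- the kills
    have hpass : ∀ x y, H.Mv I e (if i = 0 then s else s + 1) x y →
        (H.prog I hkl).Mem (H.T I e s (i + 1)) x y := by
      intro x y h
      rw [if_neg hi0] at h
      exact hT' (Or.inl h)
    rcases Nat.lt_or_ge s (H.Kr I e + H.m) with hsm | hsm
    swap
    · have hev' : H.ev I e s i = ⟨0, 0, 0⟩ := by
        unfold ev
        rw [if_neg (by omega), if_neg (by simpa using hon), if_neg hi0, if_neg (by omega),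
          if_neg (by omega), if_neg (by omega)]
      refine Prog.ev_noop hk (by rw [hev, hev']) hb fun x y h => ?_
      rcases hTc h with h | h | ⟨_, h⟩
      · exact hrest _ _ h
      · exact hpass _ _ h
      · exact absurd h.2.1 (by omega)
    by_cases hs0 : s = 0
    · subst hs0
      by_cases hiU : i - 1 = I.U e
      · have hev' : H.ev I e 0 i = ⟨0, 0, 0⟩ := by
          unfold ev
          rw [if_neg (by omega), if_neg (by simpa using hon), if_neg hi0, if_pos rfl,
            if_pos hiU]
        refine Prog.ev_noop hk (by rw [hev, hev']) hb fun x y h => ?_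
        rcases hTc h with h | h | ⟨_, h⟩
        · exact hrest _ _ h
        · exact hpass _ _ h
        · obtain ⟨h1, h2, w, h3, h4, h5, h6⟩ := h
          have := h5 rfl
          exact hT' (Or.inr ⟨h1, h2, w, h3, by omega, h5, h6⟩)
      · have hev' : H.ev I e 0 i = ⟨(i - 1) * H.N, 1, 1⟩ := by
          unfold ev
          rw [if_neg (by omega), if_neg (by simpa using hon), if_neg hi0, if_pos rfl,
            if_neg hiU]
        rw [hev'] at hev
        refine Prog.ev_kill hk hev hb fun x y h hne => ?_
        rcases hTc h with h | h | ⟨_, h⟩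
        · exact hrest _ _ h
        · exact hpass _ _ h
        · obtain ⟨h1, h2, w, h3, h4, h5, h6⟩ := h
          rcases h6 with ⟨h6, _⟩ | ⟨h6, rfl, rfl⟩
          · omega
          · have : w ≠ i - 1 := by
              rintro rfl
              exact hne (Prog.CE.refl _ _)
            exact hT' (Or.inr ⟨h1, h2, w, h3, by omega, h5, Or.inr ⟨h6, rfl, rfl⟩⟩)
    · rcases Nat.lt_or_ge (H.Kr I e) s with hsK | hsK
      · have hev' : H.ev I e s i = ⟨(i - 1) * H.N, 1, 1⟩ := by
          unfold ev
          rw [if_neg (by omega), if_neg (by simpa using hon), if_neg hi0, if_neg hs0,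
            if_neg (by omega), if_pos hsm]
        rw [hev'] at hev
        refine Prog.ev_kill hk hev hb fun x y h hne => ?_
        rcases hTc h with h | h | ⟨_, h⟩
        · exact hrest _ _ h
        · exact hpass _ _ h
        · obtain ⟨h1, h2, w, h3, h4, h5, h6⟩ := h
          rcases h6 with ⟨_, h6, _⟩ | ⟨h6, rfl, rfl⟩
          · omega
          · have : w ≠ i - 1 := by
              rintro rfl
              exact hne (Prog.CE.refl _ _)
            exact hT' (Or.inr ⟨h1, h2, w, h3, by omega, h5, Or.inr ⟨h6, rfl, rfl⟩⟩)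
      · have hev' : H.ev I e s i = ⟨(i - 1) * H.N + 1, 0, 1⟩ := by
          unfold ev
          rw [if_neg (by omega), if_neg (by simpa using hon), if_neg hi0, if_neg hs0,
            if_pos hsK]
        rw [hev'] at hev
        refine Prog.ev_kill hk hev hb fun x y h hne => ?_
        rcases hTc h with h | h | ⟨_, h⟩
        · exact hrest _ _ h
        · exact hpass _ _ h
        · obtain ⟨h1, h2, w, h3, h4, h5, h6⟩ := h
          rcases h6 with ⟨h6, h7, rfl, rfl⟩ | ⟨h6, _⟩
          · have : w ≠ i - 1 := by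
              rintro rfl
              exact hne (Prog.CE.refl _ _)
            exact hT' (Or.inr ⟨h1, h2, w, h3, by omega, h5, Or.inl ⟨h6, h7, rfl, rfl⟩⟩)
          · omega

/-- Soundness. -/
theorem sound {w : ℕ} (h : ReflTransGen (H.prog I hkl).sys.Step (0, 0)
    (cv ((H.prog I hkl).fin (w * H.N) 0))) : I.PR I.E w := by
  have h1 := Prog.soundP (P := H.prog I hkl)
    (fun k => Prog.seq3 (H.M1 I + 1) (I.n + 1) (H.T I) k) ?_ ?_ ?_ h
  · obtain ⟨x, y, h2, h3⟩ := h1
    have e1 : Prog.seq3 (H.M1 I + 1) (I.n + 1) (H.T I) (H.prog I hkl).K = H.T I I.E 0 0 := by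
      have := Prog.seq3_eval (T := H.T I) (e := I.E) (show 0 < H.M1 I + 1 by omega)
        (show 0 < I.n + 1 by omega)
      simpa [prog] using this
    simp only [e1] at h2
    have hM : 0 < H.M1 I := by unfold M1; omega
    rcases h2 with ⟨h4, _⟩ | ⟨_, h4 | h4 | ⟨h4, _⟩⟩
    · omega
    · obtain ⟨rfl, w', h5, rfl⟩ := h4
      have := N_inj (ce_r h3)
      rwa [← this]
    · exact absurd h4.2.2.1 (by simp)
    · omega
  · have := Prog.seq3_eval (T := H.T I) (e := 0) (show 0 < H.M1 I + 1 by omega)
      (show 0 < I.n + 1 by omega)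
    simp only [zero_mul, add_zero] at this
    show Prog.seq3 (H.M1 I + 1) (I.n + 1) (H.T I) 0 0 0
    rw [this]
    exact Or.inr ⟨by simp [M1], Or.inl ⟨rfl, 0, rfl, by simp⟩⟩
  · intro k hk
    refine Prog.run3 (E := I.E) (by omega) (by omega) (H.T I)
      (fun e he s hs i hi => ev_ok he hs hi) (fun e he s hs => ?_) (fun e he => ?_) k hk
    · refine Prog.in_mono fun x y h => Prog.Mem.of ?_
      rcases h with ⟨h1, h2⟩ | ⟨h1, h2⟩
      · exact Or.inl ⟨by omega, h2⟩
      · have hsM : s < H.M1 I := by omega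
        refine Or.inr ⟨by omega, ?_⟩
        rcases h2 with h2 | h2 | ⟨_, h2⟩
        · exact Or.inl h2
        · rw [if_neg (by omega)] at h2
          right; left
          rw [if_pos rfl]
          exact h2
        · obtain ⟨_, _, w', h3, h4, _⟩ := h2
          omega
    · refine Prog.in_mono fun x y h => Prog.Mem.of ?_
      rcases h with ⟨h1, h2⟩ | ⟨h1, h2⟩
      · exact Or.inr ⟨by simp [M1], Or.inl h2⟩
      · omega
  · intro x y h2
    have e1 : Prog.seq3 (H.M1 I + 1) (I.n + 1) (H.T I) (H.prog I hkl).K = H.T I I.E 0 0 := by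
      have := Prog.seq3_eval (T := H.T I) (e := I.E) (show 0 < H.M1 I + 1 by omega)
        (show 0 < I.n + 1 by omega)
      simpa [prog] using this
    simp only [e1] at h2
    change x + y ≤ I.n * H.N + H.cm + H.m + 2 + 1
    rcases h2 with ⟨h4, _⟩ | ⟨_, h4 | h4 | ⟨h4, _⟩⟩
    · omega
    · obtain ⟨rfl, w', h5, rfl⟩ := h4
      have := Nat.mul_le_mul_right H.N (I.PR_lt le_rfl h5).le
      omega
    · exact absurd h4.2.2.1 (by simp)
    · omega

/-- The index of an event. -/
def ix (H : TI) (I : Ins) (e s i : ℕ) : ℕ := (e * (H.M1 I + 1) + s) * (I.n + 1) + i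

theorem ix_next (e s : ℕ) : ix H I e s (I.n + 1) = ix H I e (s + 1) 0 := by
  unfold ix; ring

theorem ix_end (e : ℕ) : ix H I e (H.M1 I + 1) 0 = ix H I (e + 1) 0 0 := by
  unfold ix; ring

/-- A token that is not hit by the kills passes. -/
theorem rc_event {e s i x y : ℕ} (he : e < I.E) (hs : s < H.M1 I + 1) (hi : i < I.n + 1)
    (h : (H.prog I hkl).RC (ix H I e s i) x y)
    (hn : Fs (H.ev I e s i).kd Fl.k1 →
      ¬ (H.prog I hkl).CE x y (H.ev I e s i).x (H.ev I e s i).y) :
    (H.prog I hkl).RC (ix H I e s (i + 1)) x y := by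
  have hk : ix H I e s i < (H.prog I hkl).K := idx_lt he hs hi
  have hev := prog_ev (H := H) (I := I) (hkl := hkl) (e := e) hs hi
  refine Prog.rc_pass hk ?_ h ?_
  · change ((H.prog I hkl).ev ((e * (H.M1 I + 1) + s) * (I.n + 1) + i)).kd ≠ 6
    rw [hev]
    unfold ev
    split_ifs <;> simp
  · change ¬ (Fs ((H.prog I hkl).ev ((e * (H.M1 I + 1) + s) * (I.n + 1) + i)).kd Fl.k1 ∧
      (H.prog I hkl).CE x y ((H.prog I hkl).ev ((e * (H.M1 I + 1) + s) * (I.n + 1) + i)).x
      ((H.prog I hkl).ev ((e * (H.M1 I + 1) + s) * (I.n + 1) + i)).y)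
    rw [hev]
    exact fun h => hn h.1 h.2

/-- Resting tokens pass all events of a block. -/
theorem rest_pass {e w : ℕ} (he : e < I.E) (hw : ¬ (I.kl e ∧ w = I.U e))
    (h : (H.prog I hkl).RC (ix H I e 0 0) (w * H.N) 0) :
    (H.prog I hkl).RC (ix H I (e + 1) 0 0) (w * H.N) 0 := by
  have hm2 := H.m2
  have key : ∀ s, s ≤ H.M1 I + 1 → (H.prog I hkl).RC (ix H I e s 0) (w * H.N) 0 := by
    intro s
    induction s with
    | zero => exact fun _ => h
    | succ s ih =>
      intro hs
      have h1 := ih (by omega)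
      have h2 : ∀ i, i ≤ I.n + 1 → (H.prog I hkl).RC (ix H I e s i) (w * H.N) 0 := by
        intro i
        induction i with
        | zero => exact fun _ => h1
        | succ i ih2 =>
          intro hi
          refine rc_event he (by omega) (by omega) (ih2 (by omega)) ?_
          unfold ev
          split_ifs with a1 a2 a3 a4 a5 a6 a7 a8 a9 a10 a11
          · intro _ h3
            have := N_inj (ce_r h3)
            exact hw ⟨a2.2, this⟩
          · simp [Fs]
          · simp [Fs]
          · intro _ h3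
            exact ce_t' h3 (by simp) (by simp only; omega)
          · intro _ h3
            exact ce_t' h3 (by simp only; omega) (by simp only; omega)
          · simp [Fs]
          · simp [Fs]
          · intro _ h3
            exact ce_t' h3 (by simp) (by simp only; omega)
          · intro _ h3
            exact N_dvd (ce_r h3)
          · intro _ h3
            exact ce_t' h3 (by simp) (by simp only; omega)
          · simp [Fs]
          · simp [Fs]
      rw [← ix_next]
      exact h2 _ le_rfl
  rw [← ix_end]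
  exact key _ le_rfl

/-- The moving token. -/
theorem move_pass {e : ℕ} (he : e < I.E) (hon : I.on e)
    (h : (H.prog I hkl).RC (ix H I e 0 0) (I.U e * H.N) 0) :
    (H.prog I hkl).RC (ix H I (e + 1) 0 0) (I.V e * H.N) 0 := by
  have hm2 := H.m2
  obtain ⟨hKb, hKM⟩ := Kr_bound (H := H) he hon
  have hUV := I.hUV e he hon
  -- a round
  have round : ∀ s, s < H.M1 I → (H.prog I hkl).RC (ix H I e s 1)
      (H.mvx I e (s + 1)) (H.mvy I e (s + 1)) →
      (H.prog I hkl).RC (ix H I e (s + 1) 0) (H.mvx I e (s + 1)) (H.mvy I e (s + 1)) := by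
    intro s hs h1
    have h2 : ∀ i, 1 ≤ i → i ≤ I.n + 1 → (H.prog I hkl).RC (ix H I e s i)
        (H.mvx I e (s + 1)) (H.mvy I e (s + 1)) := by
      intro i
      induction i with
      | zero => intro h; omega
      | succ i ih2 =>
        intro hi1 hi
        rcases Nat.eq_zero_or_pos i with h0 | h0
        · subst h0
          exact h1
        refine rc_event he (by omega) (by omega) (ih2 h0 (by omega)) ?_
        unfold ev
        rw [if_neg (by omega), if_neg (by simpa using hon), if_neg (by omega)]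
        split_ifs with a1 a2 a3 a4
        · simp [Fs]
        · intro _ h3
          simp only at h3
          have e1 : H.mvy I e (s + 1) = 1 := by
            unfold mvy
            split_ifs <;> omega
          have e2 : H.mvx I e (s + 1) = I.U e * H.N := by
            unfold mvx
            omega
          rw [e1, e2] at h3
          have := N_inj (ce_r h3)
          omega
        · intro _ h3
          have e1 : H.mvy I e (s + 1) = 1 := by
            unfold mvy
            split_ifs <;> omega
          rw [e1] at h3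
          exact ce_t h3 (by simp) (by simp only; omega)
        · intro _ h3
          have e1 : H.mvy I e (s + 1) = s + 1 - H.Kr I e := by
            unfold mvy
            rw [if_neg (by omega)]
            omega
          rw [e1] at h3
          exact ce_t h3 (by simp only; omega) (by simp only; omega)
        · simp [Fs]
    rw [← ix_next]
    exact h2 _ (by omega) le_rfl
  -- all rounds
  have key : ∀ s, 0 < s → s ≤ H.M1 I → (H.prog I hkl).RC (ix H I e s 0)
      (H.mvx I e s) (H.mvy I e s) := by
    intro s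
    induction s with
    | zero => intro h; omega
    | succ s ih =>
      intro _ hs
      refine round s (by omega) ?_
      have hk : ix H I e s 0 < (H.prog I hkl).K := idx_lt he (by omega) (by omega)
      have hev := prog_ev (H := H) (I := I) (hkl := hkl) (e := e)
        (show s < H.M1 I + 1 by omega) (show 0 < I.n + 1 by omega)
      rcases Nat.eq_zero_or_pos s with h0 | h0
      · subst h0
        have hev' : H.ev I e 0 0 = ⟨I.U e * H.N, 0, 4⟩ := by
          unfold ev
          rw [if_neg (by omega), if_neg (by simpa using hon), if_pos rfl, if_pos rfl]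
        rw [hev'] at hev
        have h1 := Prog.rc_t hk h (by
          change (H.prog I hkl).CE _ _ ((H.prog I hkl).ev
            ((e * (H.M1 I + 1) + 0) * (I.n + 1) + 0)).x ((H.prog I hkl).ev
            ((e * (H.M1 I + 1) + 0) * (I.n + 1) + 0)).y
          rw [hev]
          exact Prog.CE.refl _ _) (by
          change ((H.prog I hkl).ev ((e * (H.M1 I + 1) + 0) * (I.n + 1) + 0)).kd = 4 ∨
            ((H.prog I hkl).ev ((e * (H.M1 I + 1) + 0) * (I.n + 1) + 0)).kd = 5
          rw [hev]
          exact Or.inl rfl)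
        have e1 : H.mvx I e (0 + 1) = I.U e * H.N := by simp [mvx]
        have e2 : H.mvy I e (0 + 1) = 0 + 1 := by
          unfold mvy
          split_ifs <;> omega
        rw [e1, e2]
        exact h1
      · have h1 := ih h0 (by omega)
        rcases Nat.lt_or_ge (H.Kr I e) s with hsK | hsK
        · rcases Nat.lt_or_ge s (H.Kr I e + H.m) with hsm | hsm
          · have hev' : H.ev I e s 0 = ⟨I.U e * H.N + H.Kr I e, s - H.Kr I e, 5⟩ := by
              unfold ev
              rw [if_neg (by omega), if_neg (by simpa using hon), if_pos rfl,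
                if_neg (by omega), if_neg (by omega), if_pos hsm]
            rw [hev'] at hev
            have a1 : H.mvx I e s = I.U e * H.N + H.Kr I e := by
              unfold mvx
              congr 1
              omega
            have a2 : H.mvy I e s = s - H.Kr I e := by
              unfold mvy
              rw [if_neg (by omega)]
              omega
            rw [a1, a2] at h1
            have h2 := Prog.rc_t hk h1 (by
              change (H.prog I hkl).CE _ _ ((H.prog I hkl).ev
                ((e * (H.M1 I + 1) + s) * (I.n + 1) + 0)).x ((H.prog I hkl).ev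
                ((e * (H.M1 I + 1) + s) * (I.n + 1) + 0)).y
              rw [hev]
              exact Prog.CE.refl _ _) (by
              change ((H.prog I hkl).ev ((e * (H.M1 I + 1) + s) * (I.n + 1) + 0)).kd = 4 ∨
                ((H.prog I hkl).ev ((e * (H.M1 I + 1) + s) * (I.n + 1) + 0)).kd = 5
              rw [hev]
              exact Or.inr rfl)
            have e1 : H.mvx I e (s + 1) = I.U e * H.N + H.Kr I e := by
              unfold mvx
              congr 1
              omega
            have e2 : H.mvy I e (s + 1) = s - H.Kr I e + 1 := by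
              unfold mvy
              rw [if_neg (by omega)]
              omega
            rw [e1, e2]
            exact h2
          · have e1 : H.mvx I e (s + 1) = H.mvx I e s := by
              unfold mvx
              congr 1
              omega
            have e2 : H.mvy I e (s + 1) = H.mvy I e s := by
              unfold mvy
              rw [if_neg (by omega), if_neg (by omega)]
              omega
            rw [e1, e2]
            refine rc_event he (by omega) (by omega) h1 ?_
            unfold ev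
            rw [if_neg (by omega), if_neg (by simpa using hon), if_pos rfl, if_neg (by omega),
              if_neg (by omega), if_neg (by omega)]
            simp [Fs]
        · have hev' : H.ev I e s 0 = ⟨I.U e * H.N + (s - 1), 1, 3⟩ := by
            unfold ev
            rw [if_neg (by omega), if_neg (by simpa using hon), if_pos rfl,
              if_neg (by omega), if_pos hsK]
          rw [hev'] at hev
          have a1 : H.mvx I e s = I.U e * H.N + (s - 1) := by
            unfold mvx
            congr 1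
            omega
          have a2 : H.mvy I e s = 1 := by
            unfold mvy
            rw [if_pos (by omega)]
          rw [a1, a2] at h1
          have h2 := Prog.rc_r hk h1 (by
            change (H.prog I hkl).CE _ _ ((H.prog I hkl).ev
              ((e * (H.M1 I + 1) + s) * (I.n + 1) + 0)).x ((H.prog I hkl).ev
              ((e * (H.M1 I + 1) + s) * (I.n + 1) + 0)).y
            rw [hev]
            exact Prog.CE.refl _ _) (by
            change ((H.prog I hkl).ev ((e * (H.M1 I + 1) + s) * (I.n + 1) + 0)).kd = 2 ∨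
              ((H.prog I hkl).ev ((e * (H.M1 I + 1) + s) * (I.n + 1) + 0)).kd = 3
            rw [hev]
            exact Or.inr rfl)
          have e1 : H.mvx I e (s + 1) = I.U e * H.N + (s - 1) + 1 := by
            unfold mvx
            omega
          have e2 : H.mvy I e (s + 1) = 1 := by
            unfold mvy
            split_ifs <;> omega
          rw [e1, e2]
          exact h2
  have hM : H.M1 I ≤ H.M1 I := le_rfl
  have h1 := key (H.M1 I) (by omega) le_rfl
  have e1 : H.mvx I e (H.M1 I) = I.U e * H.N + H.Kr I e := by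
    unfold mvx
    congr 1
    omega
  have e2 : H.mvy I e (H.M1 I) = H.m := by
    unfold mvy
    rw [if_neg (by omega)]
    omega
  rw [e1, e2] at h1
  have h2 := h1.eq (ce_end he hon).symm
  -- the last round
  have h3 : ∀ i, i ≤ I.n + 1 → (H.prog I hkl).RC (ix H I e (H.M1 I) i) (I.V e * H.N) 0 := by
    intro i
    induction i with
    | zero => exact fun _ => h2
    | succ i ih2 =>
      intro hi
      refine rc_event he (by omega) (by omega) (ih2 (by omega)) ?_
      unfold ev
      rw [if_pos rfl]
      split_ifs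
      · intro _ h3
        have := N_inj (ce_r h3)
        omega
      · simp [Fs]
  have h4 := h3 _ le_rfl
  rw [ix_next, ix_end] at h4
  exact h4

/-- Completeness. -/
theorem complete {w : ℕ} (h : I.PR I.E w) : ReflTransGen (H.prog I hkl).sys.Step (0, 0)
    (cv ((H.prog I hkl).fin (w * H.N) 0)) := by
  have key : ∀ e, e ≤ I.E → ∀ w, I.PR e w →
      (H.prog I hkl).RC (ix H I e 0 0) (w * H.N) 0 := by
    intro e
    induction e with
    | zero =>
      intro _ w hw
      have : w = 0 := hw
      subst this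
      have := Prog.rc_zero (P := H.prog I hkl)
      simpa [ix] using this
    | succ e ih =>
      intro he w hw
      rcases hw with ⟨h1, h2⟩ | ⟨h1, h2, rfl⟩
      · exact rest_pass (by omega) h2 (ih (by omega) w h1)
      · exact move_pass (by omega) h1 (ih (by omega) _ h2)
  have h1 := key I.E le_rfl w h
  refine Prog.rc_end ?_
  have : ix H I I.E 0 0 = (H.prog I hkl).K := by
    simp [ix, prog]
  rwa [this] at h1

theorem reach_iff {w : ℕ} : ReflTransGen (H.prog I hkl).sys.Step (0, 0)
    (cv ((H.prog I hkl).fin (w * H.N) 0)) ↔ I.PR I.E w := ⟨sound, complete⟩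

end TI

end Pool.Agent.Helper38.Shape
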