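import Mathlib

/-!
# Walks in the plane controlled by marked columns and rows

Walks on `ℤ × ℤ` with the default step `g` and the two jumps `r` and `t`. Events number
`k = 0, 1, ...` mark some columns and rows near the point `c k`; the events are far apart from
each other in the direction of `g`.
-/

namespace Pool.Agent.Helper38.Shape

open Relation

set_option linter.unusedSimpArgs false
set_option linter.unusedVariables false
set_option linter.unusedSectionVars false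

/-- Marks: jump `r`, jump `t`, two kinds of kill marks. -/
inductive Fl : Type
  | jr : Fl
  | jt : Fl
  | k1 : Fl
  | k2 : Fl
  deriving DecidableEq, Fintype

abbrev V2 := ℤ × ℤ

/-- Displacements allowed when the marks of the column are `A` and those of the row are `B`. -/
def En (g r t : V2) (A B : Fl → Prop) (q : V2) : Prop :=
  (q = g ∧ ¬ (A Fl.k1 ∧ B Fl.k1) ∧ ¬ (A Fl.k2 ∧ B Fl.k2)) ∨
  (q = r ∧ (r.1 ≠ 0 → A Fl.jr) ∧ (r.2 ≠ 0 → B Fl.jr)) ∨
  (q = t ∧ (t.1 ≠ 0 → A Fl.jt) ∧ (t.2 ≠ 0 → B Fl.jt))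

/-- A system of events. -/
structure Sys where
  g : V2
  r : V2
  t : V2
  K : ℕ
  c : ℕ → V2
  PX : ℕ → Fl → ℤ → Prop
  PY : ℕ → Fl → ℤ → Prop
  Γ : ℤ
  Q : ℤ
  W : ℤ
  st : ℤ
  g1 : 0 < g.1
  g2 : 0 < g.2
  r1 : 0 ≤ r.1
  r2 : 0 ≤ r.2
  r0 : r.1 ≠ 0 ∨ r.2 ≠ 0
  t1 : 0 ≤ t.1
  t2 : 0 ≤ t.2
  t0 : t.1 ≠ 0 ∨ t.2 ≠ 0
  Q0 : 0 ≤ Q
  gap : 2 * Q + st < Γ
  sg : g.2 * g.1 + g.1 * g.2 ≤ st
  sr : g.2 * r.1 + g.1 * r.2 ≤ st
  stt : g.2 * t.1 + g.1 * t.2 ≤ st
  loc : ∀ k < K, ∀ φ, ∀ p : V2, |g.1 * p.2 - g.2 * p.1| ≤ W →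
    (PX k φ (p.1 - (c k).1) ∨ PY k φ (p.2 - (c k).2)) →
    (k + 1) * Γ - Q ≤ g.2 * p.1 + g.1 * p.2 ∧ g.2 * p.1 + g.1 * p.2 ≤ (k + 1) * Γ + Q
  hc : ∀ k < K, (k + 1) * Γ - Q < g.2 * (c k).1 + g.1 * (c k).2 ∧
    g.2 * (c k).1 + g.1 * (c k).2 ≤ (k + 1) * Γ + Q

namespace Sys

variable (M : Sys)

/-- Height. -/
def hh (p : V2) : ℤ := M.g.2 * p.1 + M.g.1 * p.2

/-- Track. -/
def kk (p : V2) : ℤ := M.g.1 * p.2 - M.g.2 * p.1

/-- Marks of a column. -/
def X (φ : Fl) (x : ℤ) : Prop := ∃ k < M.K, M.PX k φ (x - (M.c k).1)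

/-- Marks of a row. -/
def Y (φ : Fl) (y : ℤ) : Prop := ∃ k < M.K, M.PY k φ (y - (M.c k).2)

/-- One step. -/
def Step (p p' : V2) : Prop :=
  ∃ q, En M.g M.r M.t (fun φ => M.X φ p.1) (fun φ => M.Y φ p.2) q ∧ p' = p + q

/-- One step near event `k`. -/
def LStep (k : ℕ) (p p' : V2) : Prop :=
  ∃ q, En M.g M.r M.t (fun φ => M.PX k φ (p.1 - (M.c k).1))
    (fun φ => M.PY k φ (p.2 - (M.c k).2)) q ∧ p' = p + q

variable {M}

theorem hh_add (p q : V2) : M.hh (p + q) = M.hh p + M.hh q := by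
  simp only [hh, Prod.fst_add, Prod.snd_add]; ring

theorem kk_add (p q : V2) : M.kk (p + q) = M.kk p + M.kk q := by
  simp only [kk, Prod.fst_add, Prod.snd_add]; ring

theorem hh_g_pos : 0 < M.hh M.g := by
  have := M.g1
  have := M.g2
  unfold hh
  positivity

theorem kk_g : M.kk M.g = 0 := by unfold kk; ring

theorem hh_r_nonneg : 0 ≤ M.hh M.r := by
  have := M.g1
  have := M.g2
  have := M.r1
  have := M.r2
  unfold hh
  positivity

theorem hh_t_nonneg : 0 ≤ M.hh M.t := by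
  have := M.g1
  have := M.g2
  have := M.t1
  have := M.t2
  unfold hh
  positivity

theorem st_pos : 0 < M.st := lt_of_lt_of_le (hh_g_pos (M := M)) M.sg

theorem Γ_pos : 0 < M.Γ := by
  have := M.gap
  have := M.Q0
  have := st_pos (M := M)
  linarith

theorem hh_zero : M.hh (0, 0) = 0 := by simp [hh]

theorem kk_zero : M.kk (0, 0) = 0 := by simp [kk]

theorem mulΓ {a b : ℕ} (h : a ≤ b) : (a : ℤ) * M.Γ ≤ b * M.Γ :=
  mul_le_mul_of_nonneg_right (by exact_mod_cast h) (Γ_pos (M := M)).le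

theorem succΓ (a : ℕ) : ((a + 1 : ℕ) : ℤ) * M.Γ = a * M.Γ + M.Γ := by push_cast; ring

theorem succΓ' (a : ℕ) : ((a : ℤ) + 1) * M.Γ = a * M.Γ + M.Γ := by ring

/-- Near event `k` only the marks of this event matter. -/
theorem marks_iff {k : ℕ} (hk : k < M.K) {p : V2} (hb : |M.kk p| ≤ M.W)
    (hl : k = 0 ∨ (k : ℤ) * M.Γ + M.Q < M.hh p) (hu : M.hh p < (k + 1) * M.Γ + M.Γ - M.Q)
    (φ : Fl) : (M.X φ p.1 ↔ M.PX k φ (p.1 - (M.c k).1)) ∧
      (M.Y φ p.2 ↔ M.PY k φ (p.2 - (M.c k).2)) := by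
  have key : ∀ l < M.K, (M.PX l φ (p.1 - (M.c l).1) ∨ M.PY l φ (p.2 - (M.c l).2)) → l = k := by
    intro l hlK h
    obtain ⟨h1, h2⟩ := M.loc l hlK φ p hb h
    change _ ≤ M.hh p at h1
    change M.hh p ≤ _ at h2
    rw [succΓ'] at h1 h2 hu
    rcases lt_trichotomy l k with h3 | h3 | h3
    · rcases hl with h4 | h4
      · omega
      · have h5 := mulΓ (M := M) (show l + 1 ≤ k by omega)
        rw [succΓ] at h5
        linarith
    · exact h3
    · have h5 := mulΓ (M := M) (show k + 1 ≤ l by omega)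
      rw [succΓ] at h5
      linarith
  constructor
  · constructor
    · rintro ⟨l, hlK, h⟩
      have := key l hlK (Or.inl h)
      rwa [this] at h
    · exact fun h => ⟨k, hk, h⟩
  · constructor
    · rintro ⟨l, hlK, h⟩
      have := key l hlK (Or.inr h)
      rwa [this] at h
    · exact fun h => ⟨k, hk, h⟩

theorem step_iff {k : ℕ} (hk : k < M.K) {p p' : V2} (hb : |M.kk p| ≤ M.W)
    (hl : k = 0 ∨ (k : ℤ) * M.Γ + M.Q < M.hh p) (hu : M.hh p < (k + 1) * M.Γ + M.Γ - M.Q) :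
    M.Step p p' ↔ M.LStep k p p' := by
  unfold Step LStep
  have h1 : (fun φ => M.X φ p.1) = fun φ => M.PX k φ (p.1 - (M.c k).1) :=
    funext fun φ => propext (marks_iff hk hb hl hu φ).1
  have h2 : (fun φ => M.Y φ p.2) = fun φ => M.PY k φ (p.2 - (M.c k).2) :=
    funext fun φ => propext (marks_iff hk hb hl hu φ).2
  rw [h1, h2]

/-- After the last event. -/
theorem step_end {p p' : V2} (hb : |M.kk p| ≤ M.W)
    (hl : M.K = 0 ∨ (M.K : ℤ) * M.Γ + M.Q < M.hh p) :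
    M.Step p p' ↔ p' = p + M.g := by
  have key : ∀ l < M.K, ∀ φ,
      ¬ (M.PX l φ (p.1 - (M.c l).1) ∨ M.PY l φ (p.2 - (M.c l).2)) := by
    intro l hlK φ h
    obtain ⟨h1, h2⟩ := M.loc l hlK φ p hb h
    change M.hh p ≤ _ at h2
    rcases hl with h4 | h4
    · omega
    · have h5 := mulΓ (M := M) (show l + 1 ≤ M.K by omega)
      rw [succΓ] at h5
      rw [succΓ'] at h2
      linarith
  have hX : ∀ φ, ¬ M.X φ p.1 := by
    rintro φ ⟨l, h1, h2⟩
    exact key l h1 φ (Or.inl h2)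
  have hY : ∀ φ, ¬ M.Y φ p.2 := by
    rintro φ ⟨l, h1, h2⟩
    exact key l h1 φ (Or.inr h2)
  constructor
  · rintro ⟨q, h | h | h, rfl⟩
    · rw [h.1]
    · rcases M.r0 with h0 | h0
      · exact absurd (h.2.1 h0) (hX _)
      · exact absurd (h.2.2 h0) (hY _)
    · rcases M.t0 with h0 | h0
      · exact absurd (h.2.1 h0) (hX _)
      · exact absurd (h.2.2 h0) (hY _)
  · rintro rfl
    exact ⟨M.g, Or.inl ⟨rfl, fun h => hX _ h.1, fun h => hX _ h.1⟩, rfl⟩

theorem step_height {p p' : V2} (h : M.Step p p') :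
    M.hh p ≤ M.hh p' ∧ M.hh p' ≤ M.hh p + M.st := by
  obtain ⟨q, h, rfl⟩ := h
  rw [hh_add]
  rcases h with h | h | h
  · rw [h.1]
    have h1 := hh_g_pos (M := M)
    have h2 : M.hh M.g ≤ M.st := M.sg
    constructor <;> linarith
  · rw [h.1]
    have h1 := hh_r_nonneg (M := M)
    have h2 : M.hh M.r ≤ M.st := M.sr
    constructor <;> linarith
  · rw [h.1]
    have h1 := hh_t_nonneg (M := M)
    have h2 : M.hh M.t ≤ M.st := M.stt
    constructor <;> linarith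

/-- Soundness. -/
theorem sound (S A : ℕ → Set V2) (h0 : (0, 0) ∈ S 0)
    (E1 : ∀ k < M.K, ∀ p ∈ S k, M.hh p ≤ (k + 1) * M.Γ - M.Q → p ∈ A k)
    (E2 : ∀ k < M.K, ∀ p ∈ A k, ∀ p', M.LStep k p p' → p' ∈ A k)
    (E3 : ∀ k < M.K, ∀ p ∈ A k, (k + 1) * M.Γ + M.Q < M.hh p → p ∈ S (k + 1))
    (E4 : ∀ k < M.K, ∀ p ∈ A k, |M.kk p| ≤ M.W)
    (E5 : ∀ p ∈ S M.K, |M.kk p| ≤ M.W ∧ p + M.g ∈ S M.K)
    {p : V2} (hp : ReflTransGen M.Step (0, 0) p) (hK : (M.K : ℤ) * M.Γ + M.Q < M.hh p) :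
    p ∈ S M.K := by
  have hgap := M.gap
  have hst := st_pos (M := M)
  have hQ0 := M.Q0
  have hΓ := Γ_pos (M := M)
  have inv : ∀ p, ReflTransGen M.Step (0, 0) p →
      (∃ k < M.K, p ∈ A k ∧ (k = 0 ∨ (k : ℤ) * M.Γ + M.Q < M.hh p) ∧
        M.hh p ≤ (k + 1) * M.Γ + M.Q) ∨
      (p ∈ S M.K ∧ (M.K = 0 ∨ (M.K : ℤ) * M.Γ + M.Q < M.hh p)) := by
    intro p hp
    induction hp with
    | refl =>
      rcases Nat.eq_zero_or_pos M.K with h | h
      · right
        rw [h]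
        exact ⟨h0, Or.inl rfl⟩
      · left
        refine ⟨0, h, E1 0 h _ h0 ?_, Or.inl rfl, ?_⟩
        · rw [hh_zero]; push_cast; linarith
        · rw [hh_zero]; push_cast; linarith
    | @tail p p' _ hs ih =>
      obtain ⟨hm1, hm2⟩ := step_height hs
      rcases ih with ⟨k, hk, h1, h2, h3⟩ | ⟨h1, h2⟩
      · have hL : M.LStep k p p' := (step_iff hk (E4 k hk p h1) h2 (by linarith)).1 hs
        have h4 := E2 k hk p h1 p' hL
        by_cases h5 : M.hh p' ≤ (k + 1) * M.Γ + M.Q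
        · left
          exact ⟨k, hk, h4, h2.imp_right fun h => by linarith, h5⟩
        · push Not at h5
          have h6 := E3 k hk p' h4 h5
          rcases Nat.lt_or_ge (k + 1) M.K with h7 | h7
          · left
            refine ⟨k + 1, h7, E1 (k + 1) h7 p' h6 ?_, Or.inr ?_, ?_⟩
            · push_cast; linarith
            · push_cast; linarith
            · push_cast; linarith
          · have : k + 1 = M.K := by omega
            right
            rw [← this]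
            refine ⟨h6, Or.inr ?_⟩
            push_cast
            exact h5
      · right
        have h3 := (step_end (E5 p h1).1 h2).1 hs
        rw [h3]
        refine ⟨(E5 p h1).2, h2.imp_right fun h => ?_⟩
        rw [← h3]
        linarith
  rcases inv p hp with ⟨k, hk, h1, h2, h3⟩ | h
  · exfalso
    have h5 := mulΓ (M := M) (show k + 1 ≤ M.K by omega)
    rw [succΓ] at h5
    rw [succΓ'] at h3
    linarith
  · exact h.1

/-- Reachable positions before event `k`. -/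
def At (M : Sys) (k : ℕ) (p : V2) : Prop :=
  ReflTransGen M.Step (0, 0) p ∧ |M.kk p| ≤ M.W ∧ (k = 0 ∨ (k : ℤ) * M.Γ + M.Q < M.hh p) ∧
    M.hh p ≤ (k + 1) * M.Γ - M.Q

/-- The default step is not possible at `p` because of event `k`. -/
def Kl (M : Sys) (k : ℕ) (p : V2) : Prop :=
  (M.PX k Fl.k1 (p.1 - (M.c k).1) ∧ M.PY k Fl.k1 (p.2 - (M.c k).2)) ∨
    (M.PX k Fl.k2 (p.1 - (M.c k).1) ∧ M.PY k Fl.k2 (p.2 - (M.c k).2))

/-- The position after `n` default steps. -/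
def adv (M : Sys) (p : V2) (n : ℤ) : V2 := (p.1 + n * M.g.1, p.2 + n * M.g.2)

theorem adv_zero (p : V2) : M.adv p 0 = p := by simp [adv]

theorem adv_adv (p : V2) (n m : ℤ) : M.adv (M.adv p n) m = M.adv p (n + m) := by
  simp only [adv, Prod.mk.injEq]; constructor <;> ring

theorem hh_adv (p : V2) (n : ℤ) : M.hh (M.adv p n) = M.hh p + n * M.hh M.g := by
  simp only [adv, hh]; ring

theorem kk_adv (p : V2) (n : ℤ) : M.kk (M.adv p n) = M.kk p := by
  simp only [adv, kk]; ring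

theorem adv_succ (p : V2) (n : ℤ) : M.adv p (n + 1) = M.adv p n + M.g := by
  simp only [adv, Prod.ext_iff, Prod.fst_add, Prod.snd_add]; constructor <;> ring

theorem walk {k : ℕ} (hk : k < M.K) {p : V2} (hp : ReflTransGen M.Step (0, 0) p)
    (hb : |M.kk p| ≤ M.W) (hl : k = 0 ∨ (k : ℤ) * M.Γ + M.Q < M.hh p) (n : ℕ)
    (hn : ∀ i : ℕ, i < n → ¬ M.Kl k (M.adv p i) ∧
      M.hh (M.adv p i) < (k + 1) * M.Γ + M.Γ - M.Q) :
    ReflTransGen M.Step (0, 0) (M.adv p n) := by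
  induction n with
  | zero => simpa [adv_zero] using hp
  | succ n ih =>
    refine (ih fun i hi => hn i (by omega)).tail ?_
    obtain ⟨h1, h2⟩ := hn n (by omega)
    have hg := hh_g_pos (M := M)
    rw [step_iff hk (by rwa [kk_adv]) (hl.imp_right fun h => ?_) h2]
    · refine ⟨M.g, Or.inl ⟨rfl, fun h => h1 (Or.inl h), fun h => h1 (Or.inr h)⟩, ?_⟩
      push_cast
      exact adv_succ p n
    · rw [hh_adv]
      have : (0 : ℤ) ≤ n * M.hh M.g := by positivity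
      linarith

/-- Walk beyond event `k`. -/
theorem pass {k : ℕ} (hk : k < M.K) {p : V2} (hp : ReflTransGen M.Step (0, 0) p)
    (hb : |M.kk p| ≤ M.W) (hl : k = 0 ∨ (k : ℤ) * M.Γ + M.Q < M.hh p)
    (hu : M.hh p ≤ (k + 1) * M.Γ + M.Q + M.st) (hn : ∀ i : ℕ, ¬ M.Kl k (M.adv p i)) :
    ∃ n : ℕ, M.At (k + 1) (M.adv p n) := by
  have hg := hh_g_pos (M := M)
  have hgap := M.gap
  have hsg : M.hh M.g ≤ M.st := M.sg
  have hex : ∃ n : ℕ, (k + 1) * M.Γ + M.Q < M.hh (M.adv p n) := by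
    refine ⟨((k + 1) * M.Γ + M.Q - M.hh p).toNat + 1, ?_⟩
    rw [hh_adv]
    have h1 := Int.self_le_toNat ((k + 1) * M.Γ + M.Q - M.hh p)
    push_cast
    nlinarith
  classical
  have h1 := Nat.find_spec hex
  have h2 : ∀ i < Nat.find hex, M.hh (M.adv p i) ≤ (k + 1) * M.Γ + M.Q := fun i hi => by
    have := Nat.find_min hex hi
    push Not at this
    exact this
  refine ⟨Nat.find hex, walk hk hp hb hl _ fun i hi => ⟨hn i, ?_⟩, by rwa [kk_adv], Or.inr ?_, ?_⟩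
  · have := h2 i hi
    have := st_pos (M := M)
    have := M.Q0
    linarith
  · push_cast
    exact h1
  · push_cast
    have h3 : M.hh (M.adv p (Nat.find hex)) ≤ (k + 1) * M.Γ + M.Q + M.st := by
      rcases Nat.eq_zero_or_pos (Nat.find hex) with h0 | h0
      · rw [h0]
        simpa [adv_zero] using hu
      · have h3 := h2 (Nat.find hex - 1) (by omega)
        rw [hh_adv] at h3 ⊢
        have h4 : ((Nat.find hex - 1 : ℕ) : ℤ) = (Nat.find hex : ℤ) - 1 := by omega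
        rw [h4] at h3
        linarith
    linarith

end Sys

end Pool.Agent.Helper38.Shape
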